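import Mathlib

set_option autoImplicit false

/-! # Edge colouring of regular bipartite multigraphs -/

namespace Pool.Agent.Lib.MP_6fba53_co

open Finset

variable {Z α β : Type} [DecidableEq Z] [Fintype α] [Fintype β] [DecidableEq α] [DecidableEq β]

omit [DecidableEq Z] [Fintype α] in
theorem card_filter_mem (m : Z → α) (r : ℕ) (S : Finset Z)
    (hm : ∀ a, (S.filter fun z => m z = a).card = r) (A : Finset α) :
    (S.filter fun z => m z ∈ A).card = A.card * r := by
  rw [Finset.card_eq_sum_card_fiberwise (f := m) (t := A)]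
  · rw [← smul_eq_mul, ← Finset.sum_const]
    refine Finset.sum_congr rfl fun a ha => ?_
    rw [← hm a, Finset.filter_filter]
    congr 1
    ext z
    simp only [Finset.mem_filter]
    constructor
    · rintro ⟨h1, _, h3⟩; exact ⟨h1, h3⟩
    · rintro ⟨h1, h3⟩; exact ⟨h1, by rw [h3]; exact ha, h3⟩
  · intro z hz
    simp only [Finset.coe_filter, Set.mem_setOf_eq] at hz
    exact hz.2

/-- A perfect matching in a regular bipartite multigraph (edge set `S`). -/
theorem exists_matching (m : Z → α) (k : Z → β) (r : ℕ) (S : Finset Z)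
    (hm : ∀ a, (S.filter fun z => m z = a).card = r + 1)
    (hk : ∀ b, (S.filter fun z => k z = b).card = r + 1) :
    ∃ g : α → Z, (∀ a, g a ∈ S ∧ m (g a) = a) ∧ Function.Bijective fun a => k (g a) := by
  classical
  set t : α → Finset β := fun a => (S.filter fun z => m z = a).image k with ht
  have hall : ∀ A : Finset α, A.card ≤ (A.biUnion t).card := by
    intro A
    have h1 := card_filter_mem m (r + 1) S hm A
    have h2 := card_filter_mem k (r + 1) S hk (A.biUnion t)
    have h3 : (S.filter fun z => m z ∈ A) ⊆ (S.filter fun z => k z ∈ A.biUnion t) := by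
      intro z hz
      simp only [Finset.mem_filter] at hz ⊢
      refine ⟨hz.1, ?_⟩
      rw [Finset.mem_biUnion]
      refine ⟨m z, hz.2, ?_⟩
      rw [ht]
      exact Finset.mem_image_of_mem k (by simp [hz.1])
    have h4 := Finset.card_le_card h3
    rw [h1, h2] at h4
    exact Nat.le_of_mul_le_mul_right h4 (Nat.succ_pos r)
  obtain ⟨f, hf, hft⟩ := (Finset.all_card_le_biUnion_card_iff_exists_injective t).1 hall
  have hch : ∀ a, ∃ z, (z ∈ S ∧ m z = a) ∧ k z = f a := by
    intro a
    have := hft a
    rw [ht, Finset.mem_image] at this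
    obtain ⟨z, hz, hz2⟩ := this
    rw [Finset.mem_filter] at hz
    exact ⟨z, hz, hz2⟩
  choose g hg using hch
  refine ⟨g, fun a => (hg a).1, ?_⟩
  have hfe : (fun a => k (g a)) = f := funext fun a => (hg a).2
  rw [hfe]
  have hcard : Fintype.card α = Fintype.card β := by
    have h1 := card_filter_mem m (r + 1) S hm Finset.univ
    have h2 := card_filter_mem k (r + 1) S hk Finset.univ
    simp only [Finset.mem_univ, Finset.filter_true, Finset.card_univ] at h1 h2
    rw [h1] at h2
    exact Nat.eq_of_mul_eq_mul_right (Nat.succ_pos r) h2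
  exact (Fintype.bijective_iff_injective_and_card f).2 ⟨hf, hcard⟩

/-- Koenig: a regular bipartite multigraph of degree `r` has a proper edge colouring with `r`
colours. -/
theorem koenig (m : Z → α) (k : Z → β) : ∀ (r : ℕ) (S : Finset Z),
    (∀ a, (S.filter fun z => m z = a).card = r) → (∀ b, (S.filter fun z => k z = b).card = r) →
    ∃ c : Z → ℕ, (∀ z ∈ S, c z < r) ∧
      (∀ z ∈ S, ∀ z' ∈ S, m z = m z' → c z = c z' → z = z') ∧
      (∀ z ∈ S, ∀ z' ∈ S, k z = k z' → c z = c z' → z = z') := by
  classical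
  intro r
  induction r with
  | zero =>
    intro S hm _
    have hS : ∀ z, z ∉ S := by
      intro z hz
      have := hm (m z)
      rw [Finset.card_eq_zero, Finset.filter_eq_empty_iff] at this
      exact this hz rfl
    exact ⟨fun _ => 0, fun z hz => absurd hz (hS z), fun z hz => absurd hz (hS z),
      fun z hz => absurd hz (hS z)⟩
  | succ r ih =>
    intro S hm hk
    obtain ⟨g, hg, hgb⟩ := exists_matching m k r S hm hk
    set M : Finset Z := Finset.univ.image g with hM
    have hgM : ∀ a, g a ∈ M := fun a => Finset.mem_image_of_mem g (Finset.mem_univ a)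
    have hMm : ∀ z ∈ M, g (m z) = z := by
      intro z hz
      rw [hM, Finset.mem_image] at hz
      obtain ⟨a, _, rfl⟩ := hz
      rw [(hg a).2]
    have hMS : M ⊆ S := by
      intro z hz
      rw [← hMm z hz]; exact (hg _).1
    have hm' : ∀ a, ((S \ M).filter fun z => m z = a).card = r := by
      intro a
      have h1 : ((S \ M).filter fun z => m z = a) = (S.filter fun z => m z = a).erase (g a) := by
        ext z
        simp only [Finset.mem_filter, Finset.mem_sdiff, Finset.mem_erase]
        constructor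
        · rintro ⟨⟨h1, h2⟩, h3⟩
          exact ⟨fun h => h2 (h ▸ hgM a), h1, h3⟩
        · rintro ⟨h1, h2, h3⟩
          refine ⟨⟨h2, fun h => h1 ?_⟩, h3⟩
          rw [← hMm z h, h3]
      rw [h1, Finset.card_erase_of_mem, hm a]
      · rfl
      · simp only [Finset.mem_filter]; exact hg a
    have hk' : ∀ b, ((S \ M).filter fun z => k z = b).card = r := by
      intro b
      obtain ⟨a, ha⟩ := hgb.2 b
      have h1 : ((S \ M).filter fun z => k z = b) = (S.filter fun z => k z = b).erase (g a) := by
        ext z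
        simp only [Finset.mem_filter, Finset.mem_sdiff, Finset.mem_erase]
        constructor
        · rintro ⟨⟨h1, h2⟩, h3⟩
          exact ⟨fun h => h2 (h ▸ hgM a), h1, h3⟩
        · rintro ⟨h1, h2, h3⟩
          refine ⟨⟨h2, fun h => h1 ?_⟩, h3⟩
          have h4 : k (g (m z)) = k (g a) := by rw [hMm z h, h3, ← ha]
          have h5 : m z = a := hgb.1 h4
          rw [← h5, hMm z h]
      rw [h1, Finset.card_erase_of_mem, hk b]
      · rfl
      · simp only [Finset.mem_filter]; exact ⟨(hg a).1, ha⟩
    obtain ⟨c, hc1, hc2, hc3⟩ := ih (S \ M) hm' hk'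
    refine ⟨fun z => if z ∈ M then r else c z, ?_, ?_, ?_⟩
    · intro z hz
      by_cases h : z ∈ M
      · simp [h]
      · simp only [h, if_false]
        exact Nat.lt_succ_of_lt (hc1 z (Finset.mem_sdiff.2 ⟨hz, h⟩))
    · intro z hz z' hz' hmm hcc
      by_cases h : z ∈ M <;> by_cases h' : z' ∈ M <;> simp only [h, h', if_true, if_false] at hcc
      · rw [← hMm z h, ← hMm z' h', hmm]
      · exact absurd hcc.symm (hc1 z' (Finset.mem_sdiff.2 ⟨hz', h'⟩)).ne
      · exact absurd hcc (hc1 z (Finset.mem_sdiff.2 ⟨hz, h⟩)).ne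
      · exact hc2 z (Finset.mem_sdiff.2 ⟨hz, h⟩) z' (Finset.mem_sdiff.2 ⟨hz', h'⟩) hmm hcc
    · intro z hz z' hz' hkk hcc
      by_cases h : z ∈ M <;> by_cases h' : z' ∈ M <;> simp only [h, h', if_true, if_false] at hcc
      · have h4 : k (g (m z)) = k (g (m z')) := by rw [hMm z h, hMm z' h', hkk]
        have h5 : m z = m z' := hgb.1 h4
        rw [← hMm z h, ← hMm z' h', h5]
      · exact absurd hcc.symm (hc1 z' (Finset.mem_sdiff.2 ⟨hz', h'⟩)).ne
      · exact absurd hcc (hc1 z (Finset.mem_sdiff.2 ⟨hz, h⟩)).ne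
      · exact hc3 z (Finset.mem_sdiff.2 ⟨hz, h⟩) z' (Finset.mem_sdiff.2 ⟨hz', h'⟩) hkk hcc

end Pool.Agent.Lib.MP_6fba53_co
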