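import Pool.Agent.Lib.MP_6fba53_co.PGBasic

set_option autoImplicit false

/-! # Composition of two families along a tower of fields -/

namespace Pool.Agent.Lib.MP_6fba53_co.PG

section comp

variable {F L K : Type} [Field F] [Field L] [Field K] [Algebra F L] [Algebra L K] [Algebra F K]
  [IsScalarTower F L K]

/-- The image in `K` of the representative of a class of `L`. -/
noncomputable def up (L K : Type) {F : Type} [Field F] [Field L] [Field K] [Algebra F L]
    [Algebra L K] (g : G F L) : Kˣ :=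
  Units.map (algebraMap L K : L →* K) (ru g)

omit [Algebra F K] [IsScalarTower F L K] in
theorem up_val (g : G F L) : (up L K g : K) = algebraMap L K (rp g) := rfl

/-- The composition of two families. -/
noncomputable def comp (h1 : L → G F L → G F L) (h2 : K → G L K → G L K) (c : G F K → K → Lˣ) :
    K → G F K → G F K := fun x g =>
  cl (up L K (h1 (tr (rp (h2 x (cl (ru g))) * x)) (cl (c g x))) * ru (h2 x (cl (ru g))))

variable {h1 : L → G F L → G F L} {h2 : K → G L K → G L K}

omit [Algebra F K] [IsScalarTower F L K] in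
theorem comp_c (H2 : ∀ x p, ¬ tz (h2 x p * p)) (u : Kˣ) (x : K) :
    (tr (rp (h2 x (cl u)) * (u : K)) : L) ≠ 0 := by
  intro h
  exact H2 x (cl u) ((tz_mul_cl _ _).2 h)

theorem comp_step (A A' : G L K) (a a' : G F L)
    (h : (cl (up L K a * ru A) : G F K) = cl (up L K a' * ru A')) : A = A' ∧ a = a' := by
  rw [cl_eq_iff] at h
  obtain ⟨l, hl⟩ := h
  rw [Units.val_mul, Units.val_mul, up_val, up_val] at hl
  have hA : A = A' := by
    rw [← cl_ru A, ← cl_ru A', cl_eq_iff]
    refine ⟨Units.map (algebraMap F L : F →* L) l * ru a * (ru a')⁻¹, ?_⟩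
    have h0 : algebraMap L K (rp a') ≠ 0 := by
      rw [Ne, FaithfulSMul.algebraMap_eq_zero_iff]; exact rp_ne a'
    apply mul_left_cancel₀ h0
    rw [hl, IsScalarTower.algebraMap_apply F L K, Units.val_mul, Units.val_mul]
    rw [map_mul, map_mul, Units.val_inv_eq_inv_val, map_inv₀]
    change algebraMap L K (algebraMap F L l) * (algebraMap L K (rp a) * (ru A : K)) =
      algebraMap L K (rp a') * (algebraMap L K (algebraMap F L l) * algebraMap L K (rp a) *
        (algebraMap L K (rp a'))⁻¹ * (ru A : K))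
    field_simp
  refine ⟨hA, ?_⟩
  subst hA
  rw [← mul_assoc] at hl
  have h2 := mul_right_cancel₀ (Units.ne_zero (ru A)) hl
  rw [IsScalarTower.algebraMap_apply F L K, ← map_mul] at h2
  have h3 := (algebraMap L K).injective h2
  rw [← cl_ru a, ← cl_ru a', cl_eq_iff]
  exact ⟨l, h3⟩

theorem tr_up [FiniteDimensional F L] [FiniteDimensional L K] (a : G F L) (A : G L K) (y : K) :
    (tr ((((up L K a * ru A : Kˣ)) : K) * y) : F) = tr (rp a * (tr (rp A * y) : L)) := by
  unfold tr
  rw [← Algebra.trace_trace (S := L), Units.val_mul, up_val, mul_assoc]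
  congr 1
  exact tr_smul (F := L) (rp a) ((ru A : K) * y)

theorem tr_rp_cl (u : Kˣ) (y y' : K) (h : (tr (rp (cl u : G F K) * y) : F) =
    tr (rp (cl u : G F K) * y')) : (tr ((u : K) * y) : F) = tr ((u : K) * y') := by
  obtain ⟨l, hl⟩ := (cl_eq_iff _ _).1 (cl_ru (cl u : G F K))
  rw [hl, mul_assoc, mul_assoc, tr_smul, tr_smul]
  have h2 : rp (cl u : G F K) = (ru (cl u : G F K) : K) := rfl
  rw [← h2, h]

theorem comp_good [FiniteDimensional F L] [FiniteDimensional L K]
    (H1 : Good h1) (H2 : Good h2) : ∃ h : K → G F K → G F K, Good h := by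
  have hc : ∀ (g : G F K) (x : K), (tr (rp (h2 x (cl (ru g))) * (ru g : K)) : L) ≠ 0 :=
    fun g x => comp_c H2.ne (ru g) x
  refine ⟨comp h1 h2 (fun g x => Units.mk0 _ (hc g x)), ?_, ?_, ?_⟩
  · intro x g g' hgg
    unfold comp at hgg
    obtain ⟨hA, ha⟩ := comp_step _ _ _ _ hgg
    have h3 := H2.inj x hA
    rw [← hA] at ha
    have h4 := H1.inj _ ha
    rw [cl_eq_iff] at h3 h4
    obtain ⟨m, hm⟩ := h3
    obtain ⟨l, hl⟩ := h4
    rw [Units.val_mk0, Units.val_mk0, ← hA, hm, mul_left_comm, tr_smul] at hl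
    have h5 := mul_right_cancel₀ (hc g x) hl
    rw [← cl_ru g, ← cl_ru g', cl_eq_iff]
    refine ⟨l, ?_⟩
    rw [hm, h5, IsScalarTower.algebraMap_apply F L K]
  · intro x g
    unfold comp
    rw [mul_comm, tz_mul_cl, mul_comm, tr_up]
    intro h
    refine H1.ne (tr (rp (h2 x (cl (ru g))) * x)) (cl (Units.mk0 _ (hc g x))) ?_
    rw [tz_mul_cl]
    exact h
  · intro x x' g hgg ht
    unfold comp at hgg ht
    have ht2 := tr_rp_cl _ _ _ ht
    rw [tr_up, tr_up] at ht2
    obtain ⟨hA, ha⟩ := comp_step _ _ _ _ hgg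
    refine H2.key x x' _ hA ?_
    have h6 : Units.mk0 _ (hc g x) = Units.mk0 _ (hc g x') := by
      ext
      rw [Units.val_mk0, Units.val_mk0, hA]
    beta_reduce at ha ht2
    rw [← h6, ← hA] at ha
    exact H1.key _ _ _ ha ht2

end comp

end Pool.Agent.Lib.MP_6fba53_co.PG
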