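import Pool.Agent.Lib.MP_6fba53_co.PGCoord

set_option autoImplicit false

/-! # Dimension four over the field with two elements -/

namespace Pool.Agent.Lib.MP_6fba53_co.PG

namespace F42

/-- The table (binary digits are coordinates, row = point, column = direction). -/
def tab : Fin 16 → Fin 16 → Fin 16 :=
  ![![0, 1, 2, 5, 4, 3, 10, 7, 8, 12, 6, 11, 9, 13, 15, 14],
    ![0, 1, 3, 2, 5, 4, 11, 7, 9, 8, 12, 6, 10, 15, 14, 13],
    ![0, 3, 2, 1, 5, 6, 4, 9, 12, 7, 8, 15, 11, 10, 14, 13],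
    ![0, 3, 6, 1, 7, 12, 2, 4, 10, 5, 13, 8, 11, 15, 9, 14],
    ![0, 5, 3, 6, 4, 1, 2, 10, 9, 14, 7, 12, 8, 13, 15, 11],
    ![0, 5, 7, 9, 6, 1, 3, 2, 14, 12, 13, 15, 4, 10, 8, 11],
    ![0, 11, 6, 2, 13, 3, 4, 1, 15, 14, 12, 5, 10, 8, 9, 7],
    ![0, 7, 11, 13, 12, 14, 3, 1, 15, 10, 2, 5, 9, 6, 4, 8],
    ![0, 7, 10, 6, 14, 9, 12, 15, 13, 1, 2, 11, 4, 3, 5, 8],
    ![0, 9, 14, 5, 15, 11, 10, 12, 13, 1, 3, 2, 6, 4, 8, 7],
    ![0, 9, 10, 13, 14, 12, 5, 15, 11, 3, 6, 1, 7, 8, 2, 4],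
    ![0, 15, 11, 14, 13, 9, 5, 2, 12, 10, 3, 8, 7, 6, 4, 1],
    ![0, 13, 15, 10, 7, 11, 12, 9, 14, 3, 8, 6, 5, 1, 2, 4],
    ![0, 13, 14, 9, 15, 4, 11, 10, 8, 5, 7, 12, 6, 1, 3, 2],
    ![0, 11, 15, 14, 12, 6, 13, 4, 10, 7, 9, 2, 8, 3, 5, 1],
    ![0, 15, 7, 10, 6, 14, 13, 12, 11, 8, 9, 1, 5, 4, 3, 2]]

/-- The vector of binary digits. -/
def vec (n : Fin 16) (i : Fin 4) : ZMod 2 := if n.val.testBit i.val then 1 else 0

/-- The number with given binary digits. -/
def num (v : Fin 4 → ZMod 2) : Fin 16 :=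
  ⟨(v 0).val + 2 * (v 1).val + 4 * (v 2).val + 8 * (v 3).val, by
    have h0 := ZMod.val_lt (v 0)
    have h1 := ZMod.val_lt (v 1)
    have h2 := ZMod.val_lt (v 2)
    have h3 := ZMod.val_lt (v 3)
    omega⟩

/-- Parity of the number of common digits. -/
def dt (a b : Fin 16) : Bool :=
  xor (xor (a.val.testBit 0 && b.val.testBit 0) (a.val.testBit 1 && b.val.testBit 1))
    (xor (a.val.testBit 2 && b.val.testBit 2) (a.val.testBit 3 && b.val.testBit 3))

theorem vec_num : ∀ v : Fin 4 → ZMod 2, vec (num v) = v := by decide +kernel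

theorem num_vec : ∀ n : Fin 16, num (vec n) = n := by decide +kernel

theorem num_inj (v w : Fin 4 → ZMod 2) (h : num v = num w) : v = w := by
  rw [← vec_num v, ← vec_num w, h]

theorem num_zero : num 0 = 0 := by decide +kernel

theorem dot_eq (a b : Fin 16) : vec a ⬝ᵥ vec b = if dt a b then 1 else 0 := by
  revert a b
  decide +kernel

theorem t_inj : ∀ x p p' : Fin 16, tab x p = tab x p' → p = p' := by decide +kernel

theorem t_ne : ∀ x p : Fin 16, p ≠ 0 → dt (tab x p) p = true := by decide +kernel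

theorem t_key : ∀ x x' p : Fin 16, p ≠ 0 → tab x p = tab x' p → dt (tab x p) x = dt (tab x p) x' →
    x = x' := by decide +kernel

/-- The family. -/
def H (x p : Fin 4 → ZMod 2) : Fin 4 → ZMod 2 := vec (tab (num x) (num p))

theorem one_of_ne (m : ZMod 2) (hm : m ≠ 0) : m = 1 := by
  revert m
  decide

theorem dtx (a : Fin 16) (w w' : Fin 16) (h : (if dt a w then (1 : ZMod 2) else 0) =
    if dt a w' then 1 else 0) : dt a w = dt a w' := by
  revert h
  cases dt a w <;> cases dt a w' <;> simp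

theorem H_good : CGood H := by
  refine ⟨?_, ?_, ?_⟩
  · intro x p p' hp hp' m hm h
    rw [one_of_ne m hm, one_smul] at h
    refine ⟨1, ?_⟩
    rw [one_smul]
    have h1 := congrArg num h
    unfold H at h1
    rw [num_vec, num_vec] at h1
    exact num_inj _ _ (t_inj _ _ _ h1)
  · intro x p hp h
    unfold H at h
    rw [← vec_num p] at h
    rw [num_vec, dot_eq, t_ne] at h
    · simp at h
    · intro h0
      apply hp
      apply num_inj
      rw [h0, num_zero]
  · intro x x' p hp m hm h hxx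
    rw [one_of_ne m hm, one_smul] at h
    have h1 := congrArg num h
    unfold H at h1 hxx
    rw [num_vec, num_vec] at h1
    have h2 : vec (tab (num x) (num p)) ⬝ᵥ vec (num x) =
        vec (tab (num x) (num p)) ⬝ᵥ vec (num x') := by
      rw [vec_num, vec_num]; exact hxx
    rw [dot_eq, dot_eq] at h2
    refine num_inj _ _ (t_key _ _ (num p) ?_ h1 (dtx _ _ _ h2))
    intro h0
    apply hp
    apply num_inj
    rw [h0, num_zero]

end F42

theorem exists_four_two (F : Type) [Field F] [Fintype F] (h2 : Fintype.card F = 2) :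
    ∃ H : (Fin 4 → F) → (Fin 4 → F) → (Fin 4 → F), CGood H := by
  have e : ZMod 2 ≃+* F := FiniteField.ringEquivOfCardEq (by rw [h2, ZMod.card])
  exact ⟨_, F42.H_good.map e⟩

/-- Dimension one. -/
theorem exists_one (F : Type) [Field F] :
    ∃ H : (Fin 1 → F) → (Fin 1 → F) → (Fin 1 → F), CGood H := by
  have hdot : ∀ a b : Fin 1 → F, a ⬝ᵥ b = a 0 * b 0 := by
    intro a b
    simp [dotProduct]
  have hext : ∀ a b : Fin 1 → F, a 0 = b 0 → a = b := by
    intro a b h
    funext i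
    fin_cases i
    exact h
  refine ⟨fun _ _ => fun _ => 1, ?_, ?_, ?_⟩
  · intro x p p' hp hp' m hm _
    have h0 : p' 0 ≠ 0 := fun h => hp' (hext _ _ h)
    refine ⟨p 0 / p' 0, hext _ _ ?_⟩
    rw [Pi.smul_apply, smul_eq_mul, div_mul_cancel₀ _ h0]
  · intro x p hp
    rw [hdot, one_mul]
    exact fun h => hp (hext _ _ h)
  · intro x x' p hp m hm _ h
    rw [hdot, hdot, one_mul, one_mul] at h
    exact hext _ _ h

end Pool.Agent.Lib.MP_6fba53_co.PG
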