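import Pool.Agent.Lib.MP_6fba53_co.Basic

set_option autoImplicit false

namespace Pool.Agent.Lib.MP_6fba53_co

set_option maxHeartbeats 4000000
set_option linter.unusedSimpArgs false
set_option linter.unusedSectionVars false

variable {F : Type} [Field F] [DecidableEq F]

/-- The explicit colouring of the flags of the affine plane in characteristic two
(`c = 1 + e`, and `r` is the square root function). -/
def evenCol (e c : F) (r : F → F) (P : F × F) : Option F → Option F
  | none =>
    if P.1 = 0 then some (r (e ^ 3 * P.2) / c) else some ((P.2 / P.1 + e * P.1) / c)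
  | some d =>
    if P.1 = 0 then
      if P.2 = 0 then
        if d = 0 then none else some (e / c ^ 2 * d)
      else
        if d = 0 then none
        else if d ^ 2 = e ^ 3 * P.2 then some 0
        else some (d / c)
    else if e * P.2 = c ^ 2 * P.1 ^ 2 then
      if d = 0 then some P.1
      else if e * d = c ^ 2 * P.1 then some 0
      else if d = e * P.1 then some (e * P.1 / c)
      else if d = P.1 then none
      else some ((d + e * P.1) / c)
    else if P.2 = e * P.1 ^ 2 then
      if d = 0 then some (e ^ 2 / c ^ 2 * P.1)
      else if d = P.1 then some (e * P.1 / c)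
      else if c * d = e * P.1 then none
      else if d = e * P.1 then some P.1
      else some ((d + e * P.1) / c)
    else
      if d = P.1 then none
      else if P.2 = d * P.1 then some P.1
      else some ((d + e * P.1) / c)

section test
variable (e c : F) (r : F → F) (h2 : (2 : F) = 0) (hec : c + e = 1) (he : e ≠ 0) (hc : c ≠ 0)
  (hk : c ^ 2 ≠ e) (hr : ∀ y, r y ^ 2 = y)
include h2 hec he hc hk hr

theorem evenCol_ne (P : F × F) (d : Option F) : evenCol e c r P d ≠ d := by
  cases d with
  | none => simp only [evenCol]; split_ifs <;> simp
  | some d =>
    simp only [evenCol]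
    split_ifs <;> simp only [ne_eq, Option.some.injEq, reduceCtorEq, not_false_eq_true] <;> intro h <;> grind

theorem evenCol_inj_pt (P : F × F) : Function.Injective (evenCol e c r P) := by
  have hsq : ∀ a b : F, a ^ 2 = b ^ 2 → a = b := by
    intro a b h
    have h1 : (a - b) ^ 2 = 0 := by linear_combination h - a * b * h2 + b ^ 2 * h2
    have h3 := pow_eq_zero_iff (two_ne_zero) |>.1 h1
    linear_combination h3
  have hr3 := hr (e ^ 3 * P.2)
  have hc2 : c ^ 2 ≠ 0 := pow_ne_zero 2 hc
  intro d d' h
  cases d with
  | none =>
    cases d' with
    | none => rfl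
    | some d' =>
      exfalso
      simp only [evenCol] at h
      split_ifs at h <;> simp only [Option.some.injEq, reduceCtorEq] at h <;> grind
  | some d =>
    cases d' with
    | none =>
      exfalso
      simp only [evenCol] at h
      split_ifs at h <;> simp only [Option.some.injEq, reduceCtorEq] at h <;> grind
    | some d' =>
      congr 1
      simp only [evenCol] at h
      by_cases hx : P.1 = 0
      · simp only [if_pos hx] at h
        by_cases hy : P.2 = 0
        · simp only [if_pos hy] at h
          split_ifs at h <;> simp only [Option.some.injEq] at h <;> grind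
        · simp only [if_neg hy] at h
          split_ifs at h <;> simp only [Option.some.injEq] at h <;> grind
      · simp only [if_neg hx] at h
        by_cases h1 : e * P.2 = c ^ 2 * P.1 ^ 2
        · simp only [if_pos h1] at h
          split_ifs at h <;> simp only [Option.some.injEq] at h <;> grind
        · simp only [if_neg h1] at h
          by_cases h3 : P.2 = e * P.1 ^ 2
          · simp only [if_pos h3] at h
            split_ifs at h <;> simp only [Option.some.injEq] at h <;> grind
          · simp only [if_neg h3] at h
            split_ifs at h <;> simp only [Option.some.injEq] at h <;> grind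

theorem evenCol_inj_vert (P Q : F × F) (hx : P.1 = Q.1)
    (h : evenCol e c r P none = evenCol e c r Q none) : P = Q := by
  have hc2 : c ^ 2 ≠ 0 := pow_ne_zero 2 hc
  have h1 := hr (e ^ 3 * P.2)
  have h3 := hr (e ^ 3 * Q.2)
  refine Prod.ext hx ?_
  simp only [evenCol] at h
  rw [← hx] at h
  split_ifs at h with h4 <;> simp only [Option.some.injEq] at h
  · have h5 : r (e ^ 3 * P.2) = r (e ^ 3 * Q.2) := by
      field_simp at h
      exact h
    rw [h5, h3] at h1
    have he3 : e ^ 3 ≠ 0 := pow_ne_zero 3 he
    exact (mul_left_cancel₀ he3 h1).symm
  · field_simp at h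
    linear_combination h

/-- `e` times the position of the colour `t` (with `s = c * t`) on the line of slope `d ≠ 0` and
intercept `b ≠ 0` -/
def posS (e c d b s : F) : F :=
  if s = e * d then (if b = c * d ^ 2 then e * d else c * d)
  else if s = 0 then (if e ^ 3 * b = d ^ 2 then 0 else d)
  else if s = d then (if e ^ 3 * b = d ^ 2 then d else 0)
  else s + d

/-- `e` times the position of a colour on the line of slope `d ≠ 0` and intercept `b ≠ 0` -/
def pos (e c d b : F) : Option F → F
  | none => if b = c * d ^ 2 then c * d else e * d
  | some t => posS e c d b (c * t)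

theorem pos_evenCol (P : F × F) (d b : F) (hd : d ≠ 0) (hb : b ≠ 0) (hP : P.2 = d * P.1 + b) :
    pos e c d b (evenCol e c r P (some d)) = e * P.1 := by
  have hc2 : c ^ 2 ≠ 0 := pow_ne_zero 2 hc
  have he3 : e ^ 3 ≠ 0 := pow_ne_zero 3 he
  obtain ⟨x, y⟩ := P
  simp only at hP
  simp only [evenCol]
  by_cases hx : x = 0
  · subst hx
    simp only [if_true]
    by_cases hy : y = 0
    · exfalso; grind
    · simp only [if_neg hy, if_neg hd]
      by_cases h5 : d ^ 2 = e ^ 3 * y
      · simp only [if_pos h5, pos, posS, mul_zero]
        split_ifs <;> grind
      · simp only [if_neg h5, pos, posS, mul_div_cancel₀ _ hc]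
        split_ifs <;> grind
  · simp only [if_neg hx]
    by_cases h1 : e * y = c ^ 2 * x ^ 2
    · simp only [if_pos h1, if_neg hd]
      by_cases h4 : e * d = c ^ 2 * x
      · exfalso
        have h6 : e * b = 0 := by linear_combination h1 - x * h4 - e * hP
        exact hb ((mul_eq_zero.1 h6).resolve_left he)
      · simp only [if_neg h4]
        by_cases h5 : d = e * x
        · have key : e ^ 3 * b = d ^ 2 := by
            linear_combination -e^3*hP + e^2*h1 - (e^3*x + d + e*x)*h5 +
              e^2*x^2*((c+e+1)*hec - (c*e+e^2)*h2)
          simp only [if_pos h5, pos, posS, mul_div_cancel₀ _ hc]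
          split_ifs <;> grind
        · simp only [if_neg h5]
          by_cases h6 : d = x
          · have key : b ≠ c * d ^ 2 := by
              intro hb2
              have h7 : d ^ 2 = 0 := by
                subst h6
                linear_combination h1 - e * hP - e * hb2 - d ^ 2 * (1 + c) * hec + c ^ 2 * d ^ 2 * h2
              exact hd (pow_eq_zero_iff (two_ne_zero) |>.1 h7)
            simp only [if_pos h6, pos, if_neg key]
            rw [h6]
          · simp only [if_neg h6, pos, posS, mul_div_cancel₀ _ hc]
            split_ifs <;> grind
    · simp only [if_neg h1]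
      by_cases h3 : y = e * x ^ 2
      · simp only [if_pos h3, if_neg hd]
        by_cases h6 : d = x
        · simp only [if_pos h6, pos, posS, mul_div_cancel₀ _ hc]
          split_ifs <;> grind
        · simp only [if_neg h6]
          by_cases h7 : c * d = e * x
          · simp only [if_pos h7, pos]
            split_ifs <;> grind
          · simp only [if_neg h7]
            by_cases h8 : d = e * x
            · exfalso; grind
            · simp only [if_neg h8, pos, posS, mul_div_cancel₀ _ hc]
              split_ifs <;> grind
      · simp only [if_neg h3]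
        by_cases h6 : d = x
        · simp only [if_pos h6, pos]
          split_ifs <;> grind
        · simp only [if_neg h6]
          by_cases h7 : y = d * x
          · exfalso; grind
          · simp only [if_neg h7, pos, posS, mul_div_cancel₀ _ hc]
            split_ifs <;> grind

/-- on a line of slope zero which does not contain the origin colours determine the point -/
theorem evenCol_inj_zero (x x' y : F) (hy : y ≠ 0)
    (h : evenCol e c r (x, y) (some 0) = evenCol e c r (x', y) (some 0)) : x = x' := by
  have hc2 : c ^ 2 ≠ 0 := pow_ne_zero 2 hc
  have he3 : e ^ 3 ≠ 0 := pow_ne_zero 3 he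
  have hsq : ∀ a b : F, a ^ 2 = b ^ 2 → a = b := by
    intro a b h
    have h1 : (a - b) ^ 2 = 0 := by linear_combination h - a * b * h2 + b ^ 2 * h2
    have h3 := pow_eq_zero_iff (two_ne_zero) |>.1 h1
    linear_combination h3
  simp only [evenCol] at h
  split_ifs at h <;> simp only [Option.some.injEq] at h <;>
    first
    | grind
    | (exfalso
       field_simp at h
       have h' : e * x = c * x' := mul_left_cancel₀ he (by linear_combination h)
       grind)

/-- colours determine the point on a non-vertical line -/
theorem evenCol_inj_line (P Q : F × F) (d : F) (hl : P.2 - d * P.1 = Q.2 - d * Q.1)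
    (h : evenCol e c r P (some d) = evenCol e c r Q (some d)) : P.1 = Q.1 := by
  have hc2 : c ^ 2 ≠ 0 := pow_ne_zero 2 hc
  have he3 : e ^ 3 ≠ 0 := pow_ne_zero 3 he
  by_cases hd : d = 0
  · subst hd
    obtain ⟨x, y⟩ := P
    obtain ⟨x', y'⟩ := Q
    simp only [zero_mul, sub_zero] at hl
    subst hl
    simp only
    by_cases hy : y = 0
    · subst hy
      simp only [evenCol] at h
      split_ifs at h <;> simp only [Option.some.injEq] at h <;> grind
    · exact evenCol_inj_zero e c r h2 hec he hc hk hr x x' y hy h
  · by_cases hb : P.2 - d * P.1 = 0
    · obtain ⟨x, y⟩ := P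
      obtain ⟨x', y'⟩ := Q
      simp only at hl hb
      have hy : y = d * x := by linear_combination hb
      have hy' : y' = d * x' := by linear_combination hb - hl
      subst hy hy'
      simp only
      simp only [evenCol, if_neg hd] at h
      split_ifs at h <;> simp only [Option.some.injEq] at h <;> grind
    · have h1 := pos_evenCol e c r h2 hec he hc hk hr P d (P.2 - d * P.1) hd hb (by ring)
      have h3 := pos_evenCol e c r h2 hec he hc hk hr Q d (P.2 - d * P.1) hd hb (by
        rw [hl]; ring)
      rw [h] at h1
      exact mul_left_cancel₀ he (h1.symm.trans h3)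

theorem evenCol_good [Finite F] : Good (evenCol e c r) := by
  refine ⟨?_, evenCol_ne e c r h2 hec he hc hk hr, ?_⟩
  · intro P
    rw [← Finite.injective_iff_bijective]
    exact evenCol_inj_pt e c r h2 hec he hc hk hr P
  · intro P Q d hl hcol
    cases d with
    | none =>
      simp only [line, Prod.mk.injEq, true_and] at hl
      exact evenCol_inj_vert e c r h2 hec he hc hk hr P Q hl hcol
    | some d =>
      simp only [line, Prod.mk.injEq, true_and] at hl
      have h1 := evenCol_inj_line e c r h2 hec he hc hk hr P Q d hl hcol
      exact Prod.ext h1 (by rw [h1] at hl; linear_combination hl)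

end test

/-- In characteristic two, over a field with more than four elements there is a good colouring. -/
theorem exists_good_even [Fintype F] [CharP F 2] (h4 : 4 < Fintype.card F) :
    ∃ col : F × F → Option F → Option F, Good col := by
  classical
  have h2 : (2 : F) = 0 := by
    have := CharP.cast_eq_zero F 2
    exact_mod_cast this
  have hsq : ∀ a b : F, a ^ 2 = b ^ 2 → a = b := by
    intro a b h
    have h1 : (a - b) ^ 2 = 0 := by linear_combination h - a * b * h2 + b ^ 2 * h2
    have h3 := pow_eq_zero_iff (two_ne_zero) |>.1 h1
    linear_combination h3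
  have hbij : Function.Bijective fun y : F => y ^ 2 :=
    Finite.injective_iff_bijective.1 fun a b h => hsq a b h
  let E : F ≃ F := Equiv.ofBijective _ hbij
  have hr : ∀ y, (E.symm y) ^ 2 = y := fun y => E.apply_symm_apply y
  -- the bad values of `e` are the roots of `X (X + 1) (X ^ 2 + X + 1)`
  let p : Polynomial F := Polynomial.X * (Polynomial.X + 1) * (Polynomial.X ^ 2 + Polynomial.X + 1)
  have hdeg : p.natDegree = 4 := by
    simp only [p]
    compute_degree!
  have hp : p ≠ 0 := by
    intro h
    rw [h] at hdeg
    simp at hdeg
  have : ∃ e : F, e ∉ p.roots.toFinset := by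
    by_contra hcon
    push Not at hcon
    have h1 : (Finset.univ : Finset F) ⊆ p.roots.toFinset := fun x _ => hcon x
    have h3 := Finset.card_le_card h1
    have h5 := p.roots.toFinset_card_le
    have h6 := p.card_roots'
    rw [Finset.card_univ] at h3
    omega
  obtain ⟨e, he⟩ := this
  rw [Multiset.mem_toFinset, Polynomial.mem_roots hp, Polynomial.IsRoot.def] at he
  simp only [p, Polynomial.eval_mul, Polynomial.eval_add, Polynomial.eval_pow, Polynomial.eval_X,
    Polynomial.eval_one, mul_eq_zero, not_or] at he
  refine ⟨evenCol e (1 + e) E.symm, evenCol_good e (1 + e) E.symm h2 ?_ he.1.1 ?_ ?_ hr⟩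
  · linear_combination e * h2
  · intro h
    exact he.1.2 (by linear_combination h)
  · intro h
    exact he.2 (by linear_combination h)

end Pool.Agent.Lib.MP_6fba53_co
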