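import Pool.Agent.Lib.MP_6fba53_co.Basic

set_option autoImplicit false

namespace Pool.Agent.Lib.MP_6fba53_co

variable {F : Type} [Field F] [DecidableEq F]

/-- The explicit colouring of the flags of the affine plane in odd characteristic. -/
def oddCol (P : F × F) : Option F → Option F
  | none => some (P.2 - P.1 ^ 2 / 2 - P.1)
  | some s =>
    if s = P.1 then none
    else if 2 * s = P.2 - P.1 ^ 2 / 2 then some P.1
    else some (2 * s - P.1)

theorem oddCol_good [Fintype F] (h2 : (2 : F) ≠ 0) : Good (oddCol (F := F)) := by
  have hne : ∀ P d, oddCol (F := F) P d ≠ d := by
    intro P d
    cases d with
    | none => simp [oddCol]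
    | some s =>
      simp only [oddCol]
      split_ifs with h1 h3
      · simp
      · intro h
        exact h1 (Option.some.inj h).symm
      · intro h
        apply h1
        have := Option.some.inj h
        linear_combination this
  refine ⟨?_, hne, ?_⟩
  · intro P
    rw [← Finite.injective_iff_bijective]
    have key : ∀ s : F, oddCol P none ≠ oddCol P (some s) := by
      intro s
      simp only [oddCol]
      split_ifs with h1 h3
      · simp
      · intro h
        apply h1
        have := Option.some.inj h
        have h4 : 2 * (s - P.1) = 0 := by linear_combination h3 + this
        have h5 := (mul_eq_zero.1 h4).resolve_left h2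
        linear_combination h5
      · intro h
        apply h3
        have := Option.some.inj h
        linear_combination -this
    intro d d' hd
    cases d with
    | none =>
      cases d' with
      | none => rfl
      | some s => exact absurd hd (key s)
    | some s =>
      cases d' with
      | none => exact absurd hd.symm (key s)
      | some s' =>
        congr 1
        simp only [oddCol] at hd
        split_ifs at hd with h1 h3 h4 h5 h6 h7 h8
        · rw [h1, h3]
        · have h9 : 2 * (s - s') = 0 := by linear_combination h5 - h7
          have h10 := (mul_eq_zero.1 h9).resolve_left h2
          linear_combination h10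
        · exfalso
          apply h6
          have := Option.some.inj hd
          have h9 : 2 * (s' - P.1) = 0 := by linear_combination -this
          have h10 := (mul_eq_zero.1 h9).resolve_left h2
          linear_combination h10
        · exfalso
          apply h1
          have := Option.some.inj hd
          have h9 : 2 * (s - P.1) = 0 := by linear_combination this
          have h10 := (mul_eq_zero.1 h9).resolve_left h2
          linear_combination h10
        · have := Option.some.inj hd
          have h9 : 2 * (s - s') = 0 := by linear_combination this
          have h10 := (mul_eq_zero.1 h9).resolve_left h2
          linear_combination h10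
  · intro P Q d hl hc
    cases d with
    | none =>
      simp only [line, Prod.mk.injEq, true_and] at hl
      simp only [oddCol, hl] at hc
      have := Option.some.inj hc
      exact Prod.ext hl (by linear_combination this)
    | some s =>
      simp only [line, Prod.mk.injEq, true_and] at hl
      have hxy : P.1 = Q.1 → P = Q := by
        intro h
        exact Prod.ext h (by rw [h] at hl; linear_combination hl)
      apply hxy
      simp only [oddCol] at hc
      split_ifs at hc with h1 h3 h4 h5 h6 h7 h8
      · rw [← h1, ← h3]
      · exact Option.some.inj hc
      · exfalso
        have hs : P.1 = 2 * s - Q.1 := Option.some.inj hc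
        apply h7
        field_simp
        have h5' : 2 * (2 * s) = 2 * P.2 - P.1 ^ 2 := by
          rw [h5]; field_simp
        linear_combination h5' + 2 * hl - (P.1 - Q.1) * hs
      · exfalso
        have hs : 2 * s - P.1 = Q.1 := Option.some.inj hc
        apply h5
        field_simp
        have h8' : 2 * (2 * s) = 2 * Q.2 - Q.1 ^ 2 := by
          rename_i h9
          rw [h9]; field_simp
        linear_combination h8' - 2 * hl - (P.1 - Q.1) * hs
      · have := Option.some.inj hc
        linear_combination -this

end Pool.Agent.Lib.MP_6fba53_co
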