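import Pool.Agent.Lib.MP_6fba53_co.PGThree
import Pool.Agent.Lib.MP_6fba53_co.Odd
import Pool.Agent.Lib.MP_6fba53_co.Even

set_option autoImplicit false

/-! # Dimension two: from colourings of the affine plane -/

namespace Pool.Agent.Lib.MP_6fba53_co.PG

section

variable {F : Type} [Field F] [DecidableEq F]

omit [DecidableEq F] in
theorem line_nrm (P : F × F) (d : Option F) :
    (line P d).2 = (nrm d).1 * P.1 + (nrm d).2 * P.2 := by
  cases d with
  | none => simp [line, nrm]
  | some s => simp only [line, nrm]; ring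

theorem two_good (col : F × F → Option F → Option F)
    (hcol : _root_.Pool.Agent.Lib.MP_6fba53_co.Good col) :
    ∃ H : (Fin 2 → F) → (Fin 2 → F) → (Fin 2 → F), CGood H := by
  let D : (Fin 2 → F) → (Fin 2 → F) → Option F := fun x p =>
    (Equiv.ofBijective (col (x 0, x 1)) (hcol.bij (x 0, x 1))).symm (slope (p 0) (p 1))
  have hD : ∀ x p, col (x 0, x 1) (D x p) = slope (p 0) (p 1) := fun x p =>
    (Equiv.ofBijective (col (x 0, x 1)) (hcol.bij (x 0, x 1))).apply_symm_apply _
  have huv : ∀ p : Fin 2 → F, p ≠ 0 → p 0 ≠ 0 ∨ p 1 ≠ 0 := by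
    intro p hp
    by_contra hcon
    push Not at hcon
    apply hp
    funext i
    fin_cases i
    · exact hcon.1
    · exact hcon.2
  have hdot : ∀ a b : Fin 2 → F, a ⬝ᵥ b = a 0 * b 0 + a 1 * b 1 := by
    intro a b
    simp [dotProduct, Fin.sum_univ_two]
  refine ⟨fun x p => ![(nrm (D x p)).1, (nrm (D x p)).2], ?_, ?_, ?_⟩
  · intro x p p' hp hp' m hm h
    have h0 := congrFun h 0
    have h1 := congrFun h 1
    simp only [Pi.smul_apply, smul_eq_mul, Matrix.cons_val_zero, Matrix.cons_val_one] at h0 h1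
    have h2 := nrm_inj _ _ m h0 h1
    have h3 : slope (p 0) (p 1) = slope (p' 0) (p' 1) := by rw [← hD x p, ← hD x p', h2]
    obtain ⟨l, hl0, hl1⟩ := slope_eq _ _ _ _ (huv p hp) (huv p' hp') h3
    refine ⟨l, ?_⟩
    funext i
    fin_cases i
    · exact hl0
    · exact hl1
  · intro x p hp
    rw [hdot]
    simp only [Matrix.cons_val_zero, Matrix.cons_val_one]
    intro h
    have h1 := (nrm_dot _ _ (huv p hp) _).1 h
    have h2 := hD x p
    rw [← h1] at h2
    exact hcol.ne _ _ h2
  · intro x x' p hp m hm h hxx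
    have h0 := congrFun h 0
    have h1 := congrFun h 1
    simp only [Pi.smul_apply, smul_eq_mul, Matrix.cons_val_zero, Matrix.cons_val_one] at h0 h1
    have h2 := nrm_inj _ _ m h0 h1
    rw [hdot, hdot] at hxx
    simp only [Matrix.cons_val_zero, Matrix.cons_val_one] at hxx
    have h3 : line (x 0, x 1) (D x p) = line (x' 0, x' 1) (D x p) := by
      refine Prod.ext (by rw [line_fst, line_fst]) ?_
      rw [line_nrm, line_nrm]
      exact hxx
    have h4 := hcol.inj (x 0, x 1) (x' 0, x' 1) (D x p) h3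
      ((hD x p).trans (by rw [h2]; exact (hD x' p).symm))
    rw [Prod.mk.injEq] at h4
    funext i
    fin_cases i
    · exact h4.1
    · exact h4.2

end

/-- The field with four elements, given by tables. -/
def F4 : Type := Fin 4

namespace F4

instance : DecidableEq F4 := inferInstanceAs (DecidableEq (Fin 4))
instance : Fintype F4 := inferInstanceAs (Fintype (Fin 4))

/-- Addition. -/
def add (a b : Fin 4) : Fin 4 :=
  (![![0, 1, 2, 3], ![1, 0, 3, 2], ![2, 3, 0, 1], ![3, 2, 1, 0]] : Fin 4 → Fin 4 → Fin 4) a b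

/-- Multiplication. -/
def mul (a b : Fin 4) : Fin 4 :=
  (![![0, 0, 0, 0], ![0, 1, 2, 3], ![0, 2, 3, 1], ![0, 3, 1, 2]] : Fin 4 → Fin 4 → Fin 4) a b

/-- Inverse. -/
def inv (a : Fin 4) : Fin 4 := (![0, 1, 3, 2] : Fin 4 → Fin 4) a

instance : Add F4 := ⟨add⟩
instance : Mul F4 := ⟨mul⟩
instance : Zero F4 := ⟨(0 : Fin 4)⟩
instance : One F4 := ⟨(1 : Fin 4)⟩
instance : Neg F4 := ⟨fun a => a⟩
instance : Inv F4 := ⟨inv⟩

instance : CommRing F4 where
  add_assoc := by decide
  zero_add := by decide
  add_zero := by decide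
  nsmul := nsmulRec
  zsmul := zsmulRec
  neg_add_cancel := by decide
  add_comm := by decide
  left_distrib := by decide
  right_distrib := by decide
  zero_mul := by decide
  mul_zero := by decide
  mul_assoc := by decide
  one_mul := by decide
  mul_one := by decide
  mul_comm := by decide

instance : Field F4 where
  inv := inv
  exists_pair_ne := ⟨0, 1, by decide⟩
  mul_inv_cancel := by decide
  inv_zero := rfl
  nnqsmul := _
  nnqsmul_def := fun _ _ => rfl
  qsmul := _
  qsmul_def := fun _ _ => rfl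

/-- A colouring of the affine plane of order four. -/
def tab : Fin 16 → Fin 5 → Fin 5 :=
  ![![1, 2, 0, 4, 3], ![2, 4, 0, 1, 3], ![4, 3, 1, 0, 2], ![3, 4, 1, 0, 2], ![2, 0, 1, 4, 3],
    ![4, 0, 1, 2, 3], ![3, 0, 4, 2, 1], ![1, 0, 3, 4, 2], ![1, 3, 0, 4, 2], ![4, 3, 0, 2, 1],
    ![3, 2, 4, 0, 1], ![2, 3, 4, 0, 1], ![1, 4, 3, 2, 0], ![3, 2, 4, 1, 0], ![2, 4, 3, 1, 0],
    ![4, 2, 3, 1, 0]]

/-- Directions as numbers. -/
def enc : Option F4 → Fin 5
  | none => 0
  | some s => Fin.succ (show Fin 4 from s)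

/-- Numbers as directions. -/
def dec (i : Fin 5) : Option F4 :=
  (![none, some (0 : Fin 4), some (1 : Fin 4), some (2 : Fin 4), some (3 : Fin 4)] :
    Fin 5 → Option F4) i

/-- Points as numbers. -/
def pnt (P : F4 × F4) : Fin 16 :=
  ⟨4 * (show Fin 4 from P.1).val + (show Fin 4 from P.2).val, by omega⟩

/-- The colouring. -/
def col (P : F4 × F4) (d : Option F4) : Option F4 := dec (tab (pnt P) (enc d))

theorem col_good : _root_.Pool.Agent.Lib.MP_6fba53_co.Good col where
  bij := by decide +kernel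
  ne := by decide +kernel
  inj := by decide +kernel

end F4

theorem exists_two (F : Type) [Field F] [Fintype F] (h3 : 3 ≤ Fintype.card F) :
    ∃ H : (Fin 2 → F) → (Fin 2 → F) → (Fin 2 → F), CGood H := by
  classical
  by_cases h2 : (2 : F) = 0
  · have : CharP F 2 := CharTwo.of_one_ne_zero_of_two_eq_zero one_ne_zero h2
    by_cases h4 : Fintype.card F = 4
    · obtain ⟨H, hH⟩ := two_good F4.col F4.col_good
      have e : F4 ≃+* F := FiniteField.ringEquivOfCardEq (by rw [h4]; rfl)
      exact ⟨_, hH.map e⟩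
    · have h5 : 4 < Fintype.card F := by
        have h6 : Fintype.card F ≠ 3 := by
          intro h
          obtain ⟨n, hn⟩ := FiniteField.card F 2
          rw [h] at hn
          have h7 : 2 ∣ 3 := by
            rw [hn.2]
            exact dvd_pow_self 2 n.ne_zero
          omega
        omega
      obtain ⟨col, hcol⟩ := exists_good_even (F := F) h5
      exact two_good col hcol
  · exact two_good oddCol (oddCol_good h2)

end Pool.Agent.Lib.MP_6fba53_co.PG
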