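import Pool.Agent.Lib.MP_6fba53_co.PGEven
import Pool.Agent.Lib.MP_6fba53_co.PGComp
import Pool.Agent.Lib.MP_6fba53_co.PGTwo
import Pool.Agent.Lib.MP_6fba53_co.PGSmall

set_option autoImplicit false

/-! # Assembly -/

namespace Pool.Agent.Lib.MP_6fba53_co.PG

/-- Over every field with `q` elements there is a family in dimension `d`. -/
def Has (q d : ℕ) : Prop :=
  ∀ (F : Type) [Field F] [Fintype F], Fintype.card F = q →
    ∃ (K : Type) (_ : Field K) (_ : Fintype K) (_ : Algebra F K),
      Module.finrank F K = d ∧ ∃ h : K → G F K → G F K, Good h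

/-- A finite field has an extension of every degree. -/
theorem exists_ext (F : Type) [Field F] [Fintype F] (d : ℕ) (hd : 0 < d) :
    ∃ (K : Type) (_ : Field K) (_ : Fintype K) (_ : Algebra F K), Module.finrank F K = d := by
  obtain ⟨p, hp⟩ := CharP.exists F
  have : Fact p.Prime := ⟨CharP.char_is_prime F p⟩
  have : NeZero d := ⟨hd.ne'⟩
  exact ⟨FiniteField.Extension F p d, inferInstance, Fintype.ofFinite _, inferInstance,
    FiniteField.finrank_extension F p d⟩

theorem has_of_coord (q d : ℕ) (hd : 0 < d)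
    (h : ∀ (F : Type) [Field F] [Fintype F], Fintype.card F = q →
      ∃ H : (Fin d → F) → (Fin d → F) → (Fin d → F), CGood H) : Has q d := by
  intro F _ _ hF
  obtain ⟨K, _, _, _, hfin⟩ := exists_ext F d hd
  obtain ⟨H, hH⟩ := h F hF
  exact ⟨K, inferInstance, inferInstance, inferInstance, hfin,
    hH.exists_good (Module.finBasisOfFinrankEq F K hfin)⟩

theorem has_one (q : ℕ) : Has q 1 := has_of_coord q 1 one_pos fun F _ _ _ => exists_one F

theorem has_two (q : ℕ) (hq : 3 ≤ q) : Has q 2 :=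
  has_of_coord q 2 two_pos fun F _ _ hF => exists_two F (by rw [hF]; exact hq)

theorem has_three (q : ℕ) : Has q 3 := has_of_coord q 3 (by norm_num) fun F _ _ _ => exists_three F

theorem has_two_four : Has 2 4 := has_of_coord 2 4 (by norm_num) fun F _ _ hF => exists_four_two F hF

theorem has_odd (q d : ℕ) (heven : Even q) (hodd : Odd d) : Has q d := by
  intro F _ _ hF
  obtain ⟨K, _, _, _, hfin⟩ := exists_ext F d hodd.pos
  have h2 : CharP F 2 := by
    obtain ⟨p, hp⟩ := CharP.exists F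
    obtain ⟨n, hp', hn⟩ := FiniteField.card F p
    rw [hF] at hn
    have h2 : 2 ∣ p := by
      refine Nat.prime_two.dvd_of_dvd_pow (n := (n : ℕ)) ?_
      rw [← hn]
      exact heven.two_dvd
    have h3 : 2 = p := (Nat.prime_dvd_prime_iff_eq Nat.prime_two hp').1 h2
    rw [h3]
    exact hp
  have hK2 : CharP K 2 := charP_of_injective_algebraMap (algebraMap F K).injective 2
  exact ⟨K, inferInstance, inferInstance, inferInstance, hfin,
    exists_good (F := F) (K := K) (by rw [hfin]; exact hodd)⟩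

theorem has_comp (q e s : ℕ) (h1 : Has q e) (h2 : Has (q ^ e) s) : Has q (e * s) := by
  intro F _ _ hF
  obtain ⟨L, _, _, _, hL, f1, H1⟩ := h1 F hF
  obtain ⟨K, _, _, _, hK, f2, H2⟩ := h2 L (by rw [card_K F L, hF, hL])
  let iA : Algebra F K := ((algebraMap L K).comp (algebraMap F L)).toAlgebra
  have iT : IsScalarTower F L K := IsScalarTower.of_algebraMap_eq fun _ => rfl
  refine ⟨K, inferInstance, inferInstance, iA, ?_, ?_⟩
  · rw [← hL, ← hK]
    exact (Module.finrank_mul_finrank F L K).symm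
  · exact comp_good H1 H2

theorem has_pow (s : ℕ) (P : ℕ → Prop) (hP : ∀ q n, P q → P (q ^ s ^ n))
    (h : ∀ q, P q → Has q s) : ∀ (n q : ℕ), P q → Has q (s ^ n) := by
  intro n
  induction n with
  | zero => intro q _; rw [pow_zero]; exact has_one q
  | succ n ih =>
    intro q hq
    rw [pow_succ]
    exact has_comp q _ _ (ih q hq) (h _ (hP q n hq))

theorem has_two_pow (n q : ℕ) (hq : 3 ≤ q) : Has q (2 ^ n) := by
  refine has_pow 2 (fun q => 3 ≤ q) ?_ (fun q hq => has_two q hq) n q hq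
  intro q n hq
  calc 3 ≤ q := hq
    _ ≤ q ^ 2 ^ n := Nat.le_self_pow (by positivity) q

theorem has_three_pow (n q : ℕ) : Has q (3 ^ n) :=
  has_pow 3 (fun _ => True) (fun _ _ _ => trivial) (fun q _ => has_three q) n q trivial

theorem has_two_three (q a b : ℕ) (hq : 3 ≤ q) : Has q (2 ^ a * 3 ^ b) :=
  has_comp q _ _ (has_two_pow a q hq) (has_three_pow b _)

theorem has_even (q d : ℕ) (heven : Even q) (hq : 2 ≤ q) (hd : 3 ≤ d) : Has q d := by
  obtain ⟨k, m, hm, rfl⟩ := Nat.exists_eq_two_pow_mul_odd (n := d) (by omega)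
  by_cases hq2 : q = 2
  · subst hq2
    by_cases hm1 : m = 1
    · subst hm1
      rw [mul_one] at hd ⊢
      have hk : 2 ≤ k := by
        by_contra hcon
        have : k = 0 ∨ k = 1 := by omega
        rcases this with rfl | rfl <;> norm_num at hd
      obtain ⟨j, rfl⟩ := Nat.exists_eq_add_of_le hk
      rw [pow_add]
      exact has_comp 2 _ _ has_two_four (has_two_pow j _ (by norm_num))
    · have h3 : 3 ≤ m := by
        obtain ⟨j, rfl⟩ := hm
        omega
      rw [mul_comm]
      refine has_comp 2 _ _ (has_odd 2 m heven hm) (has_two_pow k _ ?_)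
      calc 3 ≤ 2 ^ 3 := by norm_num
        _ ≤ 2 ^ m := Nat.pow_le_pow_right (by norm_num) h3
  · have h3 : 3 ≤ q := by omega
    refine has_comp q _ _ (has_two_pow k q h3) (has_odd _ m ?_ hm)
    exact heven.pow_of_ne_zero (by positivity)

theorem arrays_of_good {F K : Type} [Field F] [Field K] [Algebra F K] [Fintype F] [Fintype K]
    (q d : ℕ) (hF : Fintype.card F = q) (hfin : Module.finrank F K = d) (hd : 2 ≤ d)
    {h : K → G F K → G F K} (H : Good h) :
    (∃ A : Fin (∑ i ∈ Finset.range d, q ^ i) → Fin (q ^ d) →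
        Fin (∑ i ∈ Finset.range d, q ^ i + q ^ d - 1),
      IsTripleArray A (q ^ (d - 1)) (q ^ (d - 1) * (q - 1))
        (∑ i ∈ Finset.range (d - 1), q ^ i) (q ^ (d - 1))) ∧
    (∃ A : Fin (q ^ d) → Fin (∑ i ∈ Finset.range d, q ^ i) →
        Fin (q ^ d + ∑ i ∈ Finset.range d, q ^ i - 1),
      IsTripleArray A (q ^ (d - 1)) (∑ i ∈ Finset.range (d - 1), q ^ i)
        (q ^ (d - 1) * (q - 1)) (q ^ (d - 1))) := by
  classical
  have hT := isTripleArray H (by rw [hfin]; exact hd)
  have hG : Fintype.card (G F K) = ∑ i ∈ Finset.range d, q ^ i := by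
    rw [card_G, hfin, hF]; rfl
  have hK : Fintype.card K = q ^ d := by
    rw [card_K F K, hfin, hF]
  rw [hfin, hF] at hT
  have hS : Fintype.card (G F K × F) = ∑ i ∈ Finset.range d, q ^ i + q ^ d - 1 := by
    rw [Fintype.card_prod, hG, hF, ← Finset.sum_range_succ, Finset.sum_range_succ', pow_zero,
      Nat.add_sub_cancel, Finset.sum_mul]
    exact Finset.sum_congr rfl fun i _ => (pow_succ _ _).symm
  have hS' : Fintype.card (G F K × F) = q ^ d + ∑ i ∈ Finset.range d, q ^ i - 1 := by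
    rw [hS, add_comm]
  let eR : Fin (∑ i ∈ Finset.range d, q ^ i) ≃ G F K :=
    (Fintype.equivFinOfCardEq hG).symm
  let eC : Fin (q ^ d) ≃ K := (Fintype.equivFinOfCardEq hK).symm
  exact ⟨⟨_, hT.transport eR eC (Fintype.equivFinOfCardEq hS)⟩,
    ⟨_, (hT.transpose).transport eC eR (Fintype.equivFinOfCardEq hS')⟩⟩

theorem arrays_of_has (q d : ℕ) (hq : IsPrimePow q) (hd : 2 ≤ d) (hH : Has q d) :
    (∃ A : Fin (∑ i ∈ Finset.range d, q ^ i) → Fin (q ^ d) →
        Fin (∑ i ∈ Finset.range d, q ^ i + q ^ d - 1),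
      IsTripleArray A (q ^ (d - 1)) (q ^ (d - 1) * (q - 1))
        (∑ i ∈ Finset.range (d - 1), q ^ i) (q ^ (d - 1))) ∧
    (∃ A : Fin (q ^ d) → Fin (∑ i ∈ Finset.range d, q ^ i) →
        Fin (q ^ d + ∑ i ∈ Finset.range d, q ^ i - 1),
      IsTripleArray A (q ^ (d - 1)) (∑ i ∈ Finset.range (d - 1), q ^ i)
        (q ^ (d - 1) * (q - 1)) (q ^ (d - 1))) := by
  obtain ⟨p, s, hp, hs, hps⟩ := (isPrimePow_nat_iff q).1 hq
  have : Fact p.Prime := ⟨hp⟩
  have : Fintype (GaloisField p s) := Fintype.ofFinite _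
  have hF : Fintype.card (GaloisField p s) = q := by
    rw [← Nat.card_eq_fintype_card, GaloisField.card p s hs.ne', hps]
  obtain ⟨K, _, _, _, hfin, h, H⟩ := hH (GaloisField p s) hF
  exact arrays_of_good q d hF hfin hd H

end Pool.Agent.Lib.MP_6fba53_co.PG
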