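import Pool.Agent.Lib.MP_6fba53_co.Spence
import Pool.Agent.Lib.MP_6fba53_co.PGHas

set_option autoImplicit false

/-! # Affine spaces and Hadamard matrices as affine resolvable designs -/

namespace Pool.Agent.Lib.MP_6fba53_co

open Finset

theorem Aff.reindex {E I I' : Type} [Fintype E] [Fintype I] [Fintype I'] {m mu l : ℕ}
    {cls : I → E → Fin m} (H : Aff m mu l cls) (e : I' ≃ I) :
    Aff m mu l fun i => cls (e i) where
  block i c := H.block (e i) c
  meet i j hij c d := H.meet (e i) (e j) (fun h => hij (e.injective h)) c d
  pair a b hab := by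
    classical
    rw [← H.pair a b hab]
    refine Finset.card_bij (fun i _ => e i) ?_ ?_ ?_
    · intro i hi
      simpa using hi
    · intro i _ j _ h
      exact e.injective h
    · intro i hi
      exact ⟨e.symm i, by simpa using hi, by simp⟩
  bose := by rw [H.bose, Fintype.card_congr e]

namespace PG

section

variable {F K : Type} [Field F] [Field K] [Algebra F K] [Fintype F] [Fintype K]

open Classical in
theorem card_fib {V : Type} [AddCommGroup V] [Module F V] [Fintype V] (f : K →ₗ[F] V)
    (hf : Function.Surjective f) (v : V) :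
    ((univ : Finset K).filter fun x => f x = v).card * Fintype.card V = Fintype.card K := by
  rw [← card_ker f hf]
  congr 1
  obtain ⟨x0, hx0⟩ := hf v
  refine Finset.card_bij (fun x _ => x - x0) ?_ ?_ ?_
  · intro x hx
    simp only [mem_filter, mem_univ, true_and] at hx ⊢
    rw [map_sub, hx, hx0, sub_self]
  · intro x _ y _ h
    exact sub_left_injective h
  · intro x hx
    simp only [mem_filter, mem_univ, true_and] at hx
    exact ⟨x + x0, by simp [hx, hx0], by simp⟩

/-- The affine space as an affine resolvable design. -/
theorem aff_space (n : ℕ) (hn : Module.finrank F K = n + 2) (e : F ≃ Fin (Fintype.card F)) :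
    Aff (Fintype.card F) (Fintype.card F ^ n) (th (Fintype.card F) (n + 1))
      (fun (a : G F K) (x : K) => e (tr (rp a * x))) where
  block := by
    classical
    intro a c
    have h := card_fib (fn (F := F) (rp a)) (fn_surj _ (rp_ne a)) (e.symm c)
    rw [card_K F K, hn, pow_add, pow_two, ← mul_assoc] at h
    have h2 := card_F_ge (F := F)
    have h3 := Nat.eq_of_mul_eq_mul_right (by omega) h
    rw [← h3]
    congr 1
    ext x
    simp only [mem_filter, mem_univ, true_and]
    rw [fn_apply, mul_comm, Equiv.eq_symm_apply]
  meet := by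
    classical
    intro a b hab c d
    have h := card_fib ((fn (F := F) (rp a)).prod (fn (F := F) (rp b))) (pair_surj a b hab)
      (e.symm c, e.symm d)
    rw [card_K F K, hn, pow_add, pow_two, Fintype.card_prod] at h
    have h2 := card_F_ge (F := F)
    have h3 := Nat.eq_of_mul_eq_mul_right (by positivity) h
    rw [← h3]
    congr 1
    ext x
    simp only [mem_filter, mem_univ, true_and]
    change _ ↔ ((fn _ x : F), (fn _ x : F)) = _
    rw [fn_apply, fn_apply, mul_comm x, mul_comm x, Prod.mk.injEq, Equiv.eq_symm_apply,
      Equiv.eq_symm_apply]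
  pair := by
    classical
    intro x y hxy
    have hy : x - y ≠ 0 := sub_ne_zero.2 hxy
    have h := card_one (F := F) (K := K) (cl (Units.mk0 _ hy))
    rw [hn] at h
    rw [show n + 1 = n + 2 - 1 from rfl, ← h]
    congr 1
    ext a
    simp only [mem_filter, mem_univ, true_and]
    rw [tz_mul_cl, Units.val_mk0, e.apply_eq_iff_eq, mul_sub]
    unfold tr
    rw [map_sub, sub_eq_zero]
  bose := by
    rw [card_G, hn]
    unfold th
    rw [Finset.mul_sum, Finset.sum_range_succ' _ (n + 1), pow_zero]
    congr 1
    exact Finset.sum_congr rfl fun i _ => by rw [pow_succ, mul_comm]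

end

/-- For a prime power `q` and `n ≥ 2` the affine space of dimension `n` over the field with `q`
elements, as an affine resolvable design. -/
theorem exists_aff (q n : ℕ) (hq : IsPrimePow q) (hn : 2 ≤ n) :
    ∃ (E I : Type) (_ : Fintype E) (_ : Fintype I) (cls : I → E → Fin q),
      Aff q (q ^ (n - 2)) (∑ i ∈ Finset.range (n - 1), q ^ i) cls ∧
        Fintype.card I = ∑ i ∈ Finset.range n, q ^ i := by
  obtain ⟨p, s, hp, hs, hps⟩ := (isPrimePow_nat_iff q).1 hq
  have : Fact p.Prime := ⟨hp⟩
  have : Fintype (GaloisField p s) := Fintype.ofFinite _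
  have hF : Fintype.card (GaloisField p s) = q := by
    rw [← Nat.card_eq_fintype_card, GaloisField.card p s hs.ne', hps]
  obtain ⟨K, _, _, _, hfin⟩ := exists_ext (GaloisField p s) n (by omega)
  have h1 := aff_space (F := GaloisField p s) (K := K) (n - 2) (by rw [hfin]; omega)
    (Fintype.equivFin _)
  have h2 := card_G (F := GaloisField p s) (K := K)
  revert h1 h2
  generalize hcl : (fun (a : G (GaloisField p s) K) (x : K) =>
    (Fintype.equivFin (GaloisField p s)) (tr (rp a * x))) = cls0
  clear hcl
  revert cls0
  rw [hF, hfin, show n - 2 + 1 = n - 1 by omega]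
  intro cls0 h1 h2
  exact ⟨K, G (GaloisField p s) K, inferInstance, inferInstance, cls0, h1, h2⟩

end PG

end Pool.Agent.Lib.MP_6fba53_co
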