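import Mathlib

set_option autoImplicit false

namespace Pool.Agent.Lib.MP_6fba53_co

/-- `A` is a triple array (rows `R`, columns `C`, symbols `S`): no symbol is repeated in a row or in
a column, every symbol occurs `k` times, two distinct rows have `lrr` common symbols, two distinct
columns have `lcc` common symbols, and a row and a column have `lrc` common symbols. -/
structure IsTripleArray {R C S : Type} [Fintype R] [Fintype C] [DecidableEq S]
    (A : R → C → S) (k lrr lcc lrc : ℕ) : Prop where
  row_inj : ∀ i, Function.Injective (A i)
  col_inj : ∀ j, Function.Injective fun i => A i j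
  symb : ∀ s, (Finset.univ.filter fun p : R × C => A p.1 p.2 = s).card = k
  rr : ∀ i i', i ≠ i' → (Finset.univ.image (A i) ∩ Finset.univ.image (A i')).card = lrr
  cc : ∀ j j', j ≠ j' →
    (Finset.univ.image (fun i => A i j) ∩ Finset.univ.image (fun i => A i j')).card = lcc
  rc : ∀ i j, (Finset.univ.image (A i) ∩ Finset.univ.image (fun i' => A i' j)).card = lrc

section transport

variable {R C S R' C' S' : Type} [Fintype R] [Fintype C] [DecidableEq S]
  [Fintype R'] [Fintype C'] [DecidableEq S']

theorem image_equiv (f : R → S) (e : R' ≃ R) (g : S ≃ S') :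
    Finset.univ.image (fun i => g (f (e i))) = (Finset.univ.image f).map g.toEmbedding := by
  ext s
  simp only [Finset.mem_image, Finset.mem_univ, true_and, Finset.mem_map, Equiv.coe_toEmbedding,
    exists_exists_eq_and]
  constructor
  · rintro ⟨a, rfl⟩
    exact ⟨e a, rfl⟩
  · rintro ⟨a, rfl⟩
    exact ⟨e.symm a, by simp⟩

theorem IsTripleArray.transport {A : R → C → S} {k lrr lcc lrc : ℕ}
    (h : IsTripleArray A k lrr lcc lrc) (eR : R' ≃ R) (eC : C' ≃ C) (eS : S ≃ S') :
    IsTripleArray (fun i j => eS (A (eR i) (eC j))) k lrr lcc lrc where
  row_inj i a b hab := by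
    have := h.row_inj (eR i) (eS.injective hab)
    exact eC.injective this
  col_inj j a b hab := by
    have := h.col_inj (eC j) (eS.injective hab)
    exact eR.injective this
  symb s := by
    rw [← h.symb (eS.symm s)]
    refine Finset.card_bij (fun p _ => (eR p.1, eC p.2)) ?_ ?_ ?_
    · intro p hp
      simp only [Finset.mem_filter, Finset.mem_univ, true_and] at hp ⊢
      rw [← hp]; simp
    · intro p _ p' _ hpp
      simp only [Prod.mk.injEq, EmbeddingLike.apply_eq_iff_eq] at hpp
      exact Prod.ext hpp.1 hpp.2
    · intro p hp
      simp only [Finset.mem_filter, Finset.mem_univ, true_and] at hp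
      refine ⟨(eR.symm p.1, eC.symm p.2), ?_, by simp⟩
      simp [hp]
  rr i i' hi := by
    rw [image_equiv (A (eR i)) eC eS, image_equiv (A (eR i')) eC eS, ← Finset.map_inter,
      Finset.card_map]
    exact h.rr _ _ (fun he => hi (eR.injective he))
  cc j j' hj := by
    rw [image_equiv (fun i => A i (eC j)) eR eS, image_equiv (fun i => A i (eC j')) eR eS,
      ← Finset.map_inter, Finset.card_map]
    exact h.cc _ _ (fun he => hj (eC.injective he))
  rc i j := by
    rw [image_equiv (A (eR i)) eC eS, image_equiv (fun i => A i (eC j)) eR eS,
      ← Finset.map_inter, Finset.card_map]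
    exact h.rc _ _

theorem IsTripleArray.transpose {A : R → C → S} {k lrr lcc lrc : ℕ}
    (h : IsTripleArray A k lrr lcc lrc) :
    IsTripleArray (fun j i => A i j) k lcc lrr lrc where
  row_inj := h.col_inj
  col_inj := h.row_inj
  symb s := by
    rw [← h.symb s]
    refine Finset.card_bij (fun p _ => (p.2, p.1)) ?_ ?_ ?_
    · intro p hp
      simpa using hp
    · intro p _ p' _ hpp
      simp only [Prod.mk.injEq] at hpp
      exact Prod.ext hpp.2 hpp.1
    · intro p hp
      exact ⟨(p.2, p.1), by simpa using hp, by simp⟩
  rr := h.cc
  cc := h.rr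
  rc i j := by
    rw [Finset.inter_comm]
    exact h.rc j i

end transport

section plane

variable {F : Type} [Field F] [Fintype F] [DecidableEq F]

/-- The line of direction `d` through the point `P` of the affine plane over `F`
(`none` is the vertical direction, `some s` is the slope `s`). -/
def line (P : F × F) : Option F → Option F × F
  | none => (none, P.1)
  | some s => (some s, P.2 - s * P.1)

omit [Fintype F] [DecidableEq F] in
@[simp] theorem line_fst (P : F × F) (d : Option F) : (line P d).1 = d := by
  cases d <;> rfl

/-- A good colouring of the flags of the affine plane by the directions. -/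
structure Good (col : F × F → Option F → Option F) : Prop where
  bij : ∀ P, Function.Bijective (col P)
  ne : ∀ P d, col P d ≠ d
  inj : ∀ P Q d, line P d = line Q d → col P d = col Q d → P = Q

omit [Fintype F] in
theorem exists_unique_dir (P Q : F × F) (h : P ≠ Q) :
    ∃ d, line P d = line Q d ∧ ∀ d', line P d' = line Q d' → d' = d := by
  by_cases hx : P.1 = Q.1
  · refine ⟨none, by simp [line, hx], ?_⟩
    intro d' hd
    cases d' with
    | none => rfl
    | some s =>
      exfalso
      simp only [line, Prod.mk.injEq, true_and, hx] at hd
      exact h (Prod.ext hx (by linear_combination hd))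
  · have hne : P.1 - Q.1 ≠ 0 := sub_ne_zero.2 hx
    refine ⟨some ((P.2 - Q.2) / (P.1 - Q.1)), ?_, ?_⟩
    · simp only [line, Prod.mk.injEq, true_and]
      field_simp
      ring
    · intro d' hd
      cases d' with
      | none => exact absurd (by simpa [line] using hd) hx
      | some s =>
        simp only [line, Prod.mk.injEq, true_and] at hd
        congr 1
        rw [eq_div_iff hne]
        linear_combination -hd

theorem card_line (L : Option F × F) :
    (Finset.univ.filter fun P : F × F => line P L.1 = L).card = Fintype.card F := by
  rw [← Finset.card_univ]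
  symm
  obtain ⟨d, b⟩ := L
  cases d with
  | none =>
    refine Finset.card_bij (fun y _ => (b, y)) ?_ ?_ ?_
    · intro y _; simp [line]
    · intro y _ y' _ h; simpa using h
    · intro P hP
      simp only [Finset.mem_filter, Finset.mem_univ, true_and, line, Prod.mk.injEq] at hP
      exact ⟨P.2, Finset.mem_univ _, by rw [← hP]⟩
  | some s =>
    refine Finset.card_bij (fun x _ => (x, b + s * x)) ?_ ?_ ?_
    · intro y _; simp [line]
    · intro y _ y' _ h
      simp only [Prod.mk.injEq] at h
      exact h.1
    · intro P hP
      simp only [Finset.mem_filter, Finset.mem_univ, true_and, line, Prod.mk.injEq] at hP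
      exact ⟨P.1, Finset.mem_univ _, by rw [← hP]; ext <;> simp⟩

/-- The array given by a good colouring: the cell in row `t` and column `P` contains the line
through `P` which has colour `t` at `P`. -/
noncomputable def arr (col : F × F → Option F → Option F) (h : Good col)
    (t : Option F) (P : F × F) : Option F × F :=
  line P ((Equiv.ofBijective (col P) (h.bij P)).symm t)

omit [Fintype F] [DecidableEq F] in
theorem arr_eq_iff (col : F × F → Option F → Option F) (h : Good col) (t : Option F) (P : F × F)
    (L : Option F × F) : arr col h t P = L ↔ line P L.1 = L ∧ col P L.1 = t := by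
  unfold arr
  constructor
  · intro hL
    have h1 : (Equiv.ofBijective (col P) (h.bij P)).symm t = L.1 := by
      rw [← hL]; simp
    refine ⟨?_, ?_⟩
    · rw [h1] at hL; exact hL
    · rw [Equiv.symm_apply_eq] at h1
      exact h1.symm
  · rintro ⟨h1, h2⟩
    have : (Equiv.ofBijective (col P) (h.bij P)).symm t = L.1 := by
      rw [Equiv.symm_apply_eq]; exact h2.symm
    rw [this]; exact h1

theorem isTripleArray_arr (col : F × F → Option F → Option F) (h : Good col) :
    IsTripleArray (arr col h) (Fintype.card F) (Fintype.card F * (Fintype.card F - 1)) 1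
      (Fintype.card F) := by
  classical
  have hrow : ∀ t, Function.Injective (arr col h t) := by
    intro t P Q hPQ
    have h1 := (arr_eq_iff col h t P (arr col h t P)).1 rfl
    have h2 := (arr_eq_iff col h t Q (arr col h t P)).1 hPQ.symm
    exact h.inj P Q _ (h1.1.trans h2.1.symm) (h1.2.trans h2.2.symm)
  have hcol : ∀ P, Function.Injective fun t => arr col h t P := by
    intro P t t' htt
    have h1 := (arr_eq_iff col h t P (arr col h t P)).1 rfl
    have h2 := (arr_eq_iff col h t' P (arr col h t P)).1 htt.symm
    exact h1.2.symm.trans h2.2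
  have himr : ∀ t, Finset.univ.image (arr col h t) = Finset.univ.filter fun L => L.1 ≠ t := by
    intro t
    apply Finset.eq_of_subset_of_card_le
    · intro L hL
      simp only [Finset.mem_image, Finset.mem_univ, true_and] at hL
      obtain ⟨P, hP⟩ := hL
      rw [arr_eq_iff] at hP
      simp only [Finset.mem_filter, Finset.mem_univ, true_and]
      intro he
      exact h.ne P L.1 (hP.2.trans he.symm)
    · rw [Finset.card_image_of_injective _ (hrow t), Finset.card_univ]
      have : (Finset.univ.filter fun L : Option F × F => L.1 ≠ t)
          = (Finset.univ.filter fun d : Option F => d ≠ t) ×ˢ (Finset.univ : Finset F) := by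
        ext L; simp
      rw [this, Finset.card_product, Finset.filter_ne', Finset.card_erase_of_mem (Finset.mem_univ _),
        Finset.card_univ, Finset.card_univ, Fintype.card_option]
      simp
  have himc : ∀ P, Finset.univ.image (fun t => arr col h t P)
      = Finset.univ.filter fun L => line P L.1 = L := by
    intro P
    ext L
    simp only [Finset.mem_image, Finset.mem_univ, true_and, Finset.mem_filter]
    constructor
    · rintro ⟨t, ht⟩
      exact ((arr_eq_iff col h t P L).1 ht).1
    · intro hL
      exact ⟨col P L.1, (arr_eq_iff col h _ P L).2 ⟨hL, rfl⟩⟩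
  refine ⟨hrow, hcol, ?_, ?_, ?_, ?_⟩
  · intro L
    rw [← card_line L]
    refine Finset.card_bij (fun p _ => p.2) ?_ ?_ ?_
    · intro p hp
      simp only [Finset.mem_filter, Finset.mem_univ, true_and] at hp ⊢
      exact ((arr_eq_iff col h _ _ _).1 hp).1
    · intro p hp p' hp' hpp
      simp only [Finset.mem_filter, Finset.mem_univ, true_and] at hp hp'
      have h1 := ((arr_eq_iff col h _ _ _).1 hp).2
      have h2 := ((arr_eq_iff col h _ _ _).1 hp').2
      refine Prod.ext ?_ hpp
      rw [← h1, ← h2, hpp]
    · intro P hP
      simp only [Finset.mem_filter, Finset.mem_univ, true_and] at hP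
      refine ⟨(col P L.1, P), ?_, rfl⟩
      simp only [Finset.mem_filter, Finset.mem_univ, true_and]
      exact (arr_eq_iff col h _ _ _).2 ⟨hP, rfl⟩
  · intro t t' htt
    rw [himr, himr]
    have : (Finset.univ.filter fun L : Option F × F => L.1 ≠ t)
        ∩ (Finset.univ.filter fun L : Option F × F => L.1 ≠ t')
          = ((Finset.univ.erase t).erase t') ×ˢ (Finset.univ : Finset F) := by
      ext L; simp [and_comm]
    rw [this, Finset.card_product, Finset.card_erase_of_mem, Finset.card_erase_of_mem
      (Finset.mem_univ _), Finset.card_univ, Finset.card_univ, Fintype.card_option, mul_comm]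
    · simp
    · simp [htt.symm]
  · intro P Q hPQ
    rw [himc, himc]
    obtain ⟨d, hd, hd'⟩ := exists_unique_dir P Q hPQ
    rw [Finset.card_eq_one]
    refine ⟨line P d, ?_⟩
    ext L
    simp only [Finset.mem_inter, Finset.mem_filter, Finset.mem_univ, true_and,
      Finset.mem_singleton]
    constructor
    · rintro ⟨h1, h2⟩
      have := hd' L.1 (h1.trans h2.symm)
      rw [← this]; exact h1.symm
    · rintro rfl
      constructor
      · simp
      · rw [line_fst]; exact hd.symm
  · intro t P
    rw [himr, himc]
    have : (Finset.univ.filter fun L : Option F × F => L.1 ≠ t)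
        ∩ (Finset.univ.filter fun L : Option F × F => line P L.1 = L)
          = (Finset.univ.erase t).image (line P) := by
      ext L
      simp only [Finset.mem_inter, Finset.mem_filter, Finset.mem_univ, true_and,
        Finset.mem_image, Finset.mem_erase]
      constructor
      · rintro ⟨h1, h2⟩
        exact ⟨L.1, ⟨h1, trivial⟩, h2⟩
      · rintro ⟨d, ⟨h1, _⟩, rfl⟩
        simp [h1]
    rw [this, Finset.card_image_of_injective, Finset.card_erase_of_mem (Finset.mem_univ _),
      Finset.card_univ, Fintype.card_option]
    · simp
    · intro d d' hdd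
      have := congrArg Prod.fst hdd
      simpa using this

/-- From a good colouring of the affine plane over a field with `q` elements, the two triple arrays
with rows and columns indexed by `Fin`. -/
theorem exists_arrays (col : F × F → Option F → Option F) (h : Good col) (q : ℕ)
    (hq : Fintype.card F = q) :
    (∃ A : Fin (q + 1) → Fin (q ^ 2) → Fin (q + 1 + q ^ 2 - 1),
      IsTripleArray A q (q * (q - 1)) 1 q) ∧
    (∃ A : Fin (q ^ 2) → Fin (q + 1) → Fin (q ^ 2 + (q + 1) - 1),
      IsTripleArray A q 1 (q * (q - 1)) q) := by
  have h1 := isTripleArray_arr col h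
  rw [hq] at h1
  have eR : Fin (q + 1) ≃ Option F := by
    refine Fintype.equivOfCardEq ?_
    simp [hq]
  have eC : Fin (q ^ 2) ≃ F × F := by
    refine Fintype.equivOfCardEq ?_
    simp [hq, sq]
  have eS : Option F × F ≃ Fin (q + 1 + q ^ 2 - 1) := by
    refine Fintype.equivOfCardEq ?_
    simp only [Fintype.card_prod, Fintype.card_option, hq, Fintype.card_fin]
    have : q + 1 + q ^ 2 - 1 = q ^ 2 + q := by omega
    rw [this]; ring
  have eS' : Option F × F ≃ Fin (q ^ 2 + (q + 1) - 1) := by
    refine Fintype.equivOfCardEq ?_
    simp only [Fintype.card_prod, Fintype.card_option, hq, Fintype.card_fin]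
    have : q ^ 2 + (q + 1) - 1 = q ^ 2 + q := by omega
    rw [this]; ring
  exact ⟨⟨_, h1.transport eR eC eS⟩, ⟨_, h1.transpose.transport eC eR eS'⟩⟩

end plane

end Pool.Agent.Lib.MP_6fba53_co
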