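import Pool.Agent.Lib.MP_6fba53_co.Basic

set_option autoImplicit false

namespace Pool.Agent.Lib.MP_6fba53_co

/-- A triple array with 5 rows, 16 columns and 20 symbols. -/
def arr4 : Fin 5 → Fin 16 → Fin 20 :=
  ![![16, 13, 10, 11, 15, 14, 17, 12, 18, 7, 9, 8, 19, 6, 5, 4],
    ![12, 1, 14, 16, 17, 11, 8, 9, 13, 18, 15, 3, 0, 19, 2, 10],
    ![0, 16, 2, 15, 5, 4, 13, 17, 6, 12, 18, 14, 7, 1, 19, 3],
    ![4, 5, 16, 3, 10, 17, 7, 6, 0, 1, 2, 18, 9, 8, 11, 19],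
    ![8, 9, 6, 7, 0, 1, 2, 3, 11, 10, 4, 5, 14, 15, 12, 13]]

set_option maxRecDepth 100000

theorem isTripleArray_arr4 : IsTripleArray arr4 4 12 1 4 := by
  refine ⟨?_, ?_, ?_, ?_, ?_, ?_⟩
  · decide +kernel
  · decide +kernel
  · decide +kernel
  · decide +kernel
  · decide +kernel
  · decide +kernel

end Pool.Agent.Lib.MP_6fba53_co
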