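import Pool.Agent.Lib.MP_6fba53_co.Spence

set_option autoImplicit false

/-! # Hadamard matrices as affine resolvable designs -/

namespace Pool.Agent.Lib.MP_6fba53_co

open Finset Matrix

theorem int_unitary (x : ℤ) (h : x ∈ unitary ℤ) : x = 1 ∨ x = -1 := by
  rw [Unitary.mem_iff] at h
  have h1 : x * x = 1 := by simpa using h.1
  exact mul_self_eq_one_iff.1 h1

theorem sgn_iff (a b c d : ℤ) (ha : a = 1 ∨ a = -1) (hb : b = 1 ∨ b = -1) (hc : c = 1 ∨ c = -1)
    (hd : d = 1 ∨ d = -1) : (if a * c = 1 then (0 : Fin 2) else 1) =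
      (if b * d = 1 then (0 : Fin 2) else 1) ↔ a * b = c * d := by
  rcases ha with rfl | rfl <;> rcases hb with rfl | rfl <;> rcases hc with rfl | rfl <;>
    rcases hd with rfl | rfl <;> simp

/-- The count of the places where `f = s`, for a function with values `1` and `-1`. -/
theorem count_one {α : Type} [Fintype α] (f : α → ℤ) (hf : ∀ a, f a = 1 ∨ f a = -1) (s : ℤ)
    (hs : s = 1 ∨ s = -1) :
    2 * ((univ.filter fun a => f a = s).card : ℤ) = Fintype.card α + s * ∑ a, f a := by
  have h1 : ((univ.filter fun a => f a = s).card : ℤ) = ∑ a, if f a = s then (1 : ℤ) else 0 := by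
    simp
  have h2 : (Fintype.card α : ℤ) = ∑ _a : α, (1 : ℤ) := by simp
  rw [h1, h2, Finset.mul_sum, Finset.mul_sum, ← Finset.sum_add_distrib]
  refine Finset.sum_congr rfl fun a _ => ?_
  rcases hf a with h | h <;> rcases hs with h' | h' <;> rw [h, h'] <;> norm_num

theorem count_two {α : Type} [Fintype α] (f g : α → ℤ) (hf : ∀ a, f a = 1 ∨ f a = -1)
    (hg : ∀ a, g a = 1 ∨ g a = -1) (s t : ℤ) (hs : s = 1 ∨ s = -1) (ht : t = 1 ∨ t = -1) :
    4 * ((univ.filter fun a => f a = s ∧ g a = t).card : ℤ) =
      Fintype.card α + s * ∑ a, f a + t * ∑ a, g a + s * t * ∑ a, f a * g a := by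
  have h1 : ((univ.filter fun a => f a = s ∧ g a = t).card : ℤ) =
      ∑ a, if f a = s ∧ g a = t then (1 : ℤ) else 0 := by
    simp
  have h2 : (Fintype.card α : ℤ) = ∑ _a : α, (1 : ℤ) := by simp
  rw [h1, h2, Finset.mul_sum, Finset.mul_sum, Finset.mul_sum, Finset.mul_sum,
    ← Finset.sum_add_distrib, ← Finset.sum_add_distrib, ← Finset.sum_add_distrib]
  refine Finset.sum_congr rfl fun a _ => ?_
  rcases hf a with h | h <;> rcases hs with h' | h' <;> rcases hg a with h'' | h'' <;>
    rcases ht with h''' | h''' <;> rw [h, h', h'', h'''] <;> norm_num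

theorem had_row {n : ℕ} {A : Matrix (Fin n) (Fin n) ℤ} (hA : A.IsHadamard) (i j : Fin n)
    (h : i ≠ j) : ∑ e, A i e * A j e = 0 := by
  have h1 := congrFun (congrFun hA.mul_conjTranspose i) j
  rw [Matrix.mul_apply] at h1
  simp only [Matrix.conjTranspose_apply, Matrix.smul_apply, Matrix.one_apply_ne h, smul_zero,
    star_trivial] at h1
  exact h1

theorem had_col {n : ℕ} {A : Matrix (Fin n) (Fin n) ℤ} (hA : A.IsHadamard) (i j : Fin n)
    (h : i ≠ j) : ∑ e, A e i * A e j = 0 := by
  have h1 := congrFun (congrFun hA.conjTranspose_mul i) j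
  rw [Matrix.mul_apply] at h1
  simp only [Matrix.conjTranspose_apply, Matrix.smul_apply, Matrix.one_apply_ne h, smul_zero,
    star_trivial] at h1
  exact h1

/-- The affine resolvable design of a Hadamard matrix. -/
theorem had_aff {n : ℕ} (hn : 0 < n) (A : Matrix (Fin (4 * n)) (Fin (4 * n)) ℤ)
    (hA : A.IsHadamard) :
    Aff 2 n (2 * n - 1) (fun (i : {i : Fin (4 * n) // i ≠ ⟨0, by omega⟩}) (e : Fin (4 * n)) =>
      if A i.1 e * A ⟨0, by omega⟩ e = 1 then (0 : Fin 2) else 1) := by
  set z : Fin (4 * n) := ⟨0, by omega⟩ with hz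
  have hv : ∀ i e, A i e = 1 ∨ A i e = -1 := fun i e => int_unitary _ (hA.apply_mem i e)
  have hp : ∀ i e, A i e * A z e = 1 ∨ A i e * A z e = -1 := by
    intro i e
    rcases hv i e with h | h <;> rcases hv z e with h' | h' <;> rw [h, h'] <;> norm_num
  have hsq : ∀ i e, A i e * A i e = 1 := by
    intro i e
    rcases hv i e with h | h <;> rw [h] <;> norm_num
  have hcls : ∀ i e (c : Fin 2), (if A i e * A z e = 1 then (0 : Fin 2) else 1) = c ↔
      A i e * A z e = if c = 0 then 1 else -1 := by
    intro i e c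
    rcases hp i e with h | h <;> rw [h] <;> fin_cases c <;> simp
  have hc : ∀ c : Fin 2, (if c = 0 then (1 : ℤ) else -1) = 1 ∨
      (if c = 0 then (1 : ℤ) else -1) = -1 := by
    intro c
    fin_cases c <;> simp
  refine ⟨?_, ?_, ?_, ?_⟩
  · intro i c
    have h1 := count_one (fun e => A i.1 e * A z e) (hp i.1) _ (hc c)
    rw [had_row hA i.1 z i.2, Fintype.card_fin] at h1
    have h2 : (univ.filter fun e => (if A i.1 e * A z e = 1 then (0 : Fin 2) else 1) = c).card =
        (univ.filter fun e => A i.1 e * A z e = if c = 0 then 1 else -1).card := by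
      congr 1
      ext e
      simp only [mem_filter, mem_univ, true_and]
      exact hcls _ _ _
    have h3 : (univ.filter fun e => A i.1 e * A z e = if c = 0 then 1 else -1).card = n * 2 := by
      push_cast at h1
      omega
    refine Eq.trans ?_ (h2.trans h3)
    congr
  · intro i j hij c d
    have hij' : i.1 ≠ j.1 := fun h => hij (Subtype.ext h)
    have h1 := count_two (fun e => A i.1 e * A z e) (fun e => A j.1 e * A z e) (hp i.1) (hp j.1)
      _ _ (hc c) (hc d)
    rw [had_row hA i.1 z i.2, had_row hA j.1 z j.2, Fintype.card_fin] at h1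
    have h4 : ∑ e, A i.1 e * A z e * (A j.1 e * A z e) = 0 := by
      rw [← had_row hA i.1 j.1 hij']
      refine Finset.sum_congr rfl fun e _ => ?_
      have := hsq z e
      linear_combination (A i.1 e * A j.1 e) * this
    rw [h4] at h1
    have h2 : (univ.filter fun e => (if A i.1 e * A z e = 1 then (0 : Fin 2) else 1) = c ∧
        (if A j.1 e * A z e = 1 then (0 : Fin 2) else 1) = d).card =
        (univ.filter fun e => (A i.1 e * A z e = if c = 0 then 1 else -1) ∧
          (A j.1 e * A z e = if d = 0 then 1 else -1)).card := by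
      congr 1
      ext e
      simp only [mem_filter, mem_univ, true_and]
      exact and_congr (hcls _ _ _) (hcls _ _ _)
    have h3 : (univ.filter fun e => (A i.1 e * A z e = if c = 0 then 1 else -1) ∧
          (A j.1 e * A z e = if d = 0 then 1 else -1)).card = n := by
      push_cast at h1
      omega
    refine Eq.trans ?_ (h2.trans h3)
    congr
  · intro e e' hee
    have h1 := count_one (fun i => A i e * A i e') (by
      intro i
      rcases hv i e with h | h <;> rcases hv i e' with h' | h' <;> simp only [h, h'] <;> norm_num)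
      (A z e * A z e') (by
      rcases hv z e with h | h <;> rcases hv z e' with h' | h' <;> rw [h, h'] <;> norm_num)
    rw [had_col hA e e' hee, Fintype.card_fin] at h1
    have h2 : (univ.filter fun i => A i e * A i e' = A z e * A z e').card = 2 * n := by
      push_cast at h1
      omega
    have h3 : ((univ.filter fun i => A i e * A i e' = A z e * A z e').erase z).card = 2 * n - 1 := by
      rw [Finset.card_erase_of_mem (by simp), h2]
    rw [← h3]
    refine Finset.card_bij (fun i _ => i.1) ?_ ?_ ?_
    · intro i hi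
      simp only [mem_filter, mem_univ, true_and] at hi
      rw [mem_erase, mem_filter]
      exact ⟨i.2, mem_univ _, (sgn_iff _ _ _ _ (hv _ _) (hv _ _) (hv _ _) (hv _ _)).1 hi⟩
    · intro i _ j _ h
      exact Subtype.ext h
    · intro i hi
      rw [mem_erase, mem_filter] at hi
      refine ⟨⟨i, hi.1⟩, ?_, rfl⟩
      simp only [mem_filter, mem_univ, true_and]
      exact (sgn_iff _ _ _ _ (hv _ _) (hv _ _) (hv _ _) (hv _ _)).2 hi.2.2
  · rw [Fintype.card_subtype_compl, Fintype.card_fin, Fintype.card_subtype_eq]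
    omega

end Pool.Agent.Lib.MP_6fba53_co
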