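import Mathlib

set_option autoImplicit false

/-! # Idempotent quasigroups and unipotent loops -/

namespace Pool.Agent.Lib.MP_6fba53_co

/-- An idempotent quasigroup. -/
structure Idem {I : Type} (o : I → I → I) : Prop where
  idem : ∀ i, o i i = i
  left : ∀ i, Function.Injective (o i)
  right : ∀ j, Function.Injective fun i => o i j

theorem Idem.map {I I' : Type} {o : I → I → I} (h : Idem o) (e : I' ≃ I) :
    Idem fun i j => e.symm (o (e i) (e j)) where
  idem i := by rw [h.idem, Equiv.symm_apply_apply]
  left i a b hab := e.injective (h.left _ (e.symm.injective hab))
  right j a b hab := e.injective (h.right _ (e.symm.injective hab))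

theorem idem_odd (n : ℕ) : ∃ o : ZMod (2 * n + 1) → ZMod (2 * n + 1) → ZMod (2 * n + 1), Idem o := by
  -- `n + 1` is the inverse of `2`
  have h2 : (2 : ZMod (2 * n + 1)) * ((n + 1 : ℕ) : ZMod (2 * n + 1)) = 1 := by
    have h3 : ((2 * n + 1 : ℕ) : ZMod (2 * n + 1)) = 0 := ZMod.natCast_self _
    push_cast at h3 ⊢
    linear_combination h3
  set c : ZMod (2 * n + 1) := ((n + 1 : ℕ) : ZMod (2 * n + 1)) with hc
  refine ⟨fun i j => (i + j) * c, ?_, ?_, ?_⟩
  · intro i
    linear_combination i * h2
  · intro i a b hab
    have hab' : (i + a) * c = (i + b) * c := hab
    linear_combination 2 * hab' - (a - b) * h2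
  · intro j a b hab
    have hab' : (a + j) * c = (b + j) * c := hab
    linear_combination 2 * hab' - (a - b) * h2

theorem idem_even (n : ℕ) (hn : 1 ≤ n) :
    ∃ o : Option (ZMod (2 * n + 1)) → Option (ZMod (2 * n + 1)) → Option (ZMod (2 * n + 1)),
      Idem o := by
  classical
  have h2 : (2 : ZMod (2 * n + 1)) * ((n + 1 : ℕ) : ZMod (2 * n + 1)) = 1 := by
    have h3 : ((2 * n + 1 : ℕ) : ZMod (2 * n + 1)) = 0 := ZMod.natCast_self _
    push_cast at h3 ⊢
    linear_combination h3
  set c : ZMod (2 * n + 1) := ((n + 1 : ℕ) : ZMod (2 * n + 1)) with hc
  have h10 : (1 : ZMod (2 * n + 1)) ≠ 0 := by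
    have : Fact (1 < 2 * n + 1) := ⟨by omega⟩
    exact one_ne_zero
  let o : Option (ZMod (2 * n + 1)) → Option (ZMod (2 * n + 1)) → Option (ZMod (2 * n + 1)) :=
    fun x y => match x, y with
    | some x, some y => if x = y + 1 then none else some ((x + y) * c)
    | some x, none => some (x - c)
    | none, some y => some (y + c)
    | none, none => none
  have o1 : ∀ x y : ZMod (2 * n + 1), x = y + 1 → o (some x) (some y) = none :=
    fun x y h => if_pos h
  have o2 : ∀ x y : ZMod (2 * n + 1), x ≠ y + 1 → o (some x) (some y) = some ((x + y) * c) :=
    fun x y h => if_neg h
  have o3 : ∀ x : ZMod (2 * n + 1), o (some x) none = some (x - c) := fun x => rfl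
  have o4 : ∀ y : ZMod (2 * n + 1), o none (some y) = some (y + c) := fun x => rfl
  have o5 : o none none = none := rfl
  refine ⟨o, ?_, ?_, ?_⟩
  · intro i
    cases i with
    | none => rfl
    | some x =>
      rw [o2 x x (fun h => h10 (by linear_combination -h))]
      congr 1
      linear_combination x * h2
  · intro i a b hab
    cases i with
    | none =>
      cases a with
      | none =>
        cases b with
        | none => rfl
        | some b => rw [o5, o4] at hab; exact absurd hab (by simp)
      | some a =>
        cases b with
        | none => rw [o5, o4] at hab; exact absurd hab (by simp)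
        | some b =>
          rw [o4, o4, Option.some.injEq] at hab
          rw [add_right_cancel hab]
    | some x =>
      cases a with
      | none =>
        cases b with
        | none => rfl
        | some b =>
          by_cases h : x = b + 1
          · rw [o3, o1 x b h] at hab; exact absurd hab (by simp)
          · rw [o3, o2 x b h, Option.some.injEq] at hab
            exact absurd (by linear_combination 2 * hab + (x + b + 1) * h2) h
      | some a =>
        cases b with
        | none =>
          by_cases h : x = a + 1
          · rw [o3, o1 x a h] at hab; exact absurd hab (by simp)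
          · rw [o3, o2 x a h, Option.some.injEq] at hab
            exact absurd (by linear_combination -2 * hab + (x + a + 1) * h2) h
        | some b =>
          by_cases h : x = a + 1 <;> by_cases h' : x = b + 1
          · rw [h] at h'
            rw [add_right_cancel h']
          · rw [o1 x a h, o2 x b h'] at hab; exact absurd hab (by simp)
          · rw [o2 x a h, o1 x b h'] at hab; exact absurd hab (by simp)
          · rw [o2 x a h, o2 x b h', Option.some.injEq] at hab
            congr 1
            linear_combination 2 * hab - (a - b) * h2
  · intro j a b hab
    simp only at hab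
    cases j with
    | none =>
      cases a with
      | none =>
        cases b with
        | none => rfl
        | some b => rw [o5, o3] at hab; exact absurd hab (by simp)
      | some a =>
        cases b with
        | none => rw [o5, o3] at hab; exact absurd hab (by simp)
        | some b =>
          rw [o3, o3, Option.some.injEq] at hab
          rw [sub_left_injective hab]
    | some y =>
      cases a with
      | none =>
        cases b with
        | none => rfl
        | some b =>
          by_cases h : b = y + 1
          · rw [o4, o1 b y h] at hab; exact absurd hab (by simp)
          · rw [o4, o2 b y h, Option.some.injEq] at hab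
            exact absurd (by linear_combination -2 * hab - (b + y - 1) * h2) h
      | some a =>
        cases b with
        | none =>
          by_cases h : a = y + 1
          · rw [o4, o1 a y h] at hab; exact absurd hab (by simp)
          · rw [o4, o2 a y h, Option.some.injEq] at hab
            exact absurd (by linear_combination 2 * hab - (a + y - 1) * h2) h
        | some b =>
          by_cases h : a = y + 1 <;> by_cases h' : b = y + 1
          · rw [h, h']
          · rw [o1 a y h, o2 b y h'] at hab; exact absurd hab (by simp)
          · rw [o2 a y h, o1 b y h'] at hab; exact absurd hab (by simp)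
          · rw [o2 a y h, o2 b y h', Option.some.injEq] at hab
            congr 1
            linear_combination 2 * hab - (a - b) * h2

/-- There is an idempotent quasigroup on every finite set which does not have two elements. -/
theorem exists_idem (I : Type) [Fintype I] (h2 : Fintype.card I ≠ 2) : ∃ o : I → I → I, Idem o := by
  by_cases h0 : Fintype.card I = 0
  · have : IsEmpty I := Fintype.card_eq_zero_iff.1 h0
    exact ⟨fun i _ => i, fun i => (this.false i).elim, fun i => (this.false i).elim,
      fun i => (this.false i).elim⟩
  rcases Nat.even_or_odd' (Fintype.card I) with ⟨n, hn | hn⟩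
  · obtain ⟨k, rfl⟩ : ∃ k, n = k + 1 := ⟨n - 1, by omega⟩
    obtain ⟨o, ho⟩ := idem_even k (by omega)
    have e : I ≃ Option (ZMod (2 * k + 1)) := by
      refine Fintype.equivOfCardEq ?_
      rw [Fintype.card_option, ZMod.card, hn]
      ring
    exact ⟨_, ho.map e⟩
  · obtain ⟨o, ho⟩ := idem_odd n
    have e : I ≃ ZMod (2 * n + 1) := by
      refine Fintype.equivOfCardEq ?_
      rw [ZMod.card, hn]
    exact ⟨_, ho.map e⟩

/-- A unipotent loop with identity `none`. -/
structure ULoop {I : Type} (u : Option I → Option I → Option I) : Prop where
  one_left : ∀ x, u none x = x
  one_right : ∀ x, u x none = x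
  diag : ∀ x, u x x = none
  left : ∀ x, Function.Injective (u x)
  right : ∀ y, Function.Injective fun x => u x y

theorem exists_uloop (I : Type) [Fintype I] (h2 : Fintype.card I ≠ 2) :
    ∃ u : Option I → Option I → Option I, ULoop u := by
  classical
  obtain ⟨o, ho⟩ := exists_idem I h2
  let u : Option I → Option I → Option I := fun x y => match x, y with
    | none, y => y
    | some x, none => some x
    | some x, some y => if x = y then none else some (o x y)
  have u1 : ∀ y, u none y = y := fun y => rfl
  have u2 : ∀ x, u x none = x := by
    intro x
    cases x with
    | none => rfl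
    | some x => rfl
  have u3 : ∀ x, u (some x) (some x) = none := fun x => if_pos rfl
  have u4 : ∀ x y, x ≠ y → u (some x) (some y) = some (o x y) := fun x y h => if_neg h
  clear_value u
  have o1 : ∀ x y, x ≠ y → o x y ≠ x := by
    intro x y h he
    exact h (ho.left x (he.trans (ho.idem x).symm)).symm
  have o2 : ∀ x y, x ≠ y → o x y ≠ y := by
    intro x y h he
    have h3 : o x y = o y y := he.trans (ho.idem y).symm
    exact h (ho.right y h3)
  refine ⟨u, u1, u2, ?_, ?_, ?_⟩
  · intro x
    cases x with
    | none => exact u1 none
    | some x => exact u3 x
  · intro x a b hab
    cases x with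
    | none => rwa [u1, u1] at hab
    | some x =>
      cases a with
      | none =>
        cases b with
        | none => rfl
        | some b =>
          by_cases h : x = b
          · subst h; rw [u2, u3] at hab; exact absurd hab (by simp)
          · rw [u2, u4 x b h, Option.some.injEq] at hab; exact absurd hab.symm (o1 x b h)
      | some a =>
        cases b with
        | none =>
          by_cases h : x = a
          · subst h; rw [u2, u3] at hab; exact absurd hab (by simp)
          · rw [u2, u4 x a h, Option.some.injEq] at hab; exact absurd hab (o1 x a h)
        | some b =>
          by_cases h : x = a <;> by_cases h' : x = b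
          · rw [← h, ← h']
          · subst h; rw [u3, u4 x b h'] at hab; exact absurd hab (by simp)
          · subst h'; rw [u3, u4 x a h] at hab; exact absurd hab (by simp)
          · rw [u4 x a h, u4 x b h', Option.some.injEq] at hab
            rw [ho.left x hab]
  · intro y a b hab
    simp only at hab
    cases y with
    | none => rwa [u2, u2] at hab
    | some y =>
      cases a with
      | none =>
        cases b with
        | none => rfl
        | some b =>
          by_cases h : b = y
          · subst h; rw [u1, u3] at hab; exact absurd hab (by simp)
          · rw [u1, u4 b y h, Option.some.injEq] at hab; exact absurd hab.symm (o2 b y h)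
      | some a =>
        cases b with
        | none =>
          by_cases h : a = y
          · subst h; rw [u1, u3] at hab; exact absurd hab (by simp)
          · rw [u1, u4 a y h, Option.some.injEq] at hab; exact absurd hab (o2 a y h)
        | some b =>
          by_cases h : a = y <;> by_cases h' : b = y
          · rw [h, h']
          · subst h; rw [u3, u4 b a h'] at hab; exact absurd hab (by simp)
          · subst h'; rw [u3, u4 a b h] at hab; exact absurd hab (by simp)
          · rw [u4 a y h, u4 b y h', Option.some.injEq] at hab
            rw [ho.right y hab]

end Pool.Agent.Lib.MP_6fba53_co
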