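import Pool.Agent.Lib.MP_6fba53_co.PGProj

set_option autoImplicit false

/-! # From dimension `m` to dimension `2 m + 1` -/

namespace Pool.Agent.Lib.MP_6fba53_co.PG

variable {F L : Type} [Field F] [Field L] [Algebra F L] [Fintype F] [Fintype L]

/-- The trace as a linear map. -/
noncomputable abbrev trL (F L : Type) [Field F] [Field L] [Algebra F L] : L →ₗ[F] F :=
  Algebra.trace F L

/-- Every functional is a trace functional. -/
theorem exists_rep (g : L →ₗ[F] F) : ∃ a : L, ∀ x, g x = (tr (a * x) : F) := by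
  classical
  let T : L →ₗ[F] (L →ₗ[F] F) :=
    { toFun := fun a => (Algebra.trace F L).comp (LinearMap.mulLeft F a)
      map_add' := fun a b => by
        apply LinearMap.ext
        intro x
        simp [add_mul]
      map_smul' := fun c a => by
        apply LinearMap.ext
        intro x
        simp }
  have hT : ∀ a x, T a x = (tr (a * x) : F) := fun _ _ => rfl
  have hinj : Function.Injective T := by
    rw [injective_iff_map_eq_zero]
    intro a ha
    refine tr_nondeg (F := F) a fun x => ?_
    rw [mul_comm, ← hT, ha, LinearMap.zero_apply]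
  have hdim : Module.finrank F L = Module.finrank F (L →ₗ[F] F) := by
    rw [Module.finrank_linearMap, Module.finrank_self, mul_one]
  have hsurj := (LinearMap.injective_iff_surjective_of_finrank_eq_finrank hdim).1 hinj
  obtain ⟨a, ha⟩ := hsurj g
  exact ⟨a, fun x => by rw [← ha, hT]⟩

/-- The family for `L` with hyperplane at infinity `tr = 0`, given by elements of `L`. -/
structure LGood (a : L → L → L) : Prop where
  zero : ∀ x k : L, (tr x : F) = 1 → (tr k : F) = 0 → k ≠ 0 → (tr (a x k * x) : F) = 0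
  ne : ∀ x k : L, (tr x : F) = 1 → (tr k : F) = 0 → k ≠ 0 → (tr (a x k * k) : F) ≠ 0
  inj : ∀ x k k' : L, (tr x : F) = 1 → (tr k : F) = 0 → k ≠ 0 → (tr k' : F) = 0 → k' ≠ 0 →
    ∀ m : F, m ≠ 0 → a x k = algebraMap F L m * a x k' → ∃ l : F, k = algebraMap F L l * k'
  key : ∀ x x' k : L, (tr x : F) = 1 → (tr x' : F) = 1 → (tr k : F) = 0 → k ≠ 0 →
    ∀ m : F, m ≠ 0 → a x k = algebraMap F L m * a x' k → x = x'

theorem exists_LGood (Φ : L → L → (L →ₗ[F] F)) (hΦ : PGood (trL F L) Φ) :
    ∃ a : L → L → L, LGood (F := F) a := by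
  choose r hr using exists_rep (F := F) (L := L)
  have hsm : ∀ (g g' : L →ₗ[F] F) (m : F), r g = algebraMap F L m * r g' → g = m • g' := by
    intro g g' m h
    apply LinearMap.ext
    intro x
    rw [LinearMap.smul_apply, hr, hr g', h, mul_assoc, tr_smul, smul_eq_mul]
  refine ⟨fun x k => r (Φ x k), ?_, ?_, ?_, ?_⟩
  · intro x k hx hk hk0
    rw [← hr]
    exact hΦ.zero x k hx hk hk0
  · intro x k hx hk hk0
    rw [← hr]
    exact hΦ.ne x k hx hk hk0
  · intro x k k' hx hk hk0 hk' hk0' m hm h
    obtain ⟨l, hl⟩ := hΦ.inj x k k' hx hk hk0 hk' hk0' m hm (hsm _ _ _ h)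
    exact ⟨l, by rw [hl, Algebra.smul_def]⟩
  · intro x x' k hx hx' hk hk0 m hm h
    exact hΦ.key x x' k hx hx' hk hk0 m hm (hsm _ _ _ h)

omit [Fintype L] in
/-- A factor `lam x k` of weight two in `k` with `k ^ 2 + lam x k * x ^ 2 ≠ 0`. -/
theorem exists_lam (h3 : 3 ≤ Fintype.card F) : ∃ lam : L → L → F, (∀ x k, lam x k ≠ 0) ∧
    (∀ x k (m : F), k ≠ 0 → m ≠ 0 → lam x (algebraMap F L m * k) = m ^ 2 * lam x k) ∧
    (∀ x k, x ≠ 0 → k ^ 2 + algebraMap F L (lam x k) * x ^ 2 ≠ 0) := by
  classical
  obtain ⟨s, hs0, hs1⟩ : ∃ s : F, s ≠ 0 ∧ s ≠ 1 := by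
    by_contra hcon
    push Not at hcon
    have : (Finset.univ : Finset F) ⊆ {0, 1} := by
      intro x _
      by_cases hx : x = 0
      · simp [hx]
      · simp [hcon x hx]
    have h4 := Finset.card_le_card this
    rw [Finset.card_univ] at h4
    have h5 := Finset.card_le_two (a := (0 : F)) (b := 1)
    omega
  -- the factor of a vector with respect to the representative of its class
  have hfac : ∀ k : Lˣ, ∃ c : F, c ≠ 0 ∧ (k : L) = algebraMap F L c * rp (cl k : G F L) := by
    intro k
    obtain ⟨c, hc⟩ := (cl_eq_iff (F := F) _ _).1 (cl_ru (cl k : G F L))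
    exact ⟨c, c.ne_zero, hc⟩
  choose c hc0 hc using hfac
  let l0 : L → L → F := fun x r => if r ^ 2 + x ^ 2 = 0 then s else 1
  have hl0 : ∀ x r, l0 x r ≠ 0 := by
    intro x r
    by_cases h : r ^ 2 + x ^ 2 = 0
    · change (if _ then _ else _) ≠ _
      rw [if_pos h]
      exact hs0
    · change (if _ then _ else _) ≠ _
      rw [if_neg h]
      exact one_ne_zero
  have hl0' : ∀ x r, x ≠ 0 → r ^ 2 + algebraMap F L (l0 x r) * x ^ 2 ≠ 0 := by
    intro x r hx h
    by_cases h0 : r ^ 2 + x ^ 2 = 0
    · have h1 : l0 x r = s := if_pos h0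
      rw [h1] at h
      have h2 : (algebraMap F L s - 1) * x ^ 2 = 0 := by linear_combination h - h0
      rcases mul_eq_zero.1 h2 with h3 | h3
      · apply hs1
        apply (algebraMap F L).injective
        rw [map_one]
        exact sub_eq_zero.1 h3
      · exact hx ((pow_eq_zero_iff two_ne_zero).1 h3)
    · have h1 : l0 x r = 1 := if_neg h0
      rw [h1, map_one, one_mul] at h
      exact h0 h
  let lam : L → L → F := fun x k =>
    if hk : k = 0 then 1 else (c (Units.mk0 k hk)) ^ 2 * l0 x (rp (cl (Units.mk0 k hk) : G F L))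
  have hlam : ∀ x k (hk : k ≠ 0), lam x k =
      (c (Units.mk0 k hk)) ^ 2 * l0 x (rp (cl (Units.mk0 k hk) : G F L)) :=
    fun x k hk => dif_neg hk
  have hlam0 : ∀ x, lam x 0 = 1 := fun x => dif_pos rfl
  refine ⟨lam, ?_, ?_, ?_⟩
  · intro x k
    by_cases hk : k = 0
    · rw [hk, hlam0]
      exact one_ne_zero
    · rw [hlam x k hk]
      exact mul_ne_zero (pow_ne_zero _ (hc0 _)) (hl0 _ _)
  · intro x k m hk hm
    have hmk : algebraMap F L m * k ≠ 0 :=
      mul_ne_zero ((map_ne_zero_iff _ (algebraMap F L).injective).2 hm) hk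
    rw [hlam x k hk, hlam x _ hmk]
    have h1 : (cl (Units.mk0 _ hmk) : G F L) = cl (Units.mk0 k hk) := by
      symm
      rw [cl_eq_iff]
      exact ⟨Units.mk0 m hm, rfl⟩
    have h2 : c (Units.mk0 _ hmk) = m * c (Units.mk0 k hk) := by
      have e1 := hc (Units.mk0 _ hmk)
      have e2 := hc (Units.mk0 k hk)
      rw [h1] at e1
      rw [Units.val_mk0] at e1 e2
      conv_lhs at e1 => rw [e2]
      rw [← mul_assoc] at e1
      have e3 := mul_right_cancel₀ (rp_ne _) e1
      rw [← map_mul] at e3
      exact ((algebraMap F L).injective e3).symm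
    rw [h1, h2]
    ring
  · intro x k hx
    by_cases hk : k = 0
    · rw [hk, hlam0, map_one, one_mul, zero_pow two_ne_zero, zero_add]
      exact pow_ne_zero _ hx
    · rw [hlam x k hk]
      have e2 := hc (Units.mk0 k hk)
      rw [Units.val_mk0] at e2
      have h4 := hl0' x (rp (cl (Units.mk0 k hk) : G F L)) hx
      have h5 : k ^ 2 + algebraMap F L (c (Units.mk0 k hk) ^ 2 *
          l0 x (rp (cl (Units.mk0 k hk) : G F L))) * x ^ 2 =
          algebraMap F L (c (Units.mk0 k hk)) ^ 2 * (rp (cl (Units.mk0 k hk) : G F L) ^ 2 +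
            algebraMap F L (l0 x (rp (cl (Units.mk0 k hk) : G F L))) * x ^ 2) := by
        rw [map_mul, map_pow]
        linear_combination (k + algebraMap F L (c (Units.mk0 k hk)) *
          rp (cl (Units.mk0 k hk) : G F L)) * e2
      rw [h5]
      exact mul_ne_zero (pow_ne_zero _ ((map_ne_zero_iff _ (algebraMap F L).injective).2 (hc0 _))) h4

/-- The second coordinate traced: the hyperplane at infinity of `L × L`. -/
noncomputable def fD (F L : Type) [Field F] [Field L] [Algebra F L] : (L × L) →ₗ[F] F :=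
  (Algebra.trace F L).comp (LinearMap.snd F L L)

omit [Fintype F] [Fintype L] in
theorem fD_apply (v : L × L) : fD F L v = (tr v.2 : F) := rfl

/-- The functional `v ↦ tr (a.1 * v.2 - a.2 * v.1)`. -/
noncomputable def fnD (F : Type) {L : Type} [Field F] [Field L] [Algebra F L] (a : L × L) :
    (L × L) →ₗ[F] F :=
  (Algebra.trace F L).comp ((LinearMap.mulLeft F a.1).comp (LinearMap.snd F L L) -
    (LinearMap.mulLeft F a.2).comp (LinearMap.fst F L L))

omit [Fintype F] [Fintype L] in
theorem fnD_apply (a v : L × L) : fnD F a v = (tr (a.1 * v.2 - a.2 * v.1) : F) := rfl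

theorem fnD_eq (a b : L × L) (m : F) (h : fnD F a = m • fnD F b) :
    a.1 = algebraMap F L m * b.1 ∧ a.2 = algebraMap F L m * b.2 := by
  constructor
  · apply sub_eq_zero.1
    refine tr_nondeg (F := F) _ fun x => ?_
    have h1 := LinearMap.congr_fun h (0, x)
    rw [LinearMap.smul_apply, fnD_apply, fnD_apply] at h1
    simp only [mul_zero, sub_zero, smul_eq_mul] at h1
    rw [mul_sub, mul_left_comm]
    unfold tr at *
    rw [map_sub]
    have h3 := tr_smul (F := F) m (x * b.1)
    unfold tr at h3
    rw [h3, mul_comm x a.1, mul_comm x b.1, h1, sub_self]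
  · apply sub_eq_zero.1
    refine tr_nondeg (F := F) _ fun x => ?_
    have h1 := LinearMap.congr_fun h (x, 0)
    rw [LinearMap.smul_apply, fnD_apply, fnD_apply] at h1
    simp only [mul_zero, zero_sub, smul_eq_mul] at h1
    rw [mul_sub, mul_left_comm]
    unfold tr at *
    rw [map_neg, map_neg, mul_neg, neg_inj] at h1
    rw [map_sub]
    have h3 := tr_smul (F := F) m (x * b.2)
    unfold tr at h3
    rw [h3, mul_comm x a.2, mul_comm x b.2, h1, sub_self]

/-- The determinant of a point and a direction. -/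
def dt (x p : L × L) : L := x.1 * p.2 - x.2 * p.1

open Classical in
/-- The normal vector of the doubling construction. -/
noncomputable def nD (lam : L → L → F) (a : L → L → L) (x p : L × L) : L × L :=
  if dt x p = 0 then (a x.2 p.2, 0)
  else ((p.2 * p.1 + algebraMap F L (lam x.2 p.2) * (x.2 * x.1)) / dt x p,
    (p.2 ^ 2 + algebraMap F L (lam x.2 p.2) * x.2 ^ 2) / dt x p)

theorem double (lam : L → L → F) (l1 : ∀ x k, lam x k ≠ 0)
    (l2 : ∀ x k (m : F), k ≠ 0 → m ≠ 0 → lam x (algebraMap F L m * k) = m ^ 2 * lam x k)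
    (l3 : ∀ x k, x ≠ 0 → k ^ 2 + algebraMap F L (lam x k) * x ^ 2 ≠ 0)
    (a : L → L → L) (ha : LGood (F := F) a) :
    PGood (fD F L) (fun x p => fnD F (nD lam a x p)) := by
  have hA : ∀ m : F, m ≠ 0 → algebraMap F L m ≠ 0 :=
    fun m hm => (map_ne_zero_iff _ (algebraMap F L).injective).2 hm
  have hpos : ∀ x p : L × L, dt x p = 0 → nD lam a x p = (a x.2 p.2, 0) :=
    fun x p h => if_pos h
  have hneg : ∀ x p : L × L, dt x p ≠ 0 → nD lam a x p =
      ((p.2 * p.1 + algebraMap F L (lam x.2 p.2) * (x.2 * x.1)) / dt x p,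
        (p.2 ^ 2 + algebraMap F L (lam x.2 p.2) * x.2 ^ 2) / dt x p) := fun x p h => if_neg h
  have hx2 : ∀ x : L × L, fD F L x = 1 → x.2 ≠ 0 := by
    intro x hx h
    rw [fD_apply, h] at hx
    unfold tr at hx
    rw [map_zero] at hx
    exact zero_ne_one hx
  have hn2 : ∀ x p : L × L, fD F L x = 1 → dt x p ≠ 0 → (nD lam a x p).2 ≠ 0 := by
    intro x p hx hd
    rw [hneg x p hd]
    exact div_ne_zero (l3 _ _ (hx2 x hx)) hd
  have hp2 : ∀ x p : L × L, fD F L x = 1 → p ≠ 0 → dt x p = 0 → p.2 ≠ 0 := by
    intro x p hx hp hd h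
    apply hp
    unfold dt at hd
    rw [h, mul_zero, zero_sub, neg_eq_zero] at hd
    exact Prod.ext ((mul_eq_zero.1 hd).resolve_left (hx2 x hx)) h
  have hdx : ∀ x p : L × L, dt x p ≠ 0 →
      (nD lam a x p).1 * x.2 - (nD lam a x p).2 * x.1 = -p.2 := by
    intro x p hd
    rw [hneg x p hd]
    have h0 : dt x p = x.1 * p.2 - x.2 * p.1 := rfl
    field_simp
    rw [h0]
    ring
  have hdp : ∀ x p : L × L, dt x p ≠ 0 →
      (nD lam a x p).1 * p.2 - (nD lam a x p).2 * p.1 =
        algebraMap F L (lam x.2 p.2) * x.2 := by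
    intro x p hd
    rw [hneg x p hd]
    have h0 : dt x p = x.1 * p.2 - x.2 * p.1 := rfl
    field_simp
    rw [h0]
    ring
  refine ⟨?_, ?_, ?_, ?_⟩
  · intro x p hx hp hp0
    rw [fnD_apply]
    by_cases hd : dt x p = 0
    · rw [hpos x p hd]
      simp only [zero_mul, sub_zero]
      exact ha.zero _ _ hx hp (hp2 x p hx hp0 hd)
    · rw [hdx x p hd]
      rw [fD_apply] at hp
      unfold tr at *
      rw [map_neg, hp, neg_zero]
  · intro x p hx hp hp0
    rw [fnD_apply]
    by_cases hd : dt x p = 0
    · rw [hpos x p hd]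
      simp only [zero_mul, sub_zero]
      exact ha.ne _ _ hx hp (hp2 x p hx hp0 hd)
    · rw [hdp x p hd, tr_smul]
      rw [fD_apply] at hx
      rw [hx, mul_one]
      exact l1 _ _
  · intro x p p' hx hp hp0 hp' hp0' m hm h
    obtain ⟨h1, h2⟩ := fnD_eq _ _ _ h
    by_cases hd : dt x p = 0 <;> by_cases hd' : dt x p' = 0
    · rw [hpos x p hd, hpos x p' hd'] at h1
      obtain ⟨l, hl⟩ := ha.inj x.2 p.2 p'.2 hx hp (hp2 x p hx hp0 hd) hp' (hp2 x p' hx hp0' hd')
        m hm h1
      refine ⟨l, ?_⟩
      rw [Algebra.smul_def]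
      refine Prod.ext ?_ hl
      apply mul_left_cancel₀ (hx2 x hx)
      unfold dt at hd hd'
      change x.2 * p.1 = x.2 * (algebraMap F L l * p'.1)
      linear_combination -hd + algebraMap F L l * hd' + x.1 * hl
    · exfalso
      apply hn2 x p' hx hd'
      rw [hpos x p hd] at h2
      exact (mul_eq_zero.1 h2.symm).resolve_left (hA m hm)
    · exfalso
      apply hn2 x p hx hd
      rw [h2, hpos x p' hd', mul_zero]
    · have e1 : p.2 = algebraMap F L m * p'.2 := by
        have e2 := hdx x p hd
        rw [h1, h2] at e2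
        have e3 := hdx x p' hd'
        linear_combination e2 - algebraMap F L m * e3
      have h3 := l3 x.2 p'.2 (hx2 x hx)
      rw [hneg x p hd, hneg x p' hd'] at h2
      simp only at h2
      have hm0 := hA m hm
      by_cases hq : p'.2 = 0
      · rw [hq, mul_zero] at e1
        rw [hq, e1] at h2
        rw [hq] at h3
        rw [← mul_div_assoc, div_eq_div_iff hd hd'] at h2
        have e4 : dt x p' = algebraMap F L m * dt x p := by
          apply mul_left_cancel₀ h3
          linear_combination h2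
        refine ⟨m⁻¹, ?_⟩
        rw [Algebra.smul_def]
        refine Prod.ext ?_ (by change p.2 = _ * p'.2; rw [e1, hq, mul_zero])
        apply mul_left_cancel₀ (hx2 x hx)
        apply mul_left_cancel₀ hm0
        change algebraMap F L m * (x.2 * p.1) =
          algebraMap F L m * (x.2 * (algebraMap F L m⁻¹ * p'.1))
        unfold dt at e4
        rw [hq, e1] at e4
        have e5 : algebraMap F L m * algebraMap F L m⁻¹ = 1 := by
          rw [← map_mul, mul_inv_cancel₀ hm, map_one]
        linear_combination e4 - x.2 * p'.1 * e5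
      · rw [e1, l2 _ _ _ hq hm] at h2
        rw [← mul_div_assoc, div_eq_div_iff hd hd', map_mul, map_pow] at h2
        have e4 : dt x p = algebraMap F L m * dt x p' := by
          apply mul_left_cancel₀ (mul_ne_zero hm0 h3)
          linear_combination -h2
        refine ⟨m, ?_⟩
        rw [Algebra.smul_def]
        refine Prod.ext ?_ e1
        apply mul_left_cancel₀ (hx2 x hx)
        change x.2 * p.1 = x.2 * (algebraMap F L m * p'.1)
        unfold dt at e4
        linear_combination -e4 + x.1 * e1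
  · intro x x' p hx hx' hp hp0 m hm h
    obtain ⟨h1, h2⟩ := fnD_eq _ _ _ h
    by_cases hd : dt x p = 0 <;> by_cases hd' : dt x' p = 0
    · rw [hpos x p hd, hpos x' p hd'] at h1
      have h3 := ha.key x.2 x'.2 p.2 hx hx' hp (hp2 x p hx hp0 hd) m hm h1
      refine Prod.ext ?_ h3
      apply mul_right_cancel₀ (hp2 x p hx hp0 hd)
      unfold dt at hd hd'
      linear_combination hd - hd' + p.1 * h3
    · exfalso
      apply hn2 x' p hx' hd'
      rw [hpos x p hd] at h2
      exact (mul_eq_zero.1 h2.symm).resolve_left (hA m hm)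
    · exfalso
      apply hn2 x p hx hd
      rw [h2, hpos x' p hd', mul_zero]
    · have hm0 := hA m hm
      have e1 : algebraMap F L (lam x.2 p.2) * x.2 =
          algebraMap F L (m * lam x'.2 p.2) * x'.2 := by
        have e2 := hdp x p hd
        rw [h1, h2] at e2
        have e3 := hdp x' p hd'
        rw [map_mul]
        linear_combination -e2 + algebraMap F L m * e3
      have e2 : lam x.2 p.2 = m * lam x'.2 p.2 := by
        have e3 := congrArg (fun y => (tr y : F)) e1
        simp only [tr_smul] at e3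
        rw [fD_apply] at hx hx'
        rwa [hx, hx', mul_one, mul_one] at e3
      have e3 : x.2 = x'.2 := by
        rw [← e2] at e1
        exact mul_left_cancel₀ (hA _ (l1 _ _)) e1
      have e4 : m = 1 := by
        rw [e3] at e2
        have := l1 x'.2 p.2
        exact mul_right_cancel₀ this (by rw [one_mul, ← e2])
      rw [e4, map_one, one_mul] at h1 h2
      have h3 := l3 x.2 p.2 (hx2 x hx)
      rw [hneg x p hd, hneg x' p hd'] at h1 h2
      simp only at h1 h2
      rw [← e3] at h1 h2
      have e5 : dt x p = dt x' p := by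
        rw [div_eq_div_iff hd hd'] at h2
        exact (mul_left_cancel₀ h3 h2).symm
      rw [← e5] at h1
      refine Prod.ext ?_ e3
      rw [div_left_inj' hd] at h1
      by_cases hq : p.2 = 0
      · rw [hq, zero_mul, zero_add, zero_add, ← hq] at h1
        exact mul_left_cancel₀ (hx2 x hx) (mul_left_cancel₀ (hA _ (l1 _ _)) h1)
      · unfold dt at e5
        rw [← e3] at e5
        apply mul_right_cancel₀ hq
        linear_combination e5

end Pool.Agent.Lib.MP_6fba53_co.PG
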