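import Pool.Agent.Lib.MP_6fba53_co.PGHas
import Pool.Agent.Lib.MP_6fba53_co.PGDouble

set_option autoImplicit false

/-! # All dimensions -/

namespace Pool.Agent.Lib.MP_6fba53_co.PG

theorem has_double (q m : ℕ) (hq : 3 ≤ q) (h : Has q m) : Has q (2 * m + 1) := by
  refine has_of_coord q (2 * m + 1) (by omega) ?_
  intro F _ _ hF
  obtain ⟨K, _, _, _, hfin, h1, H1⟩ := h F hF
  obtain ⟨H, hH⟩ := H1.toC (Module.finBasisOfFinrankEq F K hfin)
  obtain ⟨L, _, _, _, hL⟩ := exists_ext F (m + 1) (by omega)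
  obtain ⟨c0, hc0⟩ := tr_surj (F := F) (K := L) 1
  have hc1 : trL F L c0 = 1 := hc0
  obtain ⟨e, he⟩ := exists_equiv (trL F L) c0 hc1 m hL
  obtain ⟨Φ, hΦ⟩ := hH.toP (trL F L) e he
  obtain ⟨a, ha⟩ := exists_LGood Φ hΦ
  obtain ⟨lam, l1, l2, l3⟩ := exists_lam (F := F) (L := L) (by rw [hF]; exact hq)
  have hD := double lam l1 l2 l3 a ha
  obtain ⟨e', he'⟩ := exists_equiv (fD F L) (0, c0) hc1 (2 * m + 1) (by
    rw [Module.finrank_prod, hL]
    ring)
  exact hD.toC _ _ e' he'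

theorem has_all : ∀ d : ℕ, 1 ≤ d → ∀ q : ℕ, 3 ≤ q → Has q d := by
  intro d
  induction d using Nat.strong_induction_on with
  | _ d ih =>
    intro hd q hq
    by_cases h1 : d = 1
    · rw [h1]; exact has_one q
    rcases Nat.even_or_odd' d with ⟨m, rfl | rfl⟩
    · refine has_comp q 2 m (has_two q hq) (ih m (by omega) (by omega) _ ?_)
      calc 3 ≤ q := hq
        _ ≤ q ^ 2 := Nat.le_self_pow (by norm_num) q
    · exact has_double q m hq (ih m (by omega) (by omega) q hq)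

theorem has_spaces (q d : ℕ) (hq : 2 ≤ q) (hd : 3 ≤ d) : Has q d := by
  by_cases h2 : q = 2
  · subst h2
    exact has_even 2 d (by norm_num) le_rfl hd
  · exact has_all d (by omega) q (by omega)

end Pool.Agent.Lib.MP_6fba53_co.PG
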