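import Pool.Agent.Lib.MP_6fba53_co.Basic

set_option autoImplicit false

/-! # From a family of bijections of the projective classes to a triple array -/

namespace Pool.Agent.Lib.MP_6fba53_co.PG

open Finset

variable (F K : Type) [Field F] [Field K] [Algebra F K]

/-- The nonzero scalars. -/
def N : Subgroup Kˣ := (Units.map (algebraMap F K : F →* K)).range

/-- The points of the projective space of the `F`-vector space `K`. -/
def G : Type := Kˣ ⧸ N F K

noncomputable instance : CommGroup (G F K) := inferInstanceAs (CommGroup (Kˣ ⧸ N F K))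

variable {F K}

/-- The class of a unit. -/
def cl : Kˣ →* G F K := QuotientGroup.mk' (N F K)

theorem cl_eq_iff (u v : Kˣ) :
    (cl u : G F K) = cl v ↔ ∃ l : Fˣ, (v : K) = algebraMap F K l * u := by
  have h0 : (cl u : G F K) = cl v ↔ u⁻¹ * v ∈ N F K := QuotientGroup.eq
  rw [h0]
  unfold N
  rw [MonoidHom.mem_range]
  constructor
  · rintro ⟨l, hl⟩
    refine ⟨l, ?_⟩
    have h : v = u * (u⁻¹ * v) := by group
    rw [← hl] at h
    rw [h, Units.val_mul, Units.coe_map]
    simp only [MonoidHom.coe_coe]
    ring
  · rintro ⟨l, hl⟩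
    refine ⟨l, ?_⟩
    rw [eq_inv_mul_iff_mul_eq]
    ext
    rw [Units.val_mul, Units.coe_map, hl]
    simp only [MonoidHom.coe_coe]
    ring

/-- The representative of a class. -/
noncomputable def ru (g : G F K) : Kˣ := Quotient.out (show Kˣ ⧸ N F K from g)

theorem cl_ru (g : G F K) : (cl (ru g) : G F K) = g :=
  QuotientGroup.out_eq' (show Kˣ ⧸ N F K from g)

/-- The representative of a class, as an element of `K`. -/
noncomputable def rp (g : G F K) : K := (ru g : K)

theorem rp_ne (g : G F K) : rp g ≠ 0 := Units.ne_zero _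

/-- The trace. -/
noncomputable abbrev tr (x : K) : F := Algebra.trace F K x

/-- The class consists of elements of trace zero. -/
def tz (g : G F K) : Prop := (tr (rp g) : F) = 0

theorem tr_smul (l : F) (x : K) : (tr (algebraMap F K l * x) : F) = l * tr x := by
  unfold tr
  rw [← Algebra.smul_def, map_smul, smul_eq_mul]

theorem tz_cl (u : Kˣ) : tz (cl u : G F K) ↔ (tr (u : K) : F) = 0 := by
  obtain ⟨l, hl⟩ := (cl_eq_iff _ _).1 (cl_ru (cl u : G F K))
  unfold tz rp
  rw [hl, tr_smul]
  simp

theorem tz_mul (a p : G F K) : tz (a * p) ↔ (tr (rp a * rp p) : F) = 0 := by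
  have h : a * p = cl (ru a * ru p) := by
    rw [map_mul, cl_ru, cl_ru]
  rw [h, tz_cl, Units.val_mul]
  rfl

theorem tz_mul_cl (a : G F K) (u : Kˣ) : tz (a * cl u) ↔ (tr (rp a * u) : F) = 0 := by
  have h : a * cl u = cl (ru a * u) := by
    rw [map_mul, cl_ru]
  rw [h, tz_cl, Units.val_mul]
  rfl

section counting

variable [Fintype F] [Fintype K]

noncomputable instance : Fintype (G F K) :=
  @Fintype.ofFinite _ (Finite.of_surjective (cl : Kˣ → G F K) fun g => ⟨ru g, cl_ru g⟩)

open Classical in
theorem card_fiber (g : G F K) :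
    ((univ : Finset Kˣ).filter fun u => (cl u : G F K) = g).card = Fintype.card F - 1 := by
  rw [← Fintype.card_units, ← Finset.card_univ]
  symm
  refine Finset.card_bij (fun l _ => Units.map (algebraMap F K : F →* K) l * ru g) ?_ ?_ ?_
  · intro l _
    simp only [mem_filter, mem_univ, true_and]
    conv_rhs => rw [← cl_ru g]
    symm
    rw [cl_eq_iff]
    exact ⟨l, by simp⟩
  · intro l _ l' _ h
    have h2 := mul_right_cancel h
    exact Units.map_injective (algebraMap F K).injective h2
  · intro u hu
    simp only [mem_filter, mem_univ, true_and] at hu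
    rw [← hu]
    obtain ⟨l, hl⟩ := (cl_eq_iff _ _).1 (cl_ru (cl u : G F K))
    exact ⟨l, mem_univ _, by ext; simpa using hl.symm⟩

open Classical in
theorem card_classes (P : G F K → Prop) :
    ((univ : Finset Kˣ).filter fun u => P (cl u)).card =
      ((univ : Finset (G F K)).filter P).card * (Fintype.card F - 1) := by
  rw [Finset.card_eq_sum_card_fiberwise (f := fun u => (cl u : G F K))
    (t := (univ : Finset (G F K)).filter P)]
  · rw [← smul_eq_mul, ← Finset.sum_const]
    refine Finset.sum_congr rfl fun g hg => ?_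
    rw [← card_fiber g, Finset.filter_filter]
    congr 1
    ext u
    simp only [mem_filter, mem_univ, true_and]
    constructor
    · rintro ⟨_, h⟩; exact h
    · intro h; exact ⟨by rw [h]; exact (mem_filter.1 hg).2, h⟩
  · intro u hu
    simpa using hu

open Classical in
theorem card_units_filter (Q : K → Prop) (hQ : Q 0) :
    ((univ : Finset Kˣ).filter fun u : Kˣ => Q (u : K)).card + 1 =
      ((univ : Finset K).filter Q).card := by
  have h : ((univ : Finset Kˣ).filter fun u : Kˣ => Q (u : K)).card =
      (((univ : Finset K).filter Q).erase 0).card := by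
    refine Finset.card_bij (fun u _ => (u : K)) ?_ ?_ ?_
    · intro u hu
      simpa using hu
    · intro u _ v _ h; exact Units.ext h
    · intro x hx
      simp only [mem_erase, mem_filter, mem_univ, true_and] at hx
      exact ⟨Units.mk0 x hx.1, by simpa using hx.2, rfl⟩
  rw [h, Finset.card_erase_of_mem (by simpa using hQ)]
  have : 0 < ((univ : Finset K).filter Q).card := Finset.card_pos.2 ⟨0, by simpa using hQ⟩
  omega

open Classical in
theorem card_ker {V : Type} [AddCommGroup V] [Module F V] [Fintype V] (f : K →ₗ[F] V)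
    (hf : Function.Surjective f) :
    ((univ : Finset K).filter fun x => f x = 0).card * Fintype.card V = Fintype.card K := by
  have h1 : Fintype.card K = Nat.card (LinearMap.ker f) * Nat.card (LinearMap.range f) := by
    rw [← Nat.card_eq_fintype_card, Submodule.card_eq_card_quotient_mul_card (LinearMap.ker f)]
    congr 1
    exact Nat.card_congr f.quotKerEquivRange.toEquiv
  rw [h1, LinearMap.range_eq_top.2 hf]
  congr 1
  · rw [Nat.card_eq_fintype_card, Fintype.card_subtype]
    congr 1
  · rw [← Nat.card_eq_fintype_card]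
    exact (Nat.card_congr (Submodule.topEquiv (R := F) (M := V)).toEquiv).symm

/-- `1 + q + ... + q^(n-1)`. -/
def th (q n : ℕ) : ℕ := ∑ i ∈ range n, q ^ i

theorem th_succ (q n : ℕ) : th q (n + 1) = th q n + q ^ n := Finset.sum_range_succ _ _

theorem th_mul (q : ℕ) (hq : 1 ≤ q) (n : ℕ) : th q n * (q - 1) + 1 = q ^ n := by
  obtain ⟨r, rfl⟩ := Nat.exists_eq_add_of_le hq
  simp only [Nat.add_sub_cancel_left]
  induction n with
  | zero => simp [th]
  | succ n ih =>
    rw [th_succ, pow_succ, add_mul, mul_add, mul_one]
    linarith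

variable (F K) in
theorem card_K : Fintype.card K = Fintype.card F ^ Module.finrank F K := Module.card_eq_pow_finrank

theorem card_F_ge : 2 ≤ Fintype.card F := Fintype.one_lt_card

open Classical in
theorem card_of_vectors (P : G F K → Prop) (Q : K → Prop) (hQ : Q 0)
    (hPQ : ∀ u : Kˣ, P (cl u) ↔ Q u) (n : ℕ)
    (hn : ((univ : Finset K).filter Q).card = Fintype.card F ^ n) :
    ((univ : Finset (G F K)).filter P).card = th (Fintype.card F) n := by
  have h1 := card_classes P
  have h2 := card_units_filter Q hQ
  have h3 : ((univ : Finset Kˣ).filter fun u => P (cl u)) =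
      ((univ : Finset Kˣ).filter fun u : Kˣ => Q (u : K)) := by
    ext u; simp [hPQ]
  have h5 := card_F_ge (F := F)
  have h4 := th_mul (Fintype.card F) (by omega) n
  rw [h3] at h1
  have h6 : ((univ : Finset (G F K)).filter P).card * (Fintype.card F - 1) =
      th (Fintype.card F) n * (Fintype.card F - 1) := by omega
  exact Nat.eq_of_mul_eq_mul_right (by omega) h6

theorem card_G : Fintype.card (G F K) = th (Fintype.card F) (Module.finrank F K) := by
  classical
  have h := card_of_vectors (F := F) (K := K) (fun _ => True) (fun _ => True) trivial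
    (fun _ => Iff.rfl) (Module.finrank F K) (by rw [← card_K F K]; simp)
  simpa using h

theorem tr_surj : Function.Surjective (fun x : K => (tr x : F)) := Algebra.trace_surjective F K

theorem tr_nondeg (y : K) (h : ∀ x : K, (tr (x * y) : F) = 0) : y = 0 := by
  by_contra hy
  obtain ⟨x, hx⟩ := tr_surj (F := F) (K := K) 1
  have h1 := h (x * y⁻¹)
  rw [mul_assoc, inv_mul_cancel₀ hy, mul_one] at h1
  simp only at hx
  rw [hx] at h1
  exact one_ne_zero h1

/-- The functional `x ↦ tr (x * y)`. -/
noncomputable def fn (y : K) : K →ₗ[F] F :=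
  (Algebra.trace F K).comp (LinearMap.mulRight F y)

theorem fn_apply (y x : K) : fn y x = (tr (x * y) : F) := rfl

theorem fn_surj (y : K) (hy : y ≠ 0) : Function.Surjective (fn (F := F) y) := by
  intro b
  obtain ⟨x, hx⟩ := tr_surj (F := F) (K := K) b
  refine ⟨x * y⁻¹, ?_⟩
  rw [fn_apply, mul_assoc, inv_mul_cancel₀ hy, mul_one]
  exact hx

open Classical in
theorem card_one (p : G F K) :
    ((univ : Finset (G F K)).filter fun a => tz (a * p)).card =
      th (Fintype.card F) (Module.finrank F K - 1) := by
  refine card_of_vectors _ (fun x => fn (F := F) (rp p) x = 0) (map_zero _) ?_ _ ?_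
  · intro u
    rw [mul_comm, tz_mul_cl, fn_apply, mul_comm]
  · have h := card_ker (fn (F := F) (rp p)) (fn_surj _ (rp_ne p))
    rw [card_K F K] at h
    have hd : 0 < Module.finrank F K := Module.finrank_pos
    obtain ⟨e, he⟩ : ∃ e, Module.finrank F K = e + 1 := ⟨Module.finrank F K - 1, by omega⟩
    rw [he] at h ⊢
    rw [pow_succ] at h
    simpa using Nat.eq_of_mul_eq_mul_right (by have := card_F_ge (F := F); omega) h

theorem pair_surj (p p' : G F K) (hp : p ≠ p') :
    Function.Surjective ((fn (F := F) (rp p)).prod (fn (F := F) (rp p'))) := by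
  -- first: some `x` with `tr (x p') = 0` and `tr (x p) ≠ 0`
  have hstep : ∀ p p' : G F K, p ≠ p' →
      ∃ x : K, (tr (x * rp p') : F) = 0 ∧ (tr (x * rp p) : F) = 1 := by
    intro p p' hp
    have h1 : ∃ x : K, (tr (x * rp p') : F) = 0 ∧ (tr (x * rp p) : F) ≠ 0 := by
      by_contra hcon
      push Not at hcon
      obtain ⟨x0, hx0⟩ := fn_surj (F := F) (rp p') (rp_ne p') 1
      rw [fn_apply] at hx0
      have h2 : rp p - algebraMap F K (tr (x0 * rp p)) * rp p' = 0 := by
        refine tr_nondeg (F := F) _ fun x => ?_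
        have h3 := hcon (x - algebraMap F K (tr (x * rp p')) * x0) (by
          rw [sub_mul, tr, map_sub, mul_assoc]
          have := tr_smul (F := F) (tr (x * rp p')) (x0 * rp p')
          simp only [tr] at this hx0 ⊢
          rw [this, hx0, mul_one, sub_self])
        rw [sub_mul, tr, map_sub, mul_assoc] at h3
        have h4 := tr_smul (F := F) (tr (x * rp p')) (x0 * rp p)
        simp only [tr] at h4 h3 ⊢
        rw [h4] at h3
        rw [mul_sub, map_sub, mul_left_comm x]
        have h5 := tr_smul (F := F) (tr (x0 * rp p)) (x * rp p')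
        simp only [tr] at h5
        rw [h5, sub_eq_zero.1 h3]
        ring
      have h6 : rp p = algebraMap F K (tr (x0 * rp p)) * rp p' := sub_eq_zero.1 h2
      have h7 : (tr (x0 * rp p) : F) ≠ 0 := by
        intro h
        rw [h, map_zero, zero_mul] at h6
        exact rp_ne p h6
      apply hp
      rw [← cl_ru p, ← cl_ru p']
      symm
      rw [cl_eq_iff]
      exact ⟨Units.mk0 _ h7, by simpa [rp] using h6⟩
    obtain ⟨x, hx1, hx2⟩ := h1
    refine ⟨algebraMap F K (tr (x * rp p))⁻¹ * x, ?_, ?_⟩
    · rw [mul_assoc, tr_smul, hx1, mul_zero]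
    · rw [mul_assoc, tr_smul, inv_mul_cancel₀ hx2]
  obtain ⟨x, hx1, hx2⟩ := hstep p p' hp
  obtain ⟨y, hy1, hy2⟩ := hstep p' p hp.symm
  rintro ⟨b, b'⟩
  refine ⟨algebraMap F K b * x + algebraMap F K b' * y, ?_⟩
  change ((fn _ _ : F), (fn _ _ : F)) = _
  simp only [fn_apply, add_mul, mul_assoc]
  simp only [tr, map_add]
  have e1 := tr_smul (F := F) b (x * rp p)
  have e2 := tr_smul (F := F) b' (y * rp p)
  have e3 := tr_smul (F := F) b (x * rp p')
  have e4 := tr_smul (F := F) b' (y * rp p')
  simp only [tr] at e1 e2 e3 e4 hx1 hx2 hy1 hy2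
  rw [e1, e2, e3, e4, hx1, hx2, hy1, hy2]
  simp

open Classical in
theorem card_two (p p' : G F K) (hp : p ≠ p') (hd : 2 ≤ Module.finrank F K) :
    ((univ : Finset (G F K)).filter fun a => tz (a * p) ∧ tz (a * p')).card =
      th (Fintype.card F) (Module.finrank F K - 2) := by
  have hcv := card_of_vectors (F := F) (K := K) (fun a => tz (a * p) ∧ tz (a * p'))
    (fun x : K => ((fn (F := F) (rp p)).prod (fn (F := F) (rp p'))) x = 0) (map_zero _) ?_
    (Module.finrank F K - 2) ?_
  · rw [← hcv]
    refine congrArg Finset.card ?_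
    ext a
    simp only [mem_filter]
  · intro u
    change _ ↔ ((fn _ _ : F), (fn _ _ : F)) = 0
    rw [mul_comm, tz_mul_cl, mul_comm (cl u) p', tz_mul_cl,
      Prod.mk_eq_zero, fn_apply, fn_apply, mul_comm (u : K) (rp p), mul_comm (u : K) (rp p')]
  · have h := card_ker ((fn (F := F) (rp p)).prod (fn (F := F) (rp p'))) (pair_surj p p' hp)
    rw [card_K F K] at h
    obtain ⟨e, he⟩ : ∃ e, Module.finrank F K = e + 2 := ⟨Module.finrank F K - 2, by omega⟩
    rw [he] at h ⊢
    rw [Fintype.card_prod, pow_add, pow_two] at h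
    have h2 := card_F_ge (F := F)
    have h3 : 0 < Fintype.card F * Fintype.card F := by positivity
    simpa using Nat.eq_of_mul_eq_mul_right h3 h

/-- A family of bijections `h x` of the projective points (`h x p` is the class of the hyperplane
in the cell in row `p` and column `x`). -/
structure Good (h : K → G F K → G F K) : Prop where
  inj : ∀ x, Function.Injective (h x)
  ne : ∀ x p, ¬ tz (h x p * p)
  key : ∀ x x' p, h x p = h x' p →
    (tr (rp (h x p) * x) : F) = tr (rp (h x p) * x') → x = x'

/-- The array: row `p`, column `x`, symbols are the affine hyperplanes `(a, b)`,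
i.e. `tr (a * x) = b`. -/
noncomputable def arr (h : K → G F K → G F K) (p : G F K) (x : K) : G F K × F :=
  (h x p, tr (rp (h x p) * x))

variable {h : K → G F K → G F K}

theorem arr_row_inj (H : Good h) (p : G F K) : Function.Injective (arr h p) := by
  intro x x' hx
  unfold arr at hx
  rw [Prod.mk.injEq] at hx
  obtain ⟨h1, h2⟩ := hx
  refine H.key x x' p h1 ?_
  rw [h2, h1]

theorem arr_col_inj (H : Good h) (x : K) : Function.Injective fun p => arr h p x := by
  intro p p' hp
  exact H.inj x (congrArg Prod.fst hp)

open Classical in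
theorem col_image (H : Good h) (x : K) :
    Finset.univ.image (fun p => arr h p x) =
      Finset.univ.filter fun s : G F K × F => (tr (rp s.1 * x) : F) = s.2 := by
  ext ⟨a, b⟩
  simp only [mem_image, mem_univ, true_and, mem_filter]
  constructor
  · rintro ⟨p, hp⟩
    unfold arr at hp
    rw [Prod.mk.injEq] at hp
    rw [← hp.2, hp.1]
  · intro hb
    obtain ⟨p, hp⟩ := (Finite.injective_iff_surjective.1 (H.inj x)) a
    exact ⟨p, by unfold arr; rw [hp, hb]⟩

open Classical in
theorem card_nz (p : G F K) :
    ((univ : Finset (G F K)).filter fun a => ¬ tz (a * p)).card =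
      Fintype.card F ^ (Module.finrank F K - 1) := by
  have h1 := Finset.card_filter_add_card_filter_not (s := (univ : Finset (G F K)))
    (fun a => tz (a * p))
  rw [card_one, Finset.card_univ, card_G] at h1
  have hd : 0 < Module.finrank F K := Module.finrank_pos
  obtain ⟨e, he⟩ : ∃ e, Module.finrank F K = e + 1 := ⟨Module.finrank F K - 1, by omega⟩
  rw [he] at h1 ⊢
  rw [th_succ] at h1
  simp only [Nat.add_sub_cancel] at h1 ⊢
  omega

open Classical in
theorem row_image (H : Good h) (p : G F K) :
    Finset.univ.image (arr h p) =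
      Finset.univ.filter fun s : G F K × F => ¬ tz (s.1 * p) := by
  refine Finset.eq_of_subset_of_card_le ?_ ?_
  · intro s hs
    simp only [mem_image, mem_univ, true_and, mem_filter] at hs ⊢
    obtain ⟨x, rfl⟩ := hs
    exact H.ne x p
  · rw [Finset.card_image_of_injective _ (arr_row_inj H p), Finset.card_univ, card_K F K]
    have h2 : (Finset.univ.filter fun s : G F K × F => ¬ tz (s.1 * p)) =
        ((univ : Finset (G F K)).filter fun a => ¬ tz (a * p)) ×ˢ (univ : Finset F) := by
      ext ⟨a, b⟩; simp
    rw [h2, Finset.card_product, card_nz, Finset.card_univ]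
    have hd : 0 < Module.finrank F K := Module.finrank_pos
    rw [← pow_succ, Nat.sub_add_cancel hd]

open Classical in
theorem card_nz_two (p p' : G F K) (hp : p ≠ p') (hd : 2 ≤ Module.finrank F K) :
    ((univ : Finset (G F K)).filter fun a => ¬ tz (a * p) ∧ ¬ tz (a * p')).card +
      Fintype.card F ^ (Module.finrank F K - 2) = Fintype.card F ^ (Module.finrank F K - 1) := by
  have h1 := Finset.card_filter_add_card_filter_not
    (s := (univ : Finset (G F K)).filter fun a => ¬ tz (a * p)) (fun a => tz (a * p'))
  have h2 := Finset.card_filter_add_card_filter_not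
    (s := (univ : Finset (G F K)).filter fun a => tz (a * p')) (fun a => tz (a * p))
  rw [Finset.filter_filter, Finset.filter_filter] at h1 h2
  have h3 := card_two p p' hp hd
  have h4 := card_one (F := F) (K := K) p'
  have h5 := card_nz (F := F) (K := K) p
  obtain ⟨e, he⟩ : ∃ e, Module.finrank F K = e + 2 := ⟨Module.finrank F K - 2, by omega⟩
  rw [he] at h3 h4 h5 ⊢
  simp only [show e + 2 - 1 = e + 1 from rfl, show e + 2 - 2 = e from rfl] at h3 h4 h5 ⊢
  rw [th_succ] at h4
  have h6 : ((univ : Finset (G F K)).filter fun a => tz (a * p') ∧ tz (a * p)) =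
      ((univ : Finset (G F K)).filter fun a => tz (a * p) ∧ tz (a * p')) := by
    ext a; simp [and_comm]
  have h7 : ((univ : Finset (G F K)).filter fun a => tz (a * p') ∧ ¬ tz (a * p)) =
      ((univ : Finset (G F K)).filter fun a => ¬ tz (a * p) ∧ tz (a * p')) := by
    ext a; simp [and_comm]
  rw [h6, h7] at h2
  omega

open Classical in
theorem isTripleArray (H : Good h) (hd : 2 ≤ Module.finrank F K) :
    IsTripleArray (arr h) (Fintype.card F ^ (Module.finrank F K - 1))
      (Fintype.card F ^ (Module.finrank F K - 1) * (Fintype.card F - 1))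
      (th (Fintype.card F) (Module.finrank F K - 1))
      (Fintype.card F ^ (Module.finrank F K - 1)) where
  row_inj := arr_row_inj H
  col_inj := arr_col_inj H
  symb := by
    rintro ⟨a, b⟩
    rw [← card_nz (1 : G F K)]
    have h0 : ((univ : Finset (G F K)).filter fun g => ¬ tz (g * 1)).card =
        ((univ : Finset (G F K)).filter fun p => ¬ tz (a * p)).card := by
      refine Finset.card_bij (fun g _ => a⁻¹ * g) ?_ ?_ ?_
      · intro g hg
        simpa using hg
      · intro g _ g' _ hg
        exact mul_left_cancel hg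
      · intro p hp
        exact ⟨a * p, by simpa using hp, by simp⟩
    rw [h0]
    refine Finset.card_bij (fun s _ => s.1) ?_ ?_ ?_
    · rintro ⟨p, x⟩ hs
      simp only [mem_filter, mem_univ, true_and] at hs ⊢
      have h1 : (a, b) ∈ Finset.univ.image (arr h p) := by
        rw [← hs]; exact mem_image_of_mem _ (mem_univ x)
      rw [row_image H] at h1
      simpa using h1
    · rintro ⟨p, x⟩ hs ⟨p', x'⟩ hs' hpp
      simp only [mem_filter, mem_univ, true_and] at hs hs' hpp
      subst hpp
      rw [arr_row_inj H p (hs.trans hs'.symm)]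
    · intro p hp
      have h1 : (a, b) ∈ Finset.univ.image (arr h p) := by
        rw [row_image H]
        simpa using hp
      rw [mem_image] at h1
      obtain ⟨x, _, hx⟩ := h1
      exact ⟨(p, x), by simpa using hx, rfl⟩
  rr := by
    intro p p' hp
    rw [row_image H, row_image H, ← Finset.filter_and]
    have h2 : (Finset.univ.filter fun s : G F K × F => ¬ tz (s.1 * p) ∧ ¬ tz (s.1 * p')) =
        ((univ : Finset (G F K)).filter fun a => ¬ tz (a * p) ∧ ¬ tz (a * p')) ×ˢ
          (univ : Finset F) := by
      ext ⟨a, b⟩; simp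
    rw [h2, Finset.card_product, Finset.card_univ]
    have h3 := card_nz_two p p' hp hd
    obtain ⟨e, he⟩ : ∃ e, Module.finrank F K = e + 2 := ⟨Module.finrank F K - 2, by omega⟩
    rw [he] at h3 ⊢
    simp only [show e + 2 - 1 = e + 1 from rfl, show e + 2 - 2 = e from rfl] at h3 ⊢
    have h4 := card_F_ge (F := F)
    set n := ((univ : Finset (G F K)).filter fun a => ¬ tz (a * p) ∧ ¬ tz (a * p')).card
    set q := Fintype.card F
    obtain ⟨r, hr⟩ : ∃ r, q = r + 1 := ⟨q - 1, by omega⟩
    rw [hr] at h3 ⊢
    rw [Nat.add_sub_cancel]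
    rw [pow_succ] at h3 ⊢
    nlinarith
  cc := by
    intro x x' hx
    rw [col_image H, col_image H, ← Finset.filter_and]
    have hy : x - x' ≠ 0 := sub_ne_zero.2 hx
    rw [← card_one (cl (Units.mk0 _ hy) : G F K)]
    refine Finset.card_bij (fun s _ => s.1) ?_ ?_ ?_
    · rintro ⟨a, b⟩ hs
      simp only [mem_filter, mem_univ, true_and] at hs ⊢
      rw [tz_mul_cl]
      simp only [Units.val_mk0]
      rw [mul_sub, tr, map_sub]
      simp only [tr] at hs
      rw [hs.1, hs.2, sub_self]
    · rintro ⟨a, b⟩ hs ⟨a', b'⟩ hs' haa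
      simp only [mem_filter, mem_univ, true_and] at hs hs' haa
      subst haa
      rw [← hs.1, ← hs'.1]
    · intro a ha
      simp only [mem_filter, mem_univ, true_and] at ha
      rw [tz_mul_cl] at ha
      simp only [Units.val_mk0] at ha
      rw [mul_sub, tr, map_sub, sub_eq_zero] at ha
      exact ⟨(a, tr (rp a * x)), by simpa using ha.symm, rfl⟩
  rc := by
    intro p x
    rw [row_image H, col_image H, ← Finset.filter_and, ← card_nz p]
    refine Finset.card_bij (fun s _ => s.1) ?_ ?_ ?_
    · rintro ⟨a, b⟩ hs
      simp only [mem_filter, mem_univ, true_and] at hs ⊢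
      exact hs.1
    · rintro ⟨a, b⟩ hs ⟨a', b'⟩ hs' haa
      simp only [mem_filter, mem_univ, true_and] at hs hs' haa
      subst haa
      rw [← hs.2, ← hs'.2]
    · intro a ha
      simp only [mem_filter, mem_univ, true_and] at ha
      exact ⟨(a, tr (rp a * x)), by simpa using ha, rfl⟩

end counting

end Pool.Agent.Lib.MP_6fba53_co.PG
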