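import Pool.Agent.Lib.MP_6fba53_co.PGBasic

set_option autoImplicit false

/-! # Families given in coordinates -/

namespace Pool.Agent.Lib.MP_6fba53_co.PG

/-- A family of normal vectors `H x p` (`x` a point, `p ≠ 0` a direction) in coordinates. -/
structure CGood {F ι : Type} [Field F] [Fintype ι] (H : (ι → F) → (ι → F) → (ι → F)) : Prop where
  inj : ∀ x p p' : ι → F, p ≠ 0 → p' ≠ 0 → ∀ m : F, m ≠ 0 → H x p = m • H x p' →
    ∃ l : F, p = l • p'
  ne : ∀ x p : ι → F, p ≠ 0 → H x p ⬝ᵥ p ≠ 0
  key : ∀ x x' p : ι → F, p ≠ 0 → ∀ m : F, m ≠ 0 → H x p = m • H x' p →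
    H x p ⬝ᵥ x = H x p ⬝ᵥ x' → x = x'

/-- Transport along a ring isomorphism. -/
theorem CGood.map {F F' ι : Type} [Field F] [Field F'] [Fintype ι]
    {H : (ι → F) → (ι → F) → (ι → F)} (hH : CGood H) (e : F ≃+* F') :
    CGood (fun (x p : ι → F') => fun i => e (H (fun j => e.symm (x j)) (fun j => e.symm (p j)) i)) := by
  have hz : ∀ p : ι → F', p ≠ 0 → (fun j => e.symm (p j)) ≠ 0 := by
    intro p hp h
    apply hp
    funext j
    have := congrFun h j
    simpa using this
  have hd : ∀ a (x : ι → F'), (fun i => e (a i)) ⬝ᵥ x = e (a ⬝ᵥ fun j => e.symm (x j)) := by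
    intro a x
    simp only [dotProduct, map_sum, map_mul, RingEquiv.apply_symm_apply]
  have hsm : ∀ (a b : ι → F) (m : F'), (fun i => e (a i)) = m • (fun i => e (b i)) →
      a = e.symm m • b := by
    intro a b m h
    funext i
    have := congrFun h i
    simp only [Pi.smul_apply, smul_eq_mul] at this ⊢
    apply e.injective
    rw [this, map_mul, RingEquiv.apply_symm_apply]
  refine ⟨?_, ?_, ?_⟩
  · intro x p p' hp hp' m hm h
    obtain ⟨l, hl⟩ := hH.inj _ _ _ (hz p hp) (hz p' hp') (e.symm m) (by simpa using hm) (hsm _ _ _ h)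
    refine ⟨e l, ?_⟩
    funext i
    have := congrFun hl i
    simp only [Pi.smul_apply, smul_eq_mul] at this ⊢
    apply e.symm.injective
    rw [this, map_mul, RingEquiv.symm_apply_apply]
  · intro x p hp
    rw [hd]
    intro h
    exact hH.ne _ _ (hz p hp) (by simpa using h)
  · intro x x' p hp m hm h hxx
    rw [hd, hd] at hxx
    have := hH.key _ _ _ (hz p hp) (e.symm m) (by simpa using hm) (hsm _ _ _ h) (e.injective hxx)
    funext i
    exact e.symm.injective (congrFun this i)

section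

variable {F K ι : Type} [Field F] [Field K] [Algebra F K] [Fintype F] [Fintype K] [Fintype ι]

theorem exists_dual (b : Module.Basis ι F K) (a : ι → F) :
    ∃ y : K, ∀ x : K, (tr (y * x) : F) = a ⬝ᵥ b.equivFun x := by
  classical
  let f : K →ₗ[F] (ι → F) :=
    LinearMap.pi fun i => (Algebra.trace F K).comp (LinearMap.mulRight F (b i))
  have hf : ∀ y i, f y i = (tr (y * b i) : F) := fun y i => rfl
  have hlin : ∀ y x : K, (tr (y * x) : F) = f y ⬝ᵥ b.equivFun x := by
    intro y x
    conv_lhs => rw [← b.sum_equivFun x]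
    unfold tr
    rw [Finset.mul_sum, map_sum]
    unfold dotProduct
    refine Finset.sum_congr rfl fun i _ => ?_
    rw [hf, mul_comm y, smul_mul_assoc, map_smul, smul_eq_mul, mul_comm, mul_comm (b i)]
  have hinj : Function.Injective f := by
    rw [injective_iff_map_eq_zero]
    intro y hy
    refine tr_nondeg (F := F) y fun x => ?_
    rw [mul_comm, hlin, hy, zero_dotProduct]
  have hcard : Fintype.card K = Fintype.card (ι → F) := Fintype.card_congr b.equivFun.toEquiv
  have hbij := (Fintype.bijective_iff_injective_and_card f).2 ⟨hinj, hcard⟩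
  obtain ⟨y, hy⟩ := hbij.2 a
  exact ⟨y, fun x => by rw [hlin, hy]⟩

theorem CGood.exists_good {H : (ι → F) → (ι → F) → (ι → F)} (hH : CGood H)
    (b : Module.Basis ι F K) : ∃ h : K → G F K → G F K, Good h := by
  have hz : ∀ g : G F K, b.equivFun (rp g) ≠ 0 := by
    intro g h
    exact rp_ne g (by simpa using h)
  have hex : ∀ (x : K) (g : G F K), ∃ u : Kˣ, ∀ y : K,
      (tr ((u : K) * y) : F) = H (b.equivFun x) (b.equivFun (rp g)) ⬝ᵥ b.equivFun y := by
    intro x g
    obtain ⟨y, hy⟩ := exists_dual b (H (b.equivFun x) (b.equivFun (rp g)))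
    have hy0 : y ≠ 0 := by
      rintro rfl
      apply hH.ne (b.equivFun x) _ (hz g)
      rw [← hy, zero_mul]
      exact map_zero _
    exact ⟨Units.mk0 y hy0, hy⟩
  choose u hu using hex
  have hvec : ∀ (a a' : ι → F) (w w' : K) (l : F), (∀ y : K, (tr (w * y) : F) = a ⬝ᵥ b.equivFun y) →
      (∀ y : K, (tr (w' * y) : F) = a' ⬝ᵥ b.equivFun y) → w' = algebraMap F K l * w →
      a' = l • a := by
    classical
    intro a a' w w' l hw hw' hl
    funext i
    have h1 := hw (b i)
    have h2 := hw' (b i)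
    rw [hl, mul_assoc, tr_smul, h1] at h2
    have h3 : b.equivFun (b i) = Pi.single i 1 := by
      funext j
      rw [Module.Basis.equivFun_self, Pi.single_apply]
      simp only [eq_comm]
    rw [h3, dotProduct_single, dotProduct_single, mul_one, mul_one] at h2
    rw [Pi.smul_apply, smul_eq_mul]
    exact h2.symm
  refine ⟨fun x g => cl (u x g), ?_, ?_, ?_⟩
  · intro x g g' h
    obtain ⟨l, hl⟩ := (cl_eq_iff _ _).1 h
    have h1 := hvec _ _ _ _ _ (hu x g) (hu x g') hl
    obtain ⟨m, hm⟩ := hH.inj _ _ _ (hz g') (hz g) l l.ne_zero h1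
    rw [← cl_ru g, ← cl_ru g', cl_eq_iff]
    have hm0 : m ≠ 0 := by
      rintro rfl
      rw [zero_smul] at hm
      exact hz g' hm
    refine ⟨Units.mk0 m hm0, ?_⟩
    apply b.equivFun.injective
    change b.equivFun (rp g') = b.equivFun (algebraMap F K m * rp g)
    rw [hm, ← Algebra.smul_def, map_smul]
  · intro x g
    rw [mul_comm, tz_mul_cl, mul_comm, hu]
    exact hH.ne _ _ (hz g)
  · intro x x' g h ht
    have h0 : (cl (u x g) : G F K) = cl (u x' g) := h
    obtain ⟨l, hl⟩ := (cl_eq_iff _ _).1 h0.symm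
    have h1 := hvec _ _ _ _ _ (hu x' g) (hu x g) hl
    obtain ⟨m, hm⟩ := (cl_eq_iff _ _).1 (cl_ru (cl (u x g) : G F K))
    apply b.equivFun.injective
    refine hH.key _ _ _ (hz g) l l.ne_zero h1 ?_
    rw [← hu, ← hu, hm, mul_assoc, mul_assoc, tr_smul, tr_smul]
    have h2 : rp (cl (u x g) : G F K) = (ru (cl (u x g) : G F K) : K) := rfl
    rw [← h2]
    congr 1

end

end Pool.Agent.Lib.MP_6fba53_co.PG
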