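import Pool.Agent.Lib.MP_6fba53_co.PGBasic
import Pool.Agent.Lib.MP_6fba53_co.Koenig

set_option autoImplicit false

/-! # The construction for even `q` and odd dimension -/

namespace Pool.Agent.Lib.MP_6fba53_co.PG

open Finset

variable {F K : Type} [Field F] [Field K] [Algebra F K] [Fintype F] [Fintype K]
  [CharP F 2] [CharP K 2]

omit [Fintype F] [CharP F 2] in
theorem tr_sq (x : K) : (tr (x ^ 2) : F) = (tr x) ^ 2 := by
  apply (algebraMap F K).injective
  unfold tr
  rw [map_pow (algebraMap F K), FiniteField.algebraMap_trace_eq_sum_pow,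
    FiniteField.algebraMap_trace_eq_sum_pow, sum_pow_char 2]
  refine Finset.sum_congr rfl fun i _ => ?_
  rw [← pow_mul, ← pow_mul, mul_comm]

omit [Fintype F] [Fintype K] [CharP K 2] in
theorem tr_one (hodd : Odd (Module.finrank F K)) : (tr (1 : K) : F) = 1 := by
  have h := Algebra.trace_algebraMap (R := F) (S := K) (1 : F)
  unfold tr
  rw [map_one] at h
  rw [h, nsmul_eq_mul, mul_one]
  obtain ⟨k, hk⟩ := hodd
  rw [hk]
  push_cast
  have h2 : (2 : F) = 0 := by exact_mod_cast CharP.cast_eq_zero F 2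
  rw [h2]; ring

omit [CharP F 2] in
theorem exists_sq (l : F) [CharP F 2] : ∃ m : F, m ^ 2 = l :=
  ((Finite.injective_iff_surjective).1 (frobenius_inj F 2)) l

omit [Fintype K] in
theorem sq_inj (g g' : G F K) (h : g ^ 2 = g' ^ 2) : g = g' := by
  rw [← cl_ru g, ← cl_ru g'] at h ⊢
  rw [← map_pow, ← map_pow, cl_eq_iff] at h
  obtain ⟨l, hl⟩ := h
  obtain ⟨m, hm⟩ := exists_sq (l : F)
  rw [cl_eq_iff]
  have hm0 : m ≠ 0 := by
    rintro rfl
    exact l.ne_zero (by rw [← hm]; simp)
  refine ⟨Units.mk0 m hm0, ?_⟩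
  rw [Units.val_pow_eq_pow_val, Units.val_pow_eq_pow_val, ← hm, map_pow, ← mul_pow] at hl
  exact frobenius_inj K 2 hl

omit [Fintype F] [CharP F 2] in
theorem tz_sq (g : G F K) : tz (g ^ 2) ↔ tz g := by
  rw [← cl_ru g, ← map_pow, tz_cl, tz_cl, Units.val_pow_eq_pow_val, tr_sq, sq_eq_zero_iff]

/-- Units of trace zero. -/
abbrev ZZ (F K : Type) [Field F] [Field K] [Algebra F K] : Type :=
  {z : Kˣ // (tr (z : K) : F) = 0}

/-- Classes of trace zero. -/
abbrev DD (F K : Type) [Field F] [Field K] [Algebra F K] : Type := {g : G F K // tz g}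

/-- The class of an element of trace zero. -/
noncomputable def mm (z : ZZ F K) : DD F K := ⟨cl z.1, (tz_cl z.1).2 z.2⟩

section W

variable (hodd : Odd (Module.finrank F K))

omit [Fintype F] [Fintype K] [CharP K 2] in
include hodd in
theorem add_one_ne (z : ZZ F K) : (z.1 : K) + 1 ≠ 0 := by
  intro h
  have h2 : (tr ((z.1 : K) + 1) : F) = 1 := by
    have := z.2
    unfold tr at this ⊢
    rw [map_add, this, zero_add]
    exact tr_one hodd
  rw [h] at h2
  simp at h2

/-- `z + 1` as a unit. -/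
noncomputable def uz (z : ZZ F K) : Kˣ := Units.mk0 ((z.1 : K) + 1) (add_one_ne hodd z)

omit [Fintype F] [Fintype K] [CharP K 2] in
theorem tr_uz (z : ZZ F K) : (tr (uz hodd z : K) : F) = 1 := by
  have := z.2
  unfold tr at this ⊢
  rw [uz, Units.val_mk0, map_add, this, zero_add]
  exact tr_one hodd

/-- `z ^ 2 + z`. -/
noncomputable def ww (z : ZZ F K) : ZZ F K :=
  ⟨z.1 * uz hodd z, by
    rw [Units.val_mul, uz, Units.val_mk0, mul_add, mul_one, ← pow_two, tr, map_add]
    have h1 := tr_sq (F := F) (z.1 : K)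
    have h2 := z.2
    unfold tr at h1 h2
    rw [h1, h2]; ring⟩

omit [Fintype F] in
theorem ww_inj : Function.Injective (ww hodd) := by
  intro z z' h
  have h1 : (z.1 : K) * (z.1 + 1) = z'.1 * (z'.1 + 1) := by
    have := congrArg (fun t : ZZ F K => (t.1 : K)) h
    simpa [ww, uz] using this
  have h2 : ((z.1 : K) - z'.1) * (z.1 + z'.1 + 1) = 0 := by
    linear_combination h1
  rcases mul_eq_zero.1 h2 with h3 | h3
  · exact Subtype.ext (Units.ext (sub_eq_zero.1 h3))
  · exfalso
    have h4 : (tr ((z.1 : K) + z'.1 + 1) : F) = 1 := by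
      have := z.2
      have h5 := z'.2
      unfold tr at this h5 ⊢
      rw [map_add, map_add, this, h5, zero_add, zero_add]
      exact tr_one hodd
    rw [h3] at h4
    simp at h4

omit [Fintype F] in
theorem uz_class (z z' : ZZ F K) (h : (cl (uz hodd z) : G F K) = cl (uz hodd z')) : z = z' := by
  rw [cl_eq_iff] at h
  obtain ⟨l, hl⟩ := h
  have h1 := tr_uz hodd z'
  rw [hl, tr_smul, tr_uz hodd z, mul_one] at h1
  rw [h1, map_one, one_mul] at hl
  have h2 : (z'.1 : K) + 1 = z.1 + 1 := by simpa [uz] using hl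
  exact Subtype.ext (Units.ext (by linear_combination -h2))

omit [Fintype F] in
theorem uz_class_ne (z : ZZ F K) (h : (cl (uz hodd z) : G F K) = 1) : False := by
  have h0 : (cl (1 : Kˣ) : G F K) = cl (uz hodd z) := by rw [h, map_one]
  rw [cl_eq_iff] at h0
  obtain ⟨l, hl⟩ := h0
  have h1 := tr_uz hodd z
  rw [hl, Units.val_one, tr_smul, tr_one hodd, mul_one] at h1
  rw [h1, map_one, one_mul, Units.val_one] at hl
  have h2 : (z.1 : K) + 1 = 1 := hl
  exact z.1.ne_zero (by linear_combination h2)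

end W

open Classical in
theorem card_fiber_mm (g : DD F K) :
    ((univ : Finset (ZZ F K)).filter fun z => mm z = g).card = Fintype.card F - 1 := by
  rw [← card_fiber g.1]
  refine Finset.card_bij (fun z _ => z.1) ?_ ?_ ?_
  · intro z hz
    simp only [mem_filter, mem_univ, true_and] at hz ⊢
    rw [← hz]; rfl
  · intro z _ z' _ h; exact Subtype.ext h
  · intro u hu
    simp only [mem_filter, mem_univ, true_and] at hu
    refine ⟨⟨u, ?_⟩, ?_, rfl⟩
    · rw [← tz_cl, hu]; exact g.2
    · simp only [mem_filter, mem_univ, true_and]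
      exact Subtype.ext hu

theorem exists_mu : ∃ mu : Kˣ → Fˣ, ∀ u : Kˣ,
    (u : K) = algebraMap F K (mu u) * ru (cl u : G F K) := by
  have h : ∀ u : Kˣ, ∃ l : Fˣ, (u : K) = algebraMap F K l * ru (cl u : G F K) := fun u =>
    (cl_eq_iff _ _).1 (cl_ru (cl u : G F K))
  choose mu hmu using h
  exact ⟨mu, hmu⟩

theorem exists_good (hodd : Odd (Module.finrank F K)) :
    ∃ h : K → G F K → G F K, Good h := by
  classical
  have hkW : ∀ g : DD F K, ((univ : Finset (ZZ F K)).filter fun z => mm (ww hodd z) = g).card =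
      Fintype.card F - 1 := by
    intro g
    rw [← card_fiber_mm g]
    refine Finset.card_bij (fun z _ => ww hodd z) ?_ ?_ ?_
    · intro z hz; simpa using hz
    · intro z _ z' _ h; exact ww_inj hodd h
    · intro z hz
      obtain ⟨y, rfl⟩ := (Finite.injective_iff_surjective.1 (ww_inj hodd)) z
      exact ⟨y, by simpa using hz, rfl⟩
  obtain ⟨c, hc1, hc2, hc3⟩ := koenig (mm : ZZ F K → DD F K) (fun z => mm (ww hodd z))
    (Fintype.card F - 1) univ (fun g => card_fiber_mm g) hkW
  have hsurj : ∀ (g : DD F K) (i : ℕ), i < Fintype.card F - 1 → ∃ z : ZZ F K,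
      mm z = g ∧ c z = i := by
    intro g i hi
    have h1 : (((univ : Finset (ZZ F K)).filter fun z => mm z = g).image c) =
        range (Fintype.card F - 1) := by
      refine Finset.eq_of_subset_of_card_le ?_ ?_
      · intro j hj
        rw [mem_image] at hj
        obtain ⟨z, _, rfl⟩ := hj
        exact mem_range.2 (hc1 z (mem_univ _))
      · rw [Finset.card_image_of_injOn, card_fiber_mm, card_range]
        intro z hz z' hz' h
        simp only [coe_filter, mem_univ, true_and] at hz hz'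
        exact hc2 z (mem_univ _) z' (mem_univ _) (Eq.trans hz (Eq.symm hz')) h
    have h2 : i ∈ range (Fintype.card F - 1) := mem_range.2 hi
    rw [← h1, mem_image] at h2
    obtain ⟨z, hz, hz2⟩ := h2
    exact ⟨z, (mem_filter.1 hz).2, hz2⟩
  obtain ⟨mu, hmu⟩ := exists_mu (F := F) (K := K)
  let e : Fˣ ≃ Fin (Fintype.card F - 1) := Fintype.equivFinOfCardEq (Fintype.card_units F)
  have hz : ∀ (g : DD F K) (l : Fˣ), ∃ z : ZZ F K, mm z = g ∧ c z = e l := fun g l =>
    hsurj g (e l) (e l).2
  choose ζ hζ1 hζ2 using hz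
  let h : K → G F K → G F K := fun x p =>
    if hx : x = 0 then p⁻¹
    else if ht : tz (cl (Units.mk0 x hx) * p⁻¹) then
      cl (ww hodd (ζ ⟨_, ht⟩ (mu (Units.mk0 x hx)))).1 * (cl (Units.mk0 x hx))⁻¹
    else cl (Units.mk0 x hx) * (p⁻¹) ^ 2
  have h0 : ∀ p, h 0 p = p⁻¹ := fun p => dif_pos rfl
  -- description of the two cases
  have hcase : ∀ (x : Kˣ) (p : G F K),
      (¬ tz (h x p * cl x) ∧ h x p = cl x * (p⁻¹) ^ 2 ∧ ¬ tz (h x p * p)) ∨
      (tz (h x p * cl x) ∧ ∃ z : ZZ F K, cl z.1 = cl x * p⁻¹ ∧ c z = e (mu x) ∧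
        h x p * cl x = cl (ww hodd z).1 ∧ h x p * p = cl (uz hodd z)) := by
    intro x p
    have hx : (x : K) ≠ 0 := x.ne_zero
    have hmk : Units.mk0 (x : K) hx = x := Units.ext rfl
    by_cases ht : tz (cl x * p⁻¹)
    · right
      have ht' : tz (cl (Units.mk0 (x : K) hx) * p⁻¹) := by rw [hmk]; exact ht
      have hh : h x p = cl (ww hodd (ζ ⟨_, ht'⟩ (mu (Units.mk0 x hx)))).1 *
          (cl (Units.mk0 (x : K) hx))⁻¹ := by
        change (if hx : (x : K) = 0 then _ else _) = _
        rw [dif_neg hx, dif_pos ht']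
      set z := ζ ⟨_, ht'⟩ (mu (Units.mk0 (x : K) hx)) with hzdef
      have hz1 : cl z.1 = cl x * p⁻¹ := by
        have := hζ1 ⟨_, ht'⟩ (mu (Units.mk0 (x : K) hx))
        have h2 := congrArg Subtype.val this
        rw [← hzdef] at h2
        change cl z.1 = cl (Units.mk0 (x : K) hx) * p⁻¹ at h2
        rw [h2, hmk]
      have hz2 : c z = e (mu x) := by
        have := hζ2 ⟨_, ht'⟩ (mu (Units.mk0 (x : K) hx))
        rw [← hzdef, hmk] at this
        exact this
      rw [hmk] at hh
      have h3 : h x p * cl x = cl (ww hodd z).1 := by rw [hh, inv_mul_cancel_right]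
      refine ⟨?_, z, hz1, hz2, h3, ?_⟩
      · rw [h3, tz_cl]; exact (ww hodd z).2
      · have h4 : p = (cl z.1)⁻¹ * cl x := by rw [hz1]; group
        rw [hh]
        conv_lhs => rw [h4]
        have h5 : (cl (ww hodd z).1 : G F K) = cl z.1 * cl (uz hodd z) := by
          rw [← map_mul]; rfl
        rw [h5, mul_assoc, inv_mul_cancel_comm_assoc, mul_comm, ← mul_assoc, inv_mul_cancel,
          one_mul]
    · left
      have ht' : ¬ tz (cl (Units.mk0 (x : K) hx) * p⁻¹) := by rw [hmk]; exact ht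
      have hh : h x p = cl (Units.mk0 (x : K) hx) * (p⁻¹) ^ 2 := by
        change (if hx : (x : K) = 0 then _ else _) = _
        rw [dif_neg hx, dif_neg ht']
      rw [hmk] at hh
      refine ⟨?_, hh, ?_⟩
      · have h3 : h x p * cl x = (cl x * p⁻¹) ^ 2 := by
          rw [hh, mul_pow, pow_two (cl x), mul_assoc, mul_assoc, mul_comm (cl x) (p⁻¹ ^ 2)]
        rw [h3, tz_sq]; exact ht
      · have h3 : h x p * p = cl x * p⁻¹ := by rw [hh, pow_two]; group
        rw [h3]; exact ht
  refine ⟨h, ?_, ?_, ?_⟩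
  · intro x p p' hpp
    by_cases hx : x = 0
    · subst hx
      rw [h0, h0] at hpp
      exact inv_injective hpp
    · obtain ⟨u, rfl⟩ : ∃ u : Kˣ, (u : K) = x := ⟨Units.mk0 x hx, rfl⟩
      rcases hcase u p with ⟨h1, h2, _⟩ | ⟨h1, z, h2, h3, h4, h5⟩ <;>
      rcases hcase u p' with ⟨h1', h2', _⟩ | ⟨h1', z', h2', h3', h4', h5'⟩
      · rw [h2, h2'] at hpp
        exact inv_injective (sq_inj _ _ (mul_left_cancel hpp))
      · rw [hpp] at h1; exact absurd h1' h1
      · rw [hpp] at h1; exact absurd h1 h1'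
      · rw [hpp, h4'] at h4
        have h6 : z' = z := hc3 z' (mem_univ _) z (mem_univ _) (Subtype.ext h4)
          (h3'.trans h3.symm)
        rw [h6, h2] at h2'
        exact inv_injective (mul_left_cancel h2')
  · intro x p
    by_cases hx : x = 0
    · subst hx
      rw [h0, inv_mul_cancel]
      rw [← map_one (cl : Kˣ →* G F K), tz_cl, Units.val_one, tr_one hodd]
      exact one_ne_zero
    · obtain ⟨u, rfl⟩ : ∃ u : Kˣ, (u : K) = x := ⟨Units.mk0 x hx, rfl⟩
      rcases hcase u p with ⟨_, _, h1⟩ | ⟨h1, z, h2, h3, h4, h5⟩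
      · exact h1
      · rw [h5, tz_cl, tr_uz hodd]; exact one_ne_zero
  · -- the key property
    have haux : ∀ (x : Kˣ) (p : G F K), h 0 p = h x p →
        (tr (rp (h 0 p) * 0) : F) = tr (rp (h 0 p) * x) → False := by
      intro x p hp htr
      rw [mul_zero, tr, map_zero] at htr
      rcases hcase x p with ⟨h1, _, _⟩ | ⟨h1, z, h2, h3, h4, h5⟩
      · apply h1
        rw [tz_mul_cl, ← hp]; exact htr.symm
      · rw [← hp, h0, inv_mul_cancel] at h5
        exact uz_class_ne hodd z h5.symm
    intro x x' p hpp htr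
    by_cases hx : x = 0
    · by_cases hx' : x' = 0
      · rw [hx, hx']
      · obtain ⟨u, rfl⟩ : ∃ u : Kˣ, (u : K) = x' := ⟨Units.mk0 x' hx', rfl⟩
        subst hx
        exact (haux u p hpp htr).elim
    · obtain ⟨u, rfl⟩ : ∃ u : Kˣ, (u : K) = x := ⟨Units.mk0 x hx, rfl⟩
      by_cases hx' : x' = 0
      · subst hx'
        rw [hpp] at htr
        exact (haux u p hpp.symm htr.symm).elim
      · obtain ⟨u', rfl⟩ : ∃ u : Kˣ, (u : K) = x' := ⟨Units.mk0 x' hx', rfl⟩
        rcases hcase u p with ⟨h1, h2, _⟩ | ⟨h1, z, h2, h3, h4, h5⟩ <;>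
        rcases hcase u' p with ⟨h1', h2', _⟩ | ⟨h1', z', h2', h3', h4', h5'⟩
        · have h3 : (cl u : G F K) = cl u' := by
            rw [hpp, h2'] at h2
            exact (mul_right_cancel h2).symm
          rw [cl_eq_iff] at h3
          obtain ⟨l, hl⟩ := h3
          rw [tz_mul_cl] at h1
          rw [hl, mul_left_comm, tr_smul] at htr
          have h4 : (l : F) = 1 := by
            have h5 : ((l : F) - 1) * tr (rp (h u p) * u) = 0 := by
              rw [sub_mul, one_mul, ← htr, sub_self]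
            rcases mul_eq_zero.1 h5 with h6 | h6
            · exact sub_eq_zero.1 h6
            · exact absurd h6 h1
          rw [hl, h4, map_one, one_mul]
        · rw [tz_mul_cl] at h1 h1'
          rw [← hpp] at h1'
          exact absurd (htr.trans h1') h1
        · rw [tz_mul_cl] at h1 h1'
          rw [← hpp] at h1'
          exact absurd (htr.symm.trans h1) h1'
        · rw [hpp, h5'] at h5
          have h6 : z' = z := uz_class hodd z' z h5
          have h7 : mu u = mu u' := by
            apply e.injective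
            apply Fin.ext
            rw [← h3, ← h3', h6]
          have h8 : (cl u : G F K) = cl u' := by
            rw [h6, h2] at h2'
            exact mul_right_cancel h2'
          rw [hmu u, hmu u', h7, h8]

end Pool.Agent.Lib.MP_6fba53_co.PG
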