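import Pool.Agent.Lib.MP_6fba53_co.PGCoord

set_option autoImplicit false

/-! # The same families inside a space with a hyperplane at infinity -/

namespace Pool.Agent.Lib.MP_6fba53_co.PG

/-- `W` is a vector space, `f = 0` is the hyperplane at infinity; for a point `x` (`f x = 1`) and a
direction `p` (`f p = 0`), `Φ x p` is a hyperplane through `x` and not through `p`. -/
structure PGood {F W : Type} [Field F] [AddCommGroup W] [Module F W] (f : W →ₗ[F] F)
    (Φ : W → W → (W →ₗ[F] F)) : Prop where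
  zero : ∀ x p : W, f x = 1 → f p = 0 → p ≠ 0 → Φ x p x = 0
  ne : ∀ x p : W, f x = 1 → f p = 0 → p ≠ 0 → Φ x p p ≠ 0
  inj : ∀ x p p' : W, f x = 1 → f p = 0 → p ≠ 0 → f p' = 0 → p' ≠ 0 → ∀ m : F, m ≠ 0 →
    Φ x p = m • Φ x p' → ∃ l : F, p = l • p'
  key : ∀ x x' p : W, f x = 1 → f x' = 1 → f p = 0 → p ≠ 0 → ∀ m : F, m ≠ 0 →
    Φ x p = m • Φ x' p → x = x'

section

variable {F W : Type} [Field F] [AddCommGroup W] [Module F W] [FiniteDimensional F W]

theorem exists_equiv (f : W →ₗ[F] F) (c0 : W) (hc : f c0 = 1) (n : ℕ)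
    (hn : Module.finrank F W = n + 1) :
    ∃ e : W ≃ₗ[F] (Fin n → F) × F, ∀ w, (e w).2 = f w := by
  have hker : Module.finrank F (LinearMap.ker f) = n := by
    have h1 := LinearMap.finrank_range_add_finrank_ker f
    have h2 : LinearMap.range f = ⊤ := by
      rw [LinearMap.range_eq_top]
      intro b
      exact ⟨b • c0, by rw [map_smul, hc, smul_eq_mul, mul_one]⟩
    rw [h2, finrank_top, Module.finrank_self, hn] at h1
    omega
  let k : LinearMap.ker f ≃ₗ[F] (Fin n → F) :=
    (Module.finBasisOfFinrankEq F (LinearMap.ker f) hker).equivFun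
  let pr : W →ₗ[F] LinearMap.ker f :=
    (LinearMap.id - f.smulRight c0).codRestrict (LinearMap.ker f) (by
      intro w
      rw [LinearMap.mem_ker]
      simp [hc])
  have hpr : ∀ w, ((pr w : LinearMap.ker f) : W) = w - f w • c0 := fun w => rfl
  refine ⟨LinearEquiv.ofLinearMap ((k.toLinearMap ∘ₗ pr).prod f)
    ((Submodule.subtype _ ∘ₗ k.symm.toLinearMap).coprod (LinearMap.toSpanSingleton F W c0))
    ?_ ?_, fun w => rfl⟩
  · apply LinearMap.ext
    rintro ⟨v, s⟩
    have h1 : f ((k.symm v : LinearMap.ker f) : W) = 0 := (k.symm v).2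
    have h2 : f (((k.symm v : LinearMap.ker f) : W) + s • c0) = s := by
      rw [map_add, h1, map_smul, hc, smul_eq_mul, mul_one, zero_add]
    have h3 : pr (((k.symm v : LinearMap.ker f) : W) + s • c0) = k.symm v := by
      apply Subtype.ext
      rw [hpr, h2, add_sub_cancel_right]
    change (k (pr (((k.symm v : LinearMap.ker f) : W) + s • c0)),
      f (((k.symm v : LinearMap.ker f) : W) + s • c0)) = (v, s)
    rw [h2, h3, LinearEquiv.apply_symm_apply]
  · apply LinearMap.ext
    intro w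
    change ((k.symm (k (pr w)) : LinearMap.ker f) : W) + f w • c0 = w
    rw [LinearEquiv.symm_apply_apply, hpr, sub_add_cancel]

omit [FiniteDimensional F W] in
theorem CGood.toP {n : ℕ} {H : (Fin n → F) → (Fin n → F) → (Fin n → F)} (hH : CGood H)
    (f : W →ₗ[F] F) (e : W ≃ₗ[F] (Fin n → F) × F) (he : ∀ w, (e w).2 = f w) :
    ∃ Φ : W → W → (W →ₗ[F] F), PGood f Φ := by
  -- the functional with normal vector `a` vanishing at `ξ`
  have hex : ∀ a ξ : Fin n → F, ∃ g : W →ₗ[F] F, ∀ w, g w = a ⬝ᵥ (e w).1 - (a ⬝ᵥ ξ) * (e w).2 := by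
    intro a ξ
    refine ⟨{ toFun := fun w => a ⬝ᵥ (e w).1 - (a ⬝ᵥ ξ) * (e w).2, map_add' := ?_, map_smul' := ?_ },
      fun w => rfl⟩
    · intro v w
      rw [map_add, Prod.fst_add, Prod.snd_add, dotProduct_add]
      ring
    · intro c w
      rw [map_smul, Prod.smul_fst, Prod.smul_snd, dotProduct_smul, RingHom.id_apply, smul_eq_mul,
        smul_eq_mul, smul_eq_mul]
      ring
  choose g hg using hex
  have hu : ∀ p : W, f p = 0 → p ≠ 0 → (e p).1 ≠ 0 := by
    intro p hp hp0 h
    apply hp0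
    apply e.injective
    rw [map_zero]
    exact Prod.ext h (by rw [he, hp]; rfl)
  have hgg : ∀ (a a' ξ ξ' : Fin n → F) (m : F), g a ξ = m • g a' ξ' →
      a = m • a' ∧ a ⬝ᵥ ξ = m * (a' ⬝ᵥ ξ') := by
    classical
    intro a a' ξ ξ' m h
    constructor
    · funext i
      have h1 := LinearMap.congr_fun h (e.symm (Pi.single i 1, 0))
      rw [LinearMap.smul_apply, hg, hg, LinearEquiv.apply_symm_apply] at h1
      simpa using h1
    · have h1 := LinearMap.congr_fun h (e.symm (0, 1))
      rw [LinearMap.smul_apply, hg, hg, LinearEquiv.apply_symm_apply] at h1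
      simp only [dotProduct_zero, mul_one, zero_sub, smul_eq_mul, mul_neg, neg_inj] at h1
      exact h1
  refine ⟨fun x p => g (H (e x).1 (e p).1) (e x).1, ?_, ?_, ?_, ?_⟩
  · intro x p hx hp hp0
    rw [hg, he, hx, mul_one, sub_self]
  · intro x p hx hp hp0
    rw [hg, he, hp, mul_zero, sub_zero]
    exact hH.ne _ _ (hu p hp hp0)
  · intro x p p' hx hp hp0 hp' hp0' m hm h
    obtain ⟨h1, _⟩ := hgg _ _ _ _ _ h
    obtain ⟨l, hl⟩ := hH.inj _ _ _ (hu p hp hp0) (hu p' hp' hp0') m hm h1
    refine ⟨l, e.injective ?_⟩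
    rw [map_smul]
    exact Prod.ext hl (by rw [he, hp, Prod.smul_snd, he, hp', smul_zero])
  · intro x x' p hx hx' hp hp0 m hm h
    obtain ⟨h1, h2⟩ := hgg _ _ _ _ _ h
    have h3 := hH.key (e x).1 (e x').1 (e p).1 (hu p hp hp0) m hm h1 (by
      rw [h2]
      conv_rhs => rw [h1]
      rw [smul_dotProduct, smul_eq_mul])
    exact e.injective (Prod.ext h3 (by rw [he, hx, he, hx']))

omit [FiniteDimensional F W] in
theorem PGood.toC {n : ℕ} (f : W →ₗ[F] F) (Φ : W → W → (W →ₗ[F] F)) (hΦ : PGood f Φ)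
    (e : W ≃ₗ[F] (Fin n → F) × F) (he : ∀ w, (e w).2 = f w) :
    ∃ H : (Fin n → F) → (Fin n → F) → (Fin n → F), CGood H := by
  classical
  have hf : ∀ v s, f (e.symm (v, s)) = s := by
    intro v s
    rw [← he, LinearEquiv.apply_symm_apply]
  have hp0 : ∀ p : Fin n → F, p ≠ 0 → e.symm (p, 0) ≠ 0 := by
    intro p hp h
    apply hp
    have h1 := congrArg e h
    rw [LinearEquiv.apply_symm_apply, map_zero] at h1
    exact congrArg Prod.fst h1
  have hdot : ∀ (g : W →ₗ[F] F) (v : Fin n → F),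
      (fun i => g (e.symm (Pi.single i 1, 0))) ⬝ᵥ v = g (e.symm (v, 0)) := by
    intro g v
    have h1 : ((v, 0) : (Fin n → F) × F) = ∑ i, v i • (Pi.single i (1 : F), (0 : F)) := by
      refine Prod.ext ?_ ?_
      · rw [Prod.fst_sum]
        funext j
        simp [Finset.sum_apply, Pi.single_apply]
      · rw [Prod.snd_sum]
        simp
    rw [h1, map_sum, map_sum]
    unfold dotProduct
    refine Finset.sum_congr rfl fun i _ => ?_
    rw [map_smul, map_smul, smul_eq_mul, mul_comm]
  have hfun : ∀ (g g' : W →ₗ[F] F) (m : F), (fun i => g (e.symm (Pi.single i 1, 0))) =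
      m • (fun i => g' (e.symm (Pi.single i 1, 0))) → ∀ v, g (e.symm (v, 0)) =
        m * g' (e.symm (v, 0)) := by
    intro g g' m h v
    rw [← hdot, ← hdot, h, smul_dotProduct, smul_eq_mul]
  -- two functionals which agree at infinity and at one point agree
  have hext : ∀ (g g' : W →ₗ[F] F) (x : Fin n → F) , (∀ v, g (e.symm (v, 0)) = g' (e.symm (v, 0))) →
      g (e.symm (x, 1)) = g' (e.symm (x, 1)) → g = g' := by
    intro g g' x h1 h2
    apply LinearMap.ext
    intro w
    have h3 : w = e.symm ((e w).1 - (e w).2 • x, 0) + (e w).2 • e.symm (x, 1) := by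
      apply e.injective
      rw [map_add, map_smul, LinearEquiv.apply_symm_apply, LinearEquiv.apply_symm_apply]
      refine Prod.ext ?_ ?_ <;> simp
    rw [h3, map_add, map_add, map_smul, map_smul, h1, h2]
  refine ⟨fun x p i => Φ (e.symm (x, 1)) (e.symm (p, 0)) (e.symm (Pi.single i 1, 0)), ?_, ?_, ?_⟩
  · intro x p p' hp hp' m hm h
    have h1 := hfun _ _ m h
    have h2 : Φ (e.symm (x, 1)) (e.symm (p, 0)) = m • Φ (e.symm (x, 1)) (e.symm (p', 0)) := by
      refine hext _ _ x (fun v => ?_) ?_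
      · rw [h1, LinearMap.smul_apply, smul_eq_mul]
      · rw [LinearMap.smul_apply, hΦ.zero _ _ (hf _ _) (hf _ _) (hp0 p hp),
          hΦ.zero _ _ (hf _ _) (hf _ _) (hp0 p' hp'), smul_zero]
    obtain ⟨l, hl⟩ := hΦ.inj _ _ _ (hf _ _) (hf _ _) (hp0 p hp) (hf _ _) (hp0 p' hp') m hm h2
    refine ⟨l, ?_⟩
    have h3 := congrArg e hl
    rw [map_smul, LinearEquiv.apply_symm_apply, LinearEquiv.apply_symm_apply] at h3
    exact congrArg Prod.fst h3
  · intro x p hp
    rw [hdot]
    exact hΦ.ne _ _ (hf _ _) (hf _ _) (hp0 p hp)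
  · intro x x' p hp m hm h hxx
    rw [hdot, hdot] at hxx
    have h1 := hfun _ _ m h
    have h2 : Φ (e.symm (x, 1)) (e.symm (p, 0)) = m • Φ (e.symm (x', 1)) (e.symm (p, 0)) := by
      refine hext _ _ x (fun v => ?_) ?_
      · rw [h1, LinearMap.smul_apply, smul_eq_mul]
      · rw [LinearMap.smul_apply, hΦ.zero _ _ (hf _ _) (hf _ _) (hp0 p hp)]
        have h4 : e.symm (x, 1) = e.symm (x', 1) + (e.symm (x, 0) - e.symm (x', 0)) := by
          apply e.injective
          rw [map_add, map_sub]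
          simp only [LinearEquiv.apply_symm_apply]
          refine Prod.ext ?_ ?_ <;> simp
        rw [h4, map_add, hΦ.zero _ _ (hf _ _) (hf _ _) (hp0 p hp), map_sub, zero_add]
        rw [h1, h1] at hxx
        have h5 := mul_left_cancel₀ hm hxx
        rw [h5, sub_self, smul_zero]
    have h3 := hΦ.key _ _ _ (hf _ _) (hf _ _) (hf _ _) (hp0 p hp) m hm h2
    have h6 := congrArg e h3
    rw [LinearEquiv.apply_symm_apply, LinearEquiv.apply_symm_apply] at h6
    exact congrArg Prod.fst h6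

end

section

variable {F K ι : Type} [Field F] [Field K] [Algebra F K] [Fintype ι] [Fintype F] [Fintype K]

/-- From classes to coordinates. -/
theorem Good.toC {h : K → G F K → G F K} (H : Good h) (b : Module.Basis ι F K) :
    ∃ H' : (ι → F) → (ι → F) → (ι → F), CGood H' := by
  classical
  have hne : ∀ p : ι → F, p ≠ 0 → b.equivFun.symm p ≠ 0 := by
    intro p hp h
    exact hp (b.equivFun.symm.injective (by rw [h, map_zero]))
  let U : ∀ p : ι → F, p ≠ 0 → Kˣ := fun p hp => Units.mk0 _ (hne p hp)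
  let S : (ι → F) → (ι → F) → K := fun x p =>
    if hp : p = 0 then 0 else rp (h (b.equivFun.symm x) (cl (U p hp)))
  have hS : ∀ x p (hp : p ≠ 0), S x p = rp (h (b.equivFun.symm x) (cl (U p hp))) :=
    fun x p hp => dif_neg hp
  have hdot : ∀ (s : K) (v : ι → F),
      (fun i => (tr (s * b i) : F)) ⬝ᵥ v = tr (s * b.equivFun.symm v) := by
    intro s v
    rw [Module.Basis.equivFun_symm_apply, Finset.mul_sum]
    unfold tr
    rw [map_sum]
    unfold dotProduct
    refine Finset.sum_congr rfl fun i _ => ?_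
    rw [mul_smul_comm, map_smul, smul_eq_mul, mul_comm]
  have hvec : ∀ (s s' : K) (m : F), (fun i => (tr (s * b i) : F)) = m • (fun i => (tr (s' * b i) : F)) →
      s = algebraMap F K m * s' := by
    intro s s' m h
    apply sub_eq_zero.1
    refine tr_nondeg (F := F) _ fun x => ?_
    have h1 := hdot s (b.equivFun x)
    have h2 := hdot s' (b.equivFun x)
    rw [LinearEquiv.symm_apply_apply] at h1 h2
    rw [mul_sub, mul_left_comm]
    unfold tr at *
    rw [map_sub]
    have h3 := tr_smul (F := F) m (x * s')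
    unfold tr at h3
    rw [h3, mul_comm x s, mul_comm x s', ← h1, ← h2, h, smul_dotProduct, smul_eq_mul, sub_self]
  have hcl : ∀ (a a' : G F K) (m : F), m ≠ 0 → rp a = algebraMap F K m * rp a' → a' = a := by
    intro a a' m hm h
    rw [← cl_ru a, ← cl_ru a', cl_eq_iff]
    exact ⟨Units.mk0 m hm, h⟩
  refine ⟨fun x p i => tr (S x p * b i), ?_, ?_, ?_⟩
  · intro x p p' hp hp' m hm h0
    have h1 := hvec _ _ m h0
    rw [hS _ _ hp, hS _ _ hp'] at h1
    have h2 := H.inj _ (hcl _ _ m hm h1)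
    obtain ⟨l, hl⟩ := (cl_eq_iff _ _).1 h2
    refine ⟨l, ?_⟩
    apply b.equivFun.symm.injective
    rw [map_smul, Algebra.smul_def]
    exact hl
  · intro x p hp
    rw [hdot, hS _ _ hp]
    intro h0
    exact H.ne _ _ ((tz_mul_cl _ _).2 h0)
  · intro x x' p hp m hm h0 hxx
    rw [hdot, hdot] at hxx
    have h1 := hvec _ _ m h0
    rw [hS _ _ hp] at hxx
    rw [hS _ _ hp, hS _ _ hp] at h1
    have h2 := hcl _ _ m hm h1
    have h3 := H.key _ _ _ h2.symm hxx
    exact b.equivFun.symm.injective h3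

end

end Pool.Agent.Lib.MP_6fba53_co.PG
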