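import Pool.Agent.Lib.MP_6fba53_co.PGCoord

set_option autoImplicit false

/-! # Dimension three, every finite field -/

namespace Pool.Agent.Lib.MP_6fba53_co.PG

theorem exists_shift (F : Type) [Fintype F] : ∃ g : F → Option F → Option F,
    (∀ y, Function.Injective (g y)) ∧ (∀ y c, g y c ≠ c) ∧
      (∀ c y y', g y c = g y' c → y = y') := by
  classical
  let e : Option F ≃ ZMod (Fintype.card F + 1) :=
    Fintype.equivOfCardEq (by rw [Fintype.card_option, ZMod.card])
  refine ⟨fun y c => e.symm (e c + (e (some y) - e none)), ?_, ?_, ?_⟩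
  · intro y c c' h
    exact e.injective (add_right_cancel (e.symm.injective h))
  · intro y c h
    have h1 : e c + (e (some y) - e none) = e c := by
      have h2 := congrArg e h
      rwa [Equiv.apply_symm_apply] at h2
    have h3 := e.injective (sub_eq_zero.1 (add_eq_left.1 h1))
    exact absurd h3 (by simp)
  · intro c y y' h
    have h1 := add_left_cancel (e.symm.injective h)
    have h2 := e.injective (sub_left_injective h1)
    exact Option.some.inj h2

section

variable {F : Type} [Field F] [DecidableEq F]

/-- The slope of a vector of the plane. -/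
def slope (u0 u1 : F) : Option F := if u0 = 0 then none else some (u1 / u0)

/-- Normal vector of a slope. -/
def nrm : Option F → F × F
  | none => (1, 0)
  | some s => (-s, 1)

theorem nrm_dot (u0 u1 : F) (hu : u0 ≠ 0 ∨ u1 ≠ 0) (c : Option F) :
    (nrm c).1 * u0 + (nrm c).2 * u1 = 0 ↔ c = slope u0 u1 := by
  unfold slope
  by_cases h : u0 = 0
  · subst h
    have h1 : u1 ≠ 0 := by
      rcases hu with h | h
      · exact absurd rfl h
      · exact h
    cases c with
    | none => simp [nrm]
    | some s => simp [nrm, h1]
  · rw [if_neg h]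
    cases c with
    | none => simp [nrm, h]
    | some s =>
      simp only [nrm, Option.some.injEq]
      rw [eq_div_iff h]
      constructor
      · intro h2
        linear_combination -h2
      · intro h2
        linear_combination -h2

omit [DecidableEq F] in
theorem nrm_inj (c c' : Option F) (m : F) (h1 : (nrm c).1 = m * (nrm c').1)
    (h2 : (nrm c).2 = m * (nrm c').2) : c = c' := by
  cases c with
  | none =>
    cases c' with
    | none => rfl
    | some s =>
      simp only [nrm, mul_one] at h1 h2
      rw [← h2, zero_mul] at h1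
      exact absurd h1 one_ne_zero
  | some s =>
    cases c' with
    | none =>
      simp only [nrm, mul_zero] at h1 h2
      exact absurd h2 one_ne_zero
    | some t =>
      simp only [nrm, mul_one] at h1 h2
      rw [← h2, one_mul, neg_inj] at h1
      rw [h1]

theorem slope_eq (u0 u1 v0 v1 : F) (hu : u0 ≠ 0 ∨ u1 ≠ 0) (hv : v0 ≠ 0 ∨ v1 ≠ 0)
    (h : slope u0 u1 = slope v0 v1) : ∃ l : F, u0 = l * v0 ∧ u1 = l * v1 := by
  unfold slope at h
  by_cases hu0 : u0 = 0 <;> by_cases hv0 : v0 = 0
  · subst hu0 hv0
    have h1 : v1 ≠ 0 := by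
      rcases hv with h | h
      · exact absurd rfl h
      · exact h
    exact ⟨u1 / v1, by simp, by rw [div_mul_cancel₀ _ h1]⟩
  · rw [if_pos hu0, if_neg hv0] at h
    exact absurd h (by simp)
  · rw [if_neg hu0, if_pos hv0] at h
    exact absurd h (by simp)
  · rw [if_neg hu0, if_neg hv0, Option.some.injEq, div_eq_div_iff hu0 hv0] at h
    refine ⟨u0 / v0, by rw [div_mul_cancel₀ _ hv0], ?_⟩
    rw [div_mul_eq_mul_div, eq_div_iff hv0]
    linear_combination h

/-- The quantity deciding which of the two rules is used. -/
def del (x p : Fin 3 → F) : F := p 2 - (x 0 * p 1 - x 1 * p 0)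

/-- The normal vector. -/
def H3 (g : F → Option F → Option F) (x p : Fin 3 → F) : Fin 3 → F :=
  if del x p = 0 then
    ![(nrm (g (x 2) (slope (p 0) (p 1)))).1, (nrm (g (x 2) (slope (p 0) (p 1)))).2, 0]
  else ![x 1 + p 1 / del x p, -x 0 - p 0 / del x p, 1]

omit [DecidableEq F] in
theorem dot3 (a b : Fin 3 → F) : a ⬝ᵥ b = a 0 * b 0 + a 1 * b 1 + a 2 * b 2 := by
  simp [dotProduct, Fin.sum_univ_three]

omit [DecidableEq F] in
theorem uv_ne (x p : Fin 3 → F) (hp : p ≠ 0) (h : del x p = 0) : p 0 ≠ 0 ∨ p 1 ≠ 0 := by
  by_contra hcon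
  push Not at hcon
  apply hp
  unfold del at h
  rw [hcon.1, hcon.2, mul_zero, mul_zero, sub_zero, sub_zero] at h
  funext i
  fin_cases i
  · exact hcon.1
  · exact hcon.2
  · exact h

theorem H3_good (g : F → Option F → Option F) (g1 : ∀ y, Function.Injective (g y))
    (g2 : ∀ y c, g y c ≠ c) (g3 : ∀ c y y', g y c = g y' c → y = y') : CGood (H3 g) := by
  have hpos : ∀ x p : Fin 3 → F, del x p = 0 → H3 g x p =
      ![(nrm (g (x 2) (slope (p 0) (p 1)))).1, (nrm (g (x 2) (slope (p 0) (p 1)))).2, 0] :=
    fun x p h => if_pos h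
  have hneg : ∀ x p : Fin 3 → F, del x p ≠ 0 → H3 g x p =
      ![x 1 + p 1 / del x p, -x 0 - p 0 / del x p, 1] := fun x p h => if_neg h
  refine ⟨?_, ?_, ?_⟩
  · intro x p p' hp hp' m hm h
    by_cases hd : del x p = 0 <;> by_cases hd' : del x p' = 0
    · rw [hpos _ _ hd, hpos _ _ hd'] at h
      have h0 := congrFun h 0
      have h1 := congrFun h 1
      simp only [Pi.smul_apply, smul_eq_mul, Matrix.cons_val_zero, Matrix.cons_val_one] at h0 h1
      have h2 := g1 _ (nrm_inj _ _ m h0 h1)
      obtain ⟨l, hl0, hl1⟩ := slope_eq _ _ _ _ (uv_ne x p hp hd) (uv_ne x p' hp' hd') h2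
      refine ⟨l, ?_⟩
      unfold del at hd hd'
      funext i
      fin_cases i
      · exact hl0
      · exact hl1
      · change p 2 = l * p' 2
        linear_combination hd - l * hd' + x 0 * hl1 - x 1 * hl0
    · rw [hpos _ _ hd, hneg _ _ hd'] at h
      have h2 := congrFun h 2
      simp only [Pi.smul_apply, smul_eq_mul, Matrix.cons_val] at h2
      rw [mul_one] at h2
      exact absurd h2.symm hm
    · rw [hneg _ _ hd, hpos _ _ hd'] at h
      have h2 := congrFun h 2
      simp only [Pi.smul_apply, smul_eq_mul, Matrix.cons_val] at h2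
      rw [mul_zero] at h2
      exact absurd h2 one_ne_zero
    · rw [hneg _ _ hd, hneg _ _ hd'] at h
      have h0 := congrFun h 0
      have h1 := congrFun h 1
      have h2 := congrFun h 2
      simp only [Pi.smul_apply, smul_eq_mul, Matrix.cons_val_zero, Matrix.cons_val_one,
        Matrix.cons_val] at h0 h1 h2
      rw [mul_one] at h2
      rw [← h2, one_mul] at h0 h1
      have e1 : p 1 / del x p = p' 1 / del x p' := by linear_combination h0
      have e0 : p 0 / del x p = p' 0 / del x p' := by linear_combination -h1
      refine ⟨del x p / del x p', ?_⟩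
      have f1 : p 1 = del x p / del x p' * p' 1 := by
        rw [div_eq_iff hd] at e1
        rw [e1]; ring
      have f0 : p 0 = del x p / del x p' * p' 0 := by
        rw [div_eq_iff hd] at e0
        rw [e0]; ring
      have f3 : del x p = del x p / del x p' * del x p' := by
        rw [div_mul_cancel₀ _ hd']
      set l := del x p / del x p' with hl
      clear_value l
      clear hl
      unfold del at f3
      funext i
      fin_cases i
      · exact f0
      · exact f1
      · change p 2 = l * p' 2
        linear_combination f3 + x 0 * f1 - x 1 * f0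
  · intro x p hp
    rw [dot3]
    by_cases hd : del x p = 0
    · rw [hpos _ _ hd]
      simp only [Matrix.cons_val_zero, Matrix.cons_val_one, Matrix.cons_val]
      rw [zero_mul, add_zero]
      intro h
      exact g2 _ _ ((nrm_dot _ _ (uv_ne x p hp hd) _).1 h)
    · rw [hneg _ _ hd]
      simp only [Matrix.cons_val_zero, Matrix.cons_val_one, Matrix.cons_val]
      have h : (x 1 + p 1 / del x p) * p 0 + (-x 0 - p 0 / del x p) * p 1 + 1 * p 2 =
          del x p := by
        have : del x p = p 2 - (x 0 * p 1 - x 1 * p 0) := rfl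
        linear_combination -this
      rw [h]
      exact hd
  · intro x x' p hp m hm h hxx
    rw [dot3, dot3] at hxx
    by_cases hd : del x p = 0 <;> by_cases hd' : del x' p = 0
    · rw [hpos _ _ hd] at hxx
      rw [hpos _ _ hd, hpos _ _ hd'] at h
      have h0 := congrFun h 0
      have h1 := congrFun h 1
      simp only [Pi.smul_apply, smul_eq_mul, Matrix.cons_val_zero, Matrix.cons_val_one] at h0 h1
      have h2 := g3 _ _ _ (nrm_inj _ _ m h0 h1)
      simp only [Matrix.cons_val_zero, Matrix.cons_val_one, Matrix.cons_val] at hxx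
      have huv := uv_ne x p hp hd
      have hn : (nrm (g (x 2) (slope (p 0) (p 1)))).1 * p 0 +
          (nrm (g (x 2) (slope (p 0) (p 1)))).2 * p 1 ≠ 0 := by
        intro h
        exact g2 _ _ ((nrm_dot _ _ huv _).1 h)
      set n := nrm (g (x 2) (slope (p 0) (p 1))) with hnn
      clear_value n
      unfold del at hd hd'
      -- `(x - x') = t u`
      have hD : (x 0 - x' 0) * p 1 = (x 1 - x' 1) * p 0 := by linear_combination hd' - hd
      have hn0 : n.1 * (x 0 - x' 0) + n.2 * (x 1 - x' 1) = 0 := by linear_combination hxx
      have k0 : x 0 - x' 0 = 0 := by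
        have : (x 0 - x' 0) * (n.1 * p 0 + n.2 * p 1) = 0 := by
          linear_combination p 0 * hn0 + n.2 * hD
        exact (mul_eq_zero.1 this).resolve_right hn
      have k1 : x 1 - x' 1 = 0 := by
        have : (x 1 - x' 1) * (n.1 * p 0 + n.2 * p 1) = 0 := by
          linear_combination p 1 * hn0 - n.1 * hD
        exact (mul_eq_zero.1 this).resolve_right hn
      funext i
      fin_cases i
      · exact sub_eq_zero.1 k0
      · exact sub_eq_zero.1 k1
      · exact h2
    · rw [hpos _ _ hd, hneg _ _ hd'] at h
      have h2 := congrFun h 2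
      simp only [Pi.smul_apply, smul_eq_mul, Matrix.cons_val] at h2
      rw [mul_one] at h2
      exact absurd h2.symm hm
    · rw [hneg _ _ hd, hpos _ _ hd'] at h
      have h2 := congrFun h 2
      simp only [Pi.smul_apply, smul_eq_mul, Matrix.cons_val] at h2
      rw [mul_zero] at h2
      exact absurd h2 one_ne_zero
    · rw [hneg _ _ hd] at hxx
      rw [hneg _ _ hd, hneg _ _ hd'] at h
      have h0 := congrFun h 0
      have h1 := congrFun h 1
      have h2 := congrFun h 2
      simp only [Pi.smul_apply, smul_eq_mul, Matrix.cons_val_zero, Matrix.cons_val_one,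
        Matrix.cons_val] at h0 h1 h2 hxx
      rw [mul_one] at h2
      rw [← h2, one_mul] at h0 h1
      have e : del x p = del x' p := by
        have u1 : del x p = p 2 - (x 0 * p 1 - x 1 * p 0) := rfl
        have u2 : del x' p = p 2 - (x' 0 * p 1 - x' 1 * p 0) := rfl
        have e1 : x 1 - x' 1 = p 1 / del x' p - p 1 / del x p := by linear_combination h0
        have e0 : x 0 - x' 0 = p 0 / del x' p - p 0 / del x p := by linear_combination -h1
        have e2 : del x p - del x' p = (x 1 - x' 1) * p 0 - (x 0 - x' 0) * p 1 := by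
          linear_combination u1 - u2
        rw [e1, e0] at e2
        linear_combination e2
      rw [e] at h0 h1 hxx
      have k1 : x 1 = x' 1 := by linear_combination h0
      have k0 : x 0 = x' 0 := by linear_combination -h1
      rw [k0, k1] at hxx
      funext i
      fin_cases i
      · exact k0
      · exact k1
      · change x 2 = x' 2
        linear_combination hxx

end

theorem exists_three (F : Type) [Field F] [Fintype F] :
    ∃ H : (Fin 3 → F) → (Fin 3 → F) → (Fin 3 → F), CGood H := by
  classical
  obtain ⟨g, g1, g2, g3⟩ := exists_shift F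
  exact ⟨H3 g, H3_good g g1 g2 g3⟩

end Pool.Agent.Lib.MP_6fba53_co.PG
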