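import Pool.Agent.Lib.MP_6fba53_co.Wallis

set_option autoImplicit false

/-! # The symmetric designs of Spence type -/

namespace Pool.Agent.Lib.MP_6fba53_co

open Finset

section spence

variable {E I : Type} [Fintype E] [Fintype I] {mu l : ℕ} {cls : Option I → E → Fin 3}

/-- The relation of the block in position `z`. -/
def srel (cls : Option I → E → Fin 3) : Option I → E → E → Prop
  | none, e, b => cls none e ≠ cls none b
  | some i, e, b => cls (some i) e = cls (some i) b

omit [Fintype E] [Fintype I] in
theorem srel_symm (cls : Option I → E → Fin 3) (z : Option I) (e b : E) :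
    srel cls z e b ↔ srel cls z b e := by
  cases z with
  | none => exact ne_comm
  | some i => exact eq_comm

/-- Incidence. -/
def sinc (cls : Option I → E → Fin 3) (u : Option I → Option I → Option I)
    (p b : E × Option I) : Prop := srel cls (u p.2 b.2) p.1 b.1

omit [Fintype E] [Fintype I] in
theorem sinc_flip (cls : Option I → E → Fin 3) (u : Option I → Option I → Option I)
    (p b : E × Option I) : sinc cls u p b ↔ sinc cls (fun x y => u y x) b p :=
  srel_symm cls _ _ _

open Classical in
/-- Points outside a block of a class. -/
theorem Aff.compl {J : Type} [Fintype J] {c : J → E → Fin 3} (H : Aff 3 mu l c) (j : J) (d : Fin 3) :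
    (univ.filter fun e => c j e ≠ d).card = 6 * mu := by
  have h1 := Finset.card_filter_add_card_filter_not (s := (univ : Finset E)) (fun e => c j e = d)
  have h2 := H.block j d
  have h3 : (univ.filter fun e => c j e ≠ d).card = (univ.filter fun e => ¬ c j e = d).card := rfl
  rw [h3]
  rw [Finset.card_univ, card_E H] at h1
  omega

open Classical in
theorem Aff.compl2 {J : Type} [Fintype J] {c : J → E → Fin 3} (H : Aff 3 mu l c) (i j : J)
    (hij : i ≠ j) (d d' : Fin 3) :
    (univ.filter fun e => c i e = d ∧ c j e ≠ d').card = 2 * mu := by
  have h1 := Finset.card_filter_add_card_filter_not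
    (s := (univ : Finset E).filter fun e => c i e = d) (fun e => c j e = d')
  have h2 : (univ.filter fun e => c i e = d ∧ c j e ≠ d').card =
      (((univ : Finset E).filter fun e => c i e = d).filter fun e => ¬ c j e = d').card := by
    rw [Finset.filter_filter]
  rw [← h2, Finset.filter_filter, H.block, H.meet i j hij] at h1
  omega

open Classical in
theorem Aff.compl3 {J : Type} [Fintype J] {c : J → E → Fin 3} (H : Aff 3 mu l c) (j : J)
    (d d' : Fin 3) (hd : d ≠ d') :
    (univ.filter fun e => c j e ≠ d ∧ c j e ≠ d').card = 3 * mu := by
  have h0 : ∃ d'' : Fin 3, ∀ x : Fin 3, (x ≠ d ∧ x ≠ d') ↔ x = d'' := by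
    revert d d'
    decide
  obtain ⟨d'', h1⟩ := h0
  have h2 := H.block j d''
  rw [mul_comm] at h2
  rw [← h2]
  congr 1
  ext e
  simp only [mem_filter, mem_univ, true_and]
  exact h1 _

open Classical in
theorem s_pt (H : Aff 3 mu l cls) {u : Option I → Option I → Option I} (hu : ULoop u)
    (p : E × Option I) :
    (univ.filter fun b => sinc cls u p b).card = 3 * mu * (Fintype.card I + 2) := by
  rw [card_prod_filter (fun b => sinc cls u p b)]
  have h1 := sum_loop hu p.2 (fun z => (univ.filter fun b => srel cls z p.1 b).card)
  have h2 : (∑ y, (univ.filter fun b => sinc cls u p (b, y)).card) =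
      ∑ y, (univ.filter fun b => srel cls (u p.2 y) p.1 b).card := by
    refine Finset.sum_congr rfl fun y _ => ?_
    congr 1
  rw [h2, h1]
  have h3 : (univ.filter fun b : E => srel cls none p.1 b).card = 6 * mu := by
    rw [← H.compl none (cls none p.1)]
    congr 1
    ext b
    simp only [mem_filter, mem_univ, true_and]
    exact ne_comm
  have h4 : ∀ i : I, (univ.filter fun b : E => srel cls (some i) p.1 b).card = mu * 3 := by
    intro i
    rw [← H.block (some i) (cls (some i) p.1)]
    congr 1
    ext b
    simp only [mem_filter, mem_univ, true_and]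
    exact eq_comm
  rw [h3, Finset.sum_congr rfl fun i _ => h4 i, Finset.sum_const, Finset.card_univ, smul_eq_mul]
  ring

open Classical in
theorem s_pp (H : Aff 3 mu l cls) {u : Option I → Option I → Option I} (hu : ULoop u)
    (p p' : E × Option I) (hp : p ≠ p') :
    (univ.filter fun b => sinc cls u p b ∧ sinc cls u p' b).card = 3 * mu * (l + 1) := by
  rw [card_prod_filter (fun b => sinc cls u p b ∧ sinc cls u p' b)]
  have hR := H.bose
  rw [Fintype.card_option] at hR
  by_cases hx : p.2 = p'.2
  · have he : p.1 ≠ p'.1 := fun h => hp (Prod.ext h hx)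
    have h1 := sum_loop hu p.2
      (fun z => (univ.filter fun b => srel cls z p.1 b ∧ srel cls z p'.1 b).card)
    have h2 : (∑ y, (univ.filter fun b => sinc cls u p (b, y) ∧ sinc cls u p' (b, y)).card) =
        ∑ y, (univ.filter fun b => srel cls (u p.2 y) p.1 b ∧ srel cls (u p.2 y) p'.1 b).card := by
      refine Finset.sum_congr rfl fun y _ => ?_
      congr 1
      ext b
      simp only [mem_filter, mem_univ, true_and]
      unfold sinc
      rw [← hx]
    rw [h2, h1]
    have h3 : (univ.filter fun b : E => srel cls none p.1 b ∧ srel cls none p'.1 b).card =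
        3 * mu + if cls none p.1 = cls none p'.1 then mu * 3 else 0 := by
      by_cases h : cls none p.1 = cls none p'.1
      · rw [if_pos h]
        have h5 := H.compl none (cls none p.1)
        have h6 : (univ.filter fun b : E => srel cls none p.1 b ∧ srel cls none p'.1 b).card =
            (univ.filter fun b => cls none b ≠ cls none p.1).card := by
          congr 1
          ext b
          simp only [mem_filter, mem_univ, true_and]
          constructor
          · rintro ⟨h7, _⟩; exact Ne.symm h7
          · intro h7; exact ⟨Ne.symm h7, fun h8 => h7 (h8.symm.trans h.symm)⟩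
        rw [h6, h5]
        ring
      · rw [if_neg h, add_zero, ← H.compl3 none (cls none p.1) (cls none p'.1) h]
        congr 1
        ext b
        simp only [mem_filter, mem_univ, true_and]
        exact and_congr ne_comm ne_comm
    have h4 : ∀ i : I, (univ.filter fun b : E => srel cls (some i) p.1 b ∧
        srel cls (some i) p'.1 b).card =
        if cls (some i) p.1 = cls (some i) p'.1 then mu * 3 else 0 := by
      intro i
      by_cases h : cls (some i) p.1 = cls (some i) p'.1
      · rw [if_pos h, ← H.block (some i) (cls (some i) p.1)]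
        congr 1
        ext b
        simp only [mem_filter, mem_univ, true_and]
        constructor
        · rintro ⟨h5, _⟩; exact Eq.symm h5
        · intro h5
          exact ⟨h5.symm, h.symm.trans h5.symm⟩
      · rw [if_neg h, Finset.card_eq_zero, Finset.filter_eq_empty_iff]
        rintro b _ ⟨h5, h6⟩
        exact h (Eq.trans h5 (Eq.symm h6))
    rw [h3, Finset.sum_congr rfl fun i _ => h4 i, add_assoc]
    have h5 : ((if cls none p.1 = cls none p'.1 then mu * 3 else 0) +
        ∑ i : I, if cls (some i) p.1 = cls (some i) p'.1 then mu * 3 else 0) =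
        ∑ i : Option I, if cls i p.1 = cls i p'.1 then mu * 3 else 0 := by
      rw [Fintype.sum_option]
    rw [h5, ← Finset.sum_filter, Finset.sum_const, H.pair _ _ he, smul_eq_mul]
    ring
  · have h4 : ∀ y, (univ.filter fun b => sinc cls u p (b, y) ∧ sinc cls u p' (b, y)).card =
        mu + if y = p.2 ∨ y = p'.2 then mu else 0 := by
      intro y
      have hzz : u p.2 y ≠ u p'.2 y := fun h => hx (hu.right y h)
      have hun : (univ.filter fun b => sinc cls u p (b, y) ∧ sinc cls u p' (b, y)).card =
          (univ.filter fun b => srel cls (u p.2 y) p.1 b ∧ srel cls (u p'.2 y) p'.1 b).card := by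
        congr 1
      rw [hun]
      by_cases h : y = p.2
      · have hz : u p.2 y = none := by rw [h, hu.diag]
        rw [if_pos (Or.inl h)]
        rw [hz] at hzz ⊢
        obtain ⟨i, hi⟩ := Option.ne_none_iff_exists'.1 (Ne.symm hzz)
        rw [hi]
        have h5 := H.compl2 (some i) none (by simp) (cls (some i) p'.1) (cls none p.1)
        have h6 : (univ.filter fun b => srel cls none p.1 b ∧ srel cls (some i) p'.1 b).card =
            (univ.filter fun e => cls (some i) e = cls (some i) p'.1 ∧
              cls none e ≠ cls none p.1).card := by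
          congr 1
          ext b
          simp only [mem_filter, mem_univ, true_and]
          constructor
          · rintro ⟨h7, h8⟩; exact ⟨Eq.symm h8, Ne.symm h7⟩
          · rintro ⟨h7, h8⟩; exact ⟨Ne.symm h8, Eq.symm h7⟩
        rw [h6, h5]
        ring
      · by_cases h' : y = p'.2
        · have hz : u p'.2 y = none := by rw [h', hu.diag]
          rw [if_pos (Or.inr h')]
          rw [hz] at hzz ⊢
          obtain ⟨i, hi⟩ := Option.ne_none_iff_exists'.1 hzz
          rw [hi]
          have h5 := H.compl2 (some i) none (by simp) (cls (some i) p.1) (cls none p'.1)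
          have h6 : (univ.filter fun b => srel cls (some i) p.1 b ∧ srel cls none p'.1 b).card =
              (univ.filter fun e => cls (some i) e = cls (some i) p.1 ∧
                cls none e ≠ cls none p'.1).card := by
            congr 1
            ext b
            simp only [mem_filter, mem_univ, true_and]
            constructor
            · rintro ⟨h7, h8⟩; exact ⟨Eq.symm h7, Ne.symm h8⟩
            · rintro ⟨h7, h8⟩; exact ⟨Eq.symm h7, Ne.symm h8⟩
          rw [h6, h5]
          ring
        · rw [if_neg (by tauto), add_zero]
          have h5 : ∀ z, y ≠ z → ∃ i, u z y = some i := by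
            intro z hz
            rw [← Option.ne_none_iff_exists']
            intro h6
            exact hz (hu.left z (h6.trans (hu.diag z).symm))
          obtain ⟨i, hi⟩ := h5 p.2 h
          obtain ⟨i', hi'⟩ := h5 p'.2 h'
          rw [hi, hi'] at hzz ⊢
          rw [← H.meet (some i) (some i') hzz (cls (some i) p.1) (cls (some i') p'.1)]
          congr 1
          ext b
          simp only [mem_filter, mem_univ, true_and]
          exact and_congr eq_comm eq_comm
    rw [Finset.sum_congr rfl fun y _ => h4 y, Finset.sum_add_distrib, Finset.sum_const,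
      ← Finset.sum_filter, Finset.sum_const, Finset.card_univ, Fintype.card_option, smul_eq_mul,
      smul_eq_mul]
    have h7 : (univ.filter fun y : Option I => y = p.2 ∨ y = p'.2).card = 2 := by
      have h8 : (univ.filter fun y : Option I => y = p.2 ∨ y = p'.2) = {p.2, p'.2} := by
        ext y
        simp
      rw [h8, Finset.card_pair hx]
    rw [h7]
    have : Fintype.card I = 3 * l := by omega
    rw [this]
    ring

open Classical in
theorem s_sym (H : Aff 3 mu l cls) {u : Option I → Option I → Option I} (hu : ULoop u) (b0 : E) :
    SymD (sinc cls u) (b0, (none : Option I)) (3 * mu * (Fintype.card I + 2))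
      (3 * mu * (l + 1)) where
  card := rfl
  pt := s_pt H hu
  pp := s_pp H hu
  k0 := by
    rw [← s_pt H hu.flip (b0, none)]
    congr 1
    ext p
    simp only [mem_filter, mem_univ, true_and]
    exact sinc_flip cls u p _
  bb := by
    intro b hb
    rw [← s_pp H hu.flip b (b0, none) hb]
    congr 1
    ext p
    simp only [mem_filter, mem_univ, true_and]
    rw [sinc_flip cls u p b, sinc_flip cls u p (b0, none)]

omit [Fintype E] in
/-- A local array: an array on three sets of the same size. -/
theorem latin_on (A C S : Finset E) (hA : A.card = C.card) (hS : S.card = C.card) :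
    ∃ g : E → E → E, (∀ a ∈ A, ∀ c ∈ C, g a c ∈ S) ∧
      (∀ a ∈ A, ∀ c ∈ C, ∀ c' ∈ C, g a c = g a c' → c = c') ∧
      (∀ a ∈ A, ∀ a' ∈ A, ∀ c ∈ C, g a c = g a' c → a = a') := by
  classical
  obtain ⟨g, h1, h2, h3⟩ := koenig_on A C S (fun _ _ => True)
    (by intro a _; rw [Finset.filter_true, hS])
    (by intro a _; rw [Finset.filter_true, hA])
  exact ⟨g, fun a ha c hc => (h1 a ha c hc).1, h2, h3⟩

open Classical in
theorem s_arr (H : Aff 3 mu l cls) {u : Option I → Option I → Option I} (hu : ULoop u) (b0 : E) :
    ∃ f : E × Option I → E × Option I → E × Option I,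
      Arr (sinc cls u) (b0, (none : Option I)) f := by
  -- (A1) same class
  have hg1 : ∀ (i : I) (c : Fin 3), ∃ g : E → E → E,
      (∀ a, cls (some i) a = cls (some i) b0 → ∀ e, cls (some i) e = c → cls (some i) (g a e) = c) ∧
      (∀ a, cls (some i) a = cls (some i) b0 → ∀ e, cls (some i) e = c → ∀ e',
        cls (some i) e' = c → g a e = g a e' → e = e') ∧
      (∀ a, cls (some i) a = cls (some i) b0 → ∀ a', cls (some i) a' = cls (some i) b0 → ∀ e,
        cls (some i) e = c → g a e = g a' e → a = a') := by
    intro i c
    obtain ⟨g, h1, h2, h3⟩ := latin_on (univ.filter fun a => cls (some i) a = cls (some i) b0)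
      (univ.filter fun e => cls (some i) e = c) (univ.filter fun e => cls (some i) e = c)
      (by rw [H.block, H.block]) rfl
    simp only [mem_filter, mem_univ, true_and] at h1 h2 h3
    exact ⟨g, h1, h2, h3⟩
  -- (A2) different classes
  have hg2 : ∀ (i j s t : I) (c : Fin 3), s ≠ t → s ≠ j → i ≠ t → ∃ g : E → E → E,
      (∀ a, cls (some i) a = cls (some i) b0 → ∀ e, cls (some s) e = c →
        cls (some j) e ≠ cls (some j) b0 →
        cls (some s) (g a e) = c ∧ cls (some t) a ≠ cls (some t) (g a e)) ∧
      (∀ a, cls (some i) a = cls (some i) b0 → ∀ e, cls (some s) e = c →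
        cls (some j) e ≠ cls (some j) b0 → ∀ e', cls (some s) e' = c →
        cls (some j) e' ≠ cls (some j) b0 → g a e = g a e' → e = e') ∧
      (∀ a, cls (some i) a = cls (some i) b0 → ∀ a', cls (some i) a' = cls (some i) b0 → ∀ e,
        cls (some s) e = c → cls (some j) e ≠ cls (some j) b0 → g a e = g a' e → a = a') := by
    intro i j s t c hst hsj hit
    have hne : ∀ {x y : I}, x ≠ y → (some x : Option I) ≠ some y :=
      fun h h' => h (Option.some.inj h')
    obtain ⟨g, h1, h2, h3⟩ := koenig_on (univ.filter fun a => cls (some i) a = cls (some i) b0)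
      (univ.filter fun e => cls (some s) e = c ∧ cls (some j) e ≠ cls (some j) b0)
      (univ.filter fun e => cls (some s) e = c)
      (fun a b => cls (some t) a ≠ cls (some t) b)
      (by
        intro a _
        rw [H.compl2 (some s) (some j) (hne hsj), Finset.filter_filter,
          ← H.compl2 (some s) (some t) (hne hst) c (cls (some t) a)]
        congr 1
        ext b
        simp only [mem_filter, mem_univ, true_and]
        exact and_congr_right fun _ => ne_comm)
      (by
        intro b _
        rw [H.compl2 (some s) (some j) (hne hsj), Finset.filter_filter,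
          ← H.compl2 (some i) (some t) (hne hit) (cls (some i) b0) (cls (some t) b)]
        refine congrArg Finset.card ?_
        ext a
        simp only [mem_filter, mem_univ, true_and])
    simp only [mem_filter, mem_univ, true_and] at h1 h2 h3
    exact ⟨g, fun a ha e he1 he2 => h1 a ha e ⟨he1, he2⟩,
      fun a ha e he1 he2 e' he1' he2' => h2 a ha e ⟨he1, he2⟩ e' ⟨he1', he2'⟩,
      fun a ha a' ha' e he1 he2 => h3 a ha a' ha' e ⟨he1, he2⟩⟩
  -- two conditions
  have hg3 : ∀ (i j i' j' s t : Option I) (a b c d x y : Fin 3), i ≠ j → i' ≠ j' → s ≠ t →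
      ∃ g : E → E → E,
      (∀ h, cls i h = a → cls j h = b → ∀ e, cls i' e = c → cls j' e = d →
        cls s (g h e) = x ∧ cls t (g h e) = y) ∧
      (∀ h, cls i h = a → cls j h = b → ∀ e, cls i' e = c → cls j' e = d → ∀ e', cls i' e' = c →
        cls j' e' = d → g h e = g h e' → e = e') ∧
      (∀ h, cls i h = a → cls j h = b → ∀ h', cls i h' = a → cls j h' = b → ∀ e, cls i' e = c →
        cls j' e = d → g h e = g h' e → h = h') := by
    intro i j i' j' s t a b c d x y hij hij' hst
    obtain ⟨g, h1, h2, h3⟩ := latin_on (univ.filter fun h => cls i h = a ∧ cls j h = b)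
      (univ.filter fun e => cls i' e = c ∧ cls j' e = d)
      (univ.filter fun e => cls s e = x ∧ cls t e = y)
      (by rw [H.meet i j hij, H.meet i' j' hij']) (by rw [H.meet s t hst, H.meet i' j' hij'])
    simp only [mem_filter, mem_univ, true_and] at h1 h2 h3
    exact ⟨g, fun h ha hb e he1 he2 => h1 h ⟨ha, hb⟩ e ⟨he1, he2⟩,
      fun h ha hb e he1 he2 e' he1' he2' => h2 h ⟨ha, hb⟩ e ⟨he1, he2⟩ e' ⟨he1', he2'⟩,
      fun h ha hb h' ha' hb' e he1 he2 => h3 h ⟨ha, hb⟩ h' ⟨ha', hb'⟩ e ⟨he1, he2⟩⟩
  -- (D) the special class
  have hg4 : ∀ (c : Fin 3), ∃ g : E → E → E,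
      (∀ a, cls none a = c → ∀ e, cls none e = cls none b0 → cls none (g a e) = c) ∧
      (∀ a, cls none a = c → ∀ e, cls none e = cls none b0 → ∀ e',
        cls none e' = cls none b0 → g a e = g a e' → e = e') ∧
      (∀ a, cls none a = c → ∀ a', cls none a' = c → ∀ e,
        cls none e = cls none b0 → g a e = g a' e → a = a') := by
    intro c
    obtain ⟨g, h1, h2, h3⟩ := latin_on (univ.filter fun a => cls none a = c)
      (univ.filter fun e => cls none e = cls none b0) (univ.filter fun e => cls none e = c)
      (by rw [H.block, H.block]) (by rw [H.block, H.block])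
    simp only [mem_filter, mem_univ, true_and] at h1 h2 h3
    exact ⟨g, h1, h2, h3⟩
  choose g1 p1 q1 r1 using hg1
  choose g4 p4 q4 r4 using hg4
  have hG : ∀ i j : I, i ≠ j → ∃ (s t : I) (g : E → E → E),
      u (some j) (u (some i) (some j)) = some s ∧ u (some i) (u (some i) (some j)) = some t ∧
      (∀ a, cls (some i) a = cls (some i) b0 → ∀ e, cls (some j) e ≠ cls (some j) b0 →
        cls (some s) e = cls (some s) (g a e) ∧ cls (some t) a ≠ cls (some t) (g a e)) ∧
      (∀ a, cls (some i) a = cls (some i) b0 → ∀ e, cls (some j) e ≠ cls (some j) b0 → ∀ e',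
        cls (some j) e' ≠ cls (some j) b0 → g a e = g a e' → e = e') ∧
      (∀ a, cls (some i) a = cls (some i) b0 → ∀ a', cls (some i) a' = cls (some i) b0 → ∀ e,
        cls (some j) e ≠ cls (some j) b0 → g a e = g a' e → a = a') := by
    intro i j hij
    obtain ⟨s, t, hs, ht, hst, hsj, hit⟩ := hu.facts i j hij
    have hg := fun c => hg2 i j s t c hst hsj hit
    choose g p q r using hg
    refine ⟨s, t, fun a e => g (cls (some s) e) a e, hs, ht, ?_, ?_, ?_⟩
    · intro a ha e he
      have h1 := p (cls (some s) e) a ha e rfl he
      exact ⟨h1.1.symm, h1.2⟩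
    · intro a ha e he e' he' hee
      have h1 := p (cls (some s) e) a ha e rfl he
      have h2 := p (cls (some s) e') a ha e' rfl he'
      have h3 : cls (some s) e = cls (some s) e' := by
        rw [← h1.1, ← h2.1]
        exact congrArg (cls (some s)) hee
      have h4 : g (cls (some s) e) a e = g (cls (some s) e) a e' := by
        have h5 : g (cls (some s) e) a e = g (cls (some s) e') a e' := hee
        rw [← h3] at h5
        exact h5
      exact q (cls (some s) e) a ha e rfl he e' h3.symm he' h4
    · intro a ha a' ha' e he hee
      exact r (cls (some s) e) a ha a' ha' e rfl he hee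
  choose S T G hS hT hp hq hr using hG
  -- (B) row class `i`, special column class
  have hB : ∀ i : I, ∃ g : E → E → E,
      (∀ a, cls (some i) a = cls (some i) b0 → ∀ e, cls none e = cls none b0 →
        cls (some i) e = cls (some i) (g a e) ∧ cls none a = cls none (g a e)) ∧
      (∀ a, cls (some i) a = cls (some i) b0 → ∀ e, cls none e = cls none b0 → ∀ e',
        cls none e' = cls none b0 → g a e = g a e' → e = e') ∧
      (∀ a, cls (some i) a = cls (some i) b0 → ∀ a', cls (some i) a' = cls (some i) b0 → ∀ e,
        cls none e = cls none b0 → g a e = g a' e → a = a') := by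
    intro i
    have hi : (some i : Option I) ≠ none := by simp
    have hg := fun (f c : Fin 3) => hg3 (some i) none none (some i) (some i) none
      (cls (some i) b0) f (cls none b0) c c f hi hi.symm hi
    choose g p q r using hg
    refine ⟨fun a e => g (cls none a) (cls (some i) e) a e, ?_, ?_, ?_⟩
    · intro a ha e he
      have h1 := p (cls none a) (cls (some i) e) a ha rfl e he rfl
      exact ⟨h1.1.symm, h1.2.symm⟩
    · intro a ha e he e' he' hee
      have h1 := p (cls none a) (cls (some i) e) a ha rfl e he rfl
      have h2 := p (cls none a) (cls (some i) e') a ha rfl e' he' rfl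
      have h3 : cls (some i) e = cls (some i) e' := by
        rw [← h1.1, ← h2.1]
        exact congrArg (cls (some i)) hee
      have h5 : g (cls none a) (cls (some i) e) a e = g (cls none a) (cls (some i) e') a e' := hee
      rw [← h3] at h5
      exact q _ _ a ha rfl e he rfl e' he' h3.symm h5
    · intro a ha a' ha' e he hee
      have h1 := p (cls none a) (cls (some i) e) a ha rfl e he rfl
      have h2 := p (cls none a') (cls (some i) e) a' ha' rfl e he rfl
      have h3 : cls none a = cls none a' := by
        rw [← h1.2, ← h2.2]
        exact congrArg (cls none) hee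
      have h5 : g (cls none a) (cls (some i) e) a e = g (cls none a') (cls (some i) e) a' e := hee
      rw [← h3] at h5
      exact r _ _ a ha rfl a' ha' h3.symm e he rfl h5
  choose GB pB qB rB using hB
  -- (C) special row class, column class `j`
  have hC : ∀ j : I, ∃ g : E → E → E,
      (∀ a, cls none a ≠ cls none b0 → ∀ e, cls (some j) e ≠ cls (some j) b0 →
        cls none e ≠ cls none (g a e) ∧ cls (some j) a ≠ cls (some j) (g a e)) ∧
      (∀ a, cls none a ≠ cls none b0 → ∀ e, cls (some j) e ≠ cls (some j) b0 → ∀ e',
        cls (some j) e' ≠ cls (some j) b0 → g a e = g a e' → e = e') ∧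
      (∀ a, cls none a ≠ cls none b0 → ∀ a', cls none a' ≠ cls none b0 → ∀ e,
        cls (some j) e ≠ cls (some j) b0 → g a e = g a' e → a = a') := by
    intro j
    have hj : (none : Option I) ≠ some j := by simp
    have hg := fun (n k f d : Fin 3) => hg3 none (some j) none (some j) none (some j)
      n k f d (f + n - cls none b0) (k + d - cls (some j) b0) hj hj hj
    choose g p q r using hg
    have f3a : ∀ x y z : Fin 3, y ≠ z → x ≠ x + y - z := by decide
    have f3b : ∀ x x' y z : Fin 3, x + y - z = x' + y - z → x = x' := by decide
    have f3c : ∀ x x' y z : Fin 3, y + x - z = y + x' - z → x = x' := by decide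
    refine ⟨fun a e => g (cls none a) (cls (some j) a) (cls none e) (cls (some j) e) a e,
      ?_, ?_, ?_⟩
    · intro a ha e he
      have h1 := p (cls none a) (cls (some j) a) (cls none e) (cls (some j) e) a rfl rfl e rfl rfl
      rw [h1.1, h1.2]
      exact ⟨f3a _ _ _ ha, f3a _ _ _ he⟩
    · intro a ha e he e' he' hee
      have h1 := p (cls none a) (cls (some j) a) (cls none e) (cls (some j) e) a rfl rfl e rfl rfl
      have h2 := p (cls none a) (cls (some j) a) (cls none e') (cls (some j) e') a rfl rfl e'
        rfl rfl
      have h3 : cls none e = cls none e' := by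
        have := congrArg (cls none) hee
        simp only at this
        rw [h1.1, h2.1] at this
        exact f3b _ _ _ _ this
      have h4 : cls (some j) e = cls (some j) e' := by
        have := congrArg (cls (some j)) hee
        simp only at this
        rw [h1.2, h2.2] at this
        exact f3c _ _ _ _ this
      have h5 : g (cls none a) (cls (some j) a) (cls none e) (cls (some j) e) a e =
        g (cls none a) (cls (some j) a) (cls none e') (cls (some j) e') a e' := hee
      rw [← h3, ← h4] at h5
      exact q _ _ _ _ a rfl rfl e rfl rfl e' h3.symm h4.symm h5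
    · intro a ha a' ha' e he hee
      have h1 := p (cls none a) (cls (some j) a) (cls none e) (cls (some j) e) a rfl rfl e rfl rfl
      have h2 := p (cls none a') (cls (some j) a') (cls none e) (cls (some j) e) a' rfl rfl e
        rfl rfl
      have h3 : cls none a = cls none a' := by
        have := congrArg (cls none) hee
        simp only at this
        rw [h1.1, h2.1] at this
        exact f3c _ _ _ _ this
      have h4 : cls (some j) a = cls (some j) a' := by
        have := congrArg (cls (some j)) hee
        simp only at this
        rw [h1.2, h2.2] at this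
        exact f3b _ _ _ _ this
      have h5 : g (cls none a) (cls (some j) a) (cls none e) (cls (some j) e) a e =
        g (cls none a') (cls (some j) a') (cls none e) (cls (some j) e) a' e := hee
      rw [← h3, ← h4] at h5
      exact r _ _ _ _ a rfl rfl a' h3.symm h4.symm e rfl rfl h5
  choose GC pC qC rC using hC
  have hmain : ∀ x1 x2 : Option I, ∃ g : E → E → E,
      (∀ a, srel cls x1 a b0 → ∀ e, ¬ srel cls x2 e b0 →
        srel cls (u x2 (u x1 x2)) e (g a e) ∧ ¬ srel cls (u x1 (u x1 x2)) a (g a e)) ∧
      (∀ a, srel cls x1 a b0 → ∀ e, ¬ srel cls x2 e b0 → ∀ e', ¬ srel cls x2 e' b0 →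
        g a e = g a e' → e = e') ∧
      (∀ a, srel cls x1 a b0 → ∀ a', srel cls x1 a' b0 → ∀ e, ¬ srel cls x2 e b0 →
        g a e = g a' e → a = a') := by
    intro x1 x2
    cases x1 with
    | none =>
      cases x2 with
      | none =>
        rw [hu.diag]
        refine ⟨fun a e => g4 (cls none a) a e, ?_, ?_, ?_⟩
        · intro a ha e he
          have he' : cls none e = cls none b0 := not_not.1 he
          have h1 := p4 (cls none a) a rfl e he'
          rw [hu.diag]
          refine ⟨?_, ?_⟩
          · change cls none e ≠ cls none (g4 (cls none a) a e)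
            rw [h1, he']
            exact Ne.symm ha
          · intro h2
            exact h2 h1.symm
        · intro a ha e he e' he' hee
          exact q4 (cls none a) a rfl e (not_not.1 he) e' (not_not.1 he') hee
        · intro a ha a' ha' e he hee
          have h1 := p4 (cls none a) a rfl e (not_not.1 he)
          have h2 := p4 (cls none a') a' rfl e (not_not.1 he)
          have h3 : cls none a = cls none a' := by
            rw [← h1, ← h2]
            exact congrArg (cls none) hee
          have h5 : g4 (cls none a) a e = g4 (cls none a') a' e := hee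
          rw [← h3] at h5
          exact r4 (cls none a) a rfl a' h3.symm e (not_not.1 he) h5
      | some j =>
        rw [hu.one_left, hu.diag, hu.one_left]
        exact ⟨GC j, fun a ha e he => ⟨(pC j a ha e he).1, (pC j a ha e he).2⟩, qC j, rC j⟩
    | some i =>
      cases x2 with
      | none =>
        rw [hu.one_right, hu.one_left, hu.diag]
        refine ⟨GB i, ?_, ?_, ?_⟩
        · intro a ha e he
          have h1 := pB i a ha e (not_not.1 he)
          exact ⟨h1.1, fun h2 => h2 h1.2⟩
        · intro a ha e he e' he' hee
          exact qB i a ha e (not_not.1 he) e' (not_not.1 he') hee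
        · intro a ha a' ha' e he hee
          exact rB i a ha a' ha' e (not_not.1 he) hee
      | some j =>
        by_cases hij : i = j
        · subst hij
          rw [hu.diag, hu.one_right]
          refine ⟨fun a e => g1 i (cls (some i) e) a e, ?_, ?_, ?_⟩
          · intro a ha e he
            have h1 := p1 i (cls (some i) e) a ha e rfl
            refine ⟨h1.symm, ?_⟩
            intro h2
            apply he
            change cls (some i) e = cls (some i) b0
            rw [← h1]
            exact (Eq.symm h2).trans ha
          · intro a ha e he e' he' hee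
            have h1 := p1 i (cls (some i) e) a ha e rfl
            have h2 := p1 i (cls (some i) e') a ha e' rfl
            have h3 : cls (some i) e = cls (some i) e' := by
              rw [← h1, ← h2]
              exact congrArg (cls (some i)) hee
            have h5 : g1 i (cls (some i) e) a e = g1 i (cls (some i) e') a e' := hee
            rw [← h3] at h5
            exact q1 i (cls (some i) e) a ha e rfl e' h3.symm h5
          · intro a ha a' ha' e he hee
            exact r1 i (cls (some i) e) a ha a' ha' e rfl hee
        · rw [hS i j hij, hT i j hij]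
          exact ⟨G i j hij, fun a ha e he => ⟨(hp i j hij a ha e he).1, (hp i j hij a ha e he).2⟩,
            hq i j hij, hr i j hij⟩
  choose φ pp qq rr using hmain
  have hrow : ∀ p : E × Option I, sinc cls u p (b0, none) → srel cls p.2 p.1 b0 := by
    intro p hp
    unfold sinc at hp
    rwa [hu.one_right] at hp
  have hcol : ∀ p : E × Option I, ¬ sinc cls u p (b0, none) → ¬ srel cls p.2 p.1 b0 := by
    intro p hp
    unfold sinc at hp
    rwa [hu.one_right] at hp
  refine ⟨fun p x => (φ p.2 x.2 p.1 x.1, u p.2 x.2), ?_, ?_, ?_, ?_⟩
  · intro p x hp hx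
    exact (pp p.2 x.2 p.1 (hrow p hp) x.1 (hcol x hx)).1
  · intro p x hp hx
    exact (pp p.2 x.2 p.1 (hrow p hp) x.1 (hcol x hx)).2
  · intro p x x' hp hx hx' hff
    have h2 : x.2 = x'.2 := hu.left _ (congrArg Prod.snd hff)
    have h3 := congrArg Prod.fst hff
    simp only at h3
    rw [← h2] at h3
    refine Prod.ext (qq p.2 x.2 p.1 (hrow p hp) x.1 (hcol x hx) x'.1 ?_ h3) h2
    have := hcol x' hx'
    rwa [← h2] at this
  · intro p p' x hp hp' hx hff
    have h2 : p.2 = p'.2 := hu.right _ (congrArg Prod.snd hff)
    have h3 := congrArg Prod.fst hff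
    simp only at h3
    rw [← h2] at h3
    refine Prod.ext (rr p.2 x.2 p.1 (hrow p hp) p'.1 ?_ x.1 (hcol x hx) h3) h2
    have := hrow p' hp'
    rwa [← h2] at this

/-- Triple arrays with the parameters of Spence's designs. -/
theorem spence (H : Aff 3 mu l cls) (hmu : 1 ≤ mu) (r c : ℕ)
    (hr : r = 3 * mu * (Fintype.card I + 2))
    (hc : c = 3 * mu * (2 * Fintype.card I + 1)) :
    (∃ A : Fin r → Fin c → Fin (r + c - 1),
      IsTripleArray A (r - 3 * mu * (l + 1)) (c + 3 * mu * (l + 1) - r) (3 * mu * (l + 1))
        (r - 3 * mu * (l + 1))) ∧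
    (∃ A : Fin c → Fin r → Fin (c + r - 1),
      IsTripleArray A (r - 3 * mu * (l + 1)) (3 * mu * (l + 1)) (c + 3 * mu * (l + 1) - r)
        (r - 3 * mu * (l + 1))) := by
  have hb := H.bose
  rw [Fintype.card_option] at hb
  obtain ⟨u, hu⟩ := exists_uloop I (by omega)
  have hE := card_E H
  have hE0 : 0 < Fintype.card E := by
    rw [hE]
    positivity
  obtain ⟨b0⟩ : Nonempty E := Fintype.card_pos_iff.1 hE0
  obtain ⟨f, hf⟩ := s_arr H hu b0
  subst hr
  refine arrays_of_sym (s_sym H hu b0) hf c ?_
  rw [Fintype.card_prod, Fintype.card_option, hE, hc]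
  ring

end spence

end Pool.Agent.Lib.MP_6fba53_co
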