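import Pool.Agent.Lib.MP_6fba53_co.AffEx

set_option autoImplicit false

open Pool.Agent.Lib.MP_6fba53_co

namespace Pool.Agent.Results.MP_6fba53_co.Spence

/-- Extremal triple arrays for Spence's symmetric designs: for every `n ≥ 2` there are
`r × c` and `c × r` triple arrays with `r + c - 1` symbols, where `2 r = 3^(n-1) (3^n + 1)` and
`c = 3^(n-1) (3^n - 2)`. -/
theorem result : ∀ n r c lam : ℕ, 2 ≤ n → 2 * r = 3 ^ (n - 1) * (3 ^ n + 1) →
    c = 3 ^ (n - 1) * (3 ^ n - 2) → 2 * lam = 3 ^ (n - 1) * (3 ^ (n - 1) + 1) →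
    (∃ A : Fin r → Fin c → Fin (r + c - 1),
      IsTripleArray A (9 ^ (n - 1)) (c - 9 ^ (n - 1)) lam (9 ^ (n - 1))) ∧
    (∃ A : Fin c → Fin r → Fin (c + r - 1),
      IsTripleArray A (9 ^ (n - 1)) lam (c - 9 ^ (n - 1)) (9 ^ (n - 1))) := by
  intro n r c lam hn hr hc hlam
  obtain ⟨E, I, _, _, cls, H, hI⟩ := PG.exists_aff 3 n
    ((Nat.prime_three).isPrimePow) hn
  have hg : ∀ k : ℕ, 2 * (∑ i ∈ Finset.range k, 3 ^ i) + 1 = 3 ^ k := by
    intro k
    induction k with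
    | zero => simp
    | succ k ih => rw [Finset.sum_range_succ, pow_succ]; omega
  have h1 : 3 ≤ 3 ^ (n - 1) := by
    calc 3 = 3 ^ 1 := by norm_num
      _ ≤ 3 ^ (n - 1) := Nat.pow_le_pow_right (by norm_num) (by omega)
  have h3n : 3 ^ n = 3 ^ (n - 1) * 3 := by rw [← pow_succ]; congr 1; omega
  have h32 : 3 ^ (n - 1) = 3 * 3 ^ (n - 2) := by rw [← pow_succ']; congr 1; omega
  have hgn := hg n
  have hgm := hg (n - 1)
  have hI1 : 1 ≤ Fintype.card I := by rw [hI]; omega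
  have e : Option (Fin (Fintype.card I - 1)) ≃ I := Fintype.equivOfCardEq (by
    rw [Fintype.card_option, Fintype.card_fin]; omega)
  have H' := H.reindex e
  have h9 : 9 ^ (n - 1) = 3 ^ (n - 1) * 3 ^ (n - 1) := by
    rw [← mul_pow]
    norm_num
  have hl : lam = 3 * 3 ^ (n - 2) * ((∑ i ∈ Finset.range (n - 1), 3 ^ i) + 1) := by
    rw [← h32]
    have : 2 * lam = 2 * (3 ^ (n - 1) * ((∑ i ∈ Finset.range (n - 1), 3 ^ i) + 1)) := by
      rw [hlam, ← mul_assoc, mul_comm 2, mul_assoc]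
      congr 1
      omega
    omega
  have hr' : r = 3 * 3 ^ (n - 2) * (Fintype.card (Fin (Fintype.card I - 1)) + 2) := by
    rw [← h32, Fintype.card_fin, hI]
    have : 2 * r = 2 * (3 ^ (n - 1) * ((∑ i ∈ Finset.range n, 3 ^ i) - 1 + 2)) := by
      rw [hr, ← mul_assoc, mul_comm 2, mul_assoc]
      congr 1
      omega
    omega
  have hc' : c = 3 * 3 ^ (n - 2) * (2 * Fintype.card (Fin (Fintype.card I - 1)) + 1) := by
    rw [← h32, Fintype.card_fin, hI, hc]
    congr 1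
    omega
  have key := spence H' (Nat.one_le_pow _ _ (by norm_num)) r c hr' hc'
  rw [← hl] at key
  have e1 : r - lam = 9 ^ (n - 1) := by
    rw [h9]
    have : 2 * (3 ^ (n - 1) * 3 ^ (n - 1)) + 2 * lam = 2 * r := by
      rw [hr, hlam, h3n]
      ring
    omega
  have e2 : c + lam - r = c - 9 ^ (n - 1) := by
    have h0 : 0 < r - lam := by rw [e1]; positivity
    rw [← e1]
    omega
  rw [e1, e2] at key
  exact key

end Pool.Agent.Results.MP_6fba53_co.Spence
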