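import Pool.Agent.Lib.MP_6fba53_co.Basic

set_option autoImplicit false

/-! # Triple arrays from a symmetric design with an arrangement -/

namespace Pool.Agent.Lib.MP_6fba53_co

open Finset

open Classical in
/-- A symmetric design (points `P`, blocks `B`) with a distinguished block `B0`. -/
structure SymD {P B : Type} [Fintype P] [Fintype B] (inc : P → B → Prop) (B0 : B) (k lam : ℕ) :
    Prop where
  card : Fintype.card P = Fintype.card B
  pt : ∀ p, (univ.filter fun b => inc p b).card = k
  pp : ∀ p p', p ≠ p' → (univ.filter fun b => inc p b ∧ inc p' b).card = lam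
  k0 : (univ.filter fun p => inc p B0).card = k
  bb : ∀ b, b ≠ B0 → (univ.filter fun p => inc p b ∧ inc p B0).card = lam

/-- An arrangement: the cell in row `p ∈ B0` and column `x ∉ B0` is a block containing `x` and not
containing `p`. -/
structure Arr {P B : Type} (inc : P → B → Prop) (B0 : B) (f : P → P → B) : Prop where
  mem : ∀ p x, inc p B0 → ¬ inc x B0 → inc x (f p x)
  nmem : ∀ p x, inc p B0 → ¬ inc x B0 → ¬ inc p (f p x)
  row : ∀ p x x', inc p B0 → ¬ inc x B0 → ¬ inc x' B0 → f p x = f p x' → x = x'
  col : ∀ p p' x, inc p B0 → inc p' B0 → ¬ inc x B0 → f p x = f p' x → p = p'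

section

variable {P B : Type} [Fintype P] [Fintype B] {inc : P → B → Prop} {B0 : B} {k lam : ℕ}
  {f : P → P → B}

/-- The array. -/
def Arr.arr (h : Arr inc B0 f) (p : {p // inc p B0}) (x : {x // ¬ inc x B0}) : {b // b ≠ B0} :=
  ⟨f p.1 x.1, fun he => h.nmem p.1 x.1 p.2 x.2 (by rw [he]; exact p.2)⟩

open Classical in
theorem card_rows (D : SymD inc B0 k lam) : Fintype.card {p // inc p B0} = k := by
  rw [Fintype.card_subtype]
  convert D.k0

open Classical in
theorem card_cols (D : SymD inc B0 k lam) :
    Fintype.card {x // ¬ inc x B0} = Fintype.card P - k := by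
  rw [Fintype.card_subtype_compl, card_rows D]

open Classical in
theorem isTripleArray_arr' (D : SymD inc B0 k lam) (h : Arr inc B0 f) :
    IsTripleArray h.arr (k - lam) (Fintype.card P + lam - 2 * k) lam (k - lam) := by
  have hrow : ∀ p, Function.Injective (h.arr p) := by
    intro p x x' hx
    apply Subtype.ext
    exact h.row p.1 x.1 x'.1 p.2 x.2 x'.2 (congrArg Subtype.val hx)
  have hcol : ∀ x, Function.Injective fun p => h.arr p x := by
    intro x p p' hp
    apply Subtype.ext
    exact h.col p.1 p'.1 x.1 p.2 p'.2 x.2 (congrArg Subtype.val hp)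
  have hk : k ≤ Fintype.card P := by
    rw [← D.k0]
    exact Finset.card_le_univ _
  have hnot : ∀ p, (univ.filter fun b => ¬ inc p b).card = Fintype.card P - k := by
    intro p
    have h1 := Finset.card_filter_add_card_filter_not (s := (univ : Finset B)) (fun b => inc p b)
    rw [D.pt, Finset.card_univ, ← D.card] at h1
    omega
  -- subtypes of symbols
  have hsub : ∀ (Q : B → Prop) [DecidablePred Q]
      [DecidablePred fun b : {b // b ≠ B0} => Q b.1], (∀ b, Q b → b ≠ B0) →
      ((univ : Finset {b // b ≠ B0}).filter fun b => Q b.1).card =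
        ((univ : Finset B).filter fun b => Q b).card := by
    intro Q _ _ hQ
    refine Finset.card_bij (fun b _ => b.1) ?_ ?_ ?_
    · intro b hb
      simpa using hb
    · intro b _ b' _ hbb
      exact Subtype.ext hbb
    · intro b hb
      simp only [mem_filter, mem_univ, true_and] at hb
      exact ⟨⟨b, hQ b hb⟩, by simpa using hb, rfl⟩
  have himr : ∀ p : {p // inc p B0}, Finset.univ.image (h.arr p) =
      Finset.univ.filter fun b : {b // b ≠ B0} => ¬ inc p.1 b.1 := by
    intro p
    refine Finset.eq_of_subset_of_card_le ?_ ?_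
    · intro b hb
      simp only [mem_image, mem_univ, true_and, mem_filter] at hb ⊢
      obtain ⟨x, rfl⟩ := hb
      exact h.nmem p.1 x.1 p.2 x.2
    · rw [Finset.card_image_of_injective _ (hrow p), Finset.card_univ, card_cols D,
        hsub (fun b => ¬ inc p.1 b) (fun b hb he => hb (by rw [he]; exact p.2)), hnot]
  have himc : ∀ x : {x // ¬ inc x B0}, Finset.univ.image (fun p => h.arr p x) =
      Finset.univ.filter fun b : {b // b ≠ B0} => inc x.1 b.1 := by
    intro x
    refine Finset.eq_of_subset_of_card_le ?_ ?_
    · intro b hb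
      simp only [mem_image, mem_univ, true_and, mem_filter] at hb ⊢
      obtain ⟨p, rfl⟩ := hb
      exact h.mem p.1 x.1 p.2 x.2
    · rw [Finset.card_image_of_injective _ (hcol x), Finset.card_univ, card_rows D,
        hsub (fun b => inc x.1 b) (fun b hb he => x.2 (by subst he; exact hb)), D.pt]
  refine ⟨hrow, hcol, ?_, ?_, ?_, ?_⟩
  · rintro ⟨b, hb⟩
    have h1 : (univ.filter fun p => ¬ inc p b ∧ inc p B0).card = k - lam := by
      have h2 := Finset.card_filter_add_card_filter_not
        (s := (univ : Finset P).filter fun p => inc p B0) (fun p => inc p b)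
      rw [Finset.filter_filter, Finset.filter_filter, D.k0] at h2
      have h3 := D.bb b hb
      have h4 : (univ.filter fun p => inc p B0 ∧ inc p b) =
          (univ.filter fun p => inc p b ∧ inc p B0) := by
        ext p; simp [and_comm]
      have h5 : (univ.filter fun p => inc p B0 ∧ ¬ inc p b) =
          (univ.filter fun p => ¬ inc p b ∧ inc p B0) := by
        ext p; simp [and_comm]
      rw [h4, h5] at h2
      omega
    rw [← h1]
    refine Finset.card_bij (fun s _ => s.1.1) ?_ ?_ ?_
    · rintro ⟨p, x⟩ hs
      simp only [mem_filter, mem_univ, true_and] at hs ⊢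
      have h2 := h.nmem p.1 x.1 p.2 x.2
      have h3 : f p.1 x.1 = b := congrArg Subtype.val hs
      rw [h3] at h2
      exact ⟨h2, p.2⟩
    · rintro ⟨p, x⟩ hs ⟨p', x'⟩ hs' hpp
      simp only [mem_filter, mem_univ, true_and] at hs hs' hpp
      have h2 : p = p' := Subtype.ext hpp
      subst h2
      rw [hrow p (hs.trans hs'.symm)]
    · intro p hp
      simp only [mem_filter, mem_univ, true_and] at hp
      have h2 : (⟨b, hb⟩ : {b // b ≠ B0}) ∈ Finset.univ.image (h.arr ⟨p, hp.2⟩) := by
        rw [himr]
        simpa using hp.1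
      rw [mem_image] at h2
      obtain ⟨x, _, hx⟩ := h2
      exact ⟨(⟨p, hp.2⟩, x), by simpa using hx, rfl⟩
  · intro p p' hp
    rw [himr, himr, ← Finset.filter_and]
    have hpp : p.1 ≠ p'.1 := fun he => hp (Subtype.ext he)
    rw [hsub (fun b => ¬ inc p.1 b ∧ ¬ inc p'.1 b)
      (fun b hb he => hb.1 (by rw [he]; exact p.2))]
    have h1 := Finset.card_filter_add_card_filter_not
      (s := (univ : Finset B).filter fun b => ¬ inc p.1 b) (fun b => inc p'.1 b)
    have h2 := Finset.card_filter_add_card_filter_not
      (s := (univ : Finset B).filter fun b => inc p'.1 b) (fun b => inc p.1 b)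
    rw [Finset.filter_filter, Finset.filter_filter, hnot] at h1
    rw [Finset.filter_filter, Finset.filter_filter, D.pt] at h2
    have h3 : (univ.filter fun b => inc p'.1 b ∧ inc p.1 b).card = lam := by
      rw [← D.pp p.1 p'.1 hpp]
      congr 1
      ext b; simp [and_comm]
    have h4 : (univ.filter fun b => inc p'.1 b ∧ ¬ inc p.1 b).card =
        (univ.filter fun b => ¬ inc p.1 b ∧ inc p'.1 b).card := by
      congr 1
      ext b; simp [and_comm]
    rw [h3, h4] at h2
    have h5 := Finset.card_le_univ ((univ : Finset B).filter fun b => inc p.1 b ∨ inc p'.1 b)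
    omega
  · intro x x' hx
    rw [himc, himc, ← Finset.filter_and]
    have hxx : x.1 ≠ x'.1 := fun he => hx (Subtype.ext he)
    rw [hsub (fun b => inc x.1 b ∧ inc x'.1 b) (fun b hb he => x.2 (by subst he; exact hb.1))]
    exact D.pp _ _ hxx
  · intro p x
    rw [himr, himc, ← Finset.filter_and]
    rw [hsub (fun b => ¬ inc p.1 b ∧ inc x.1 b) (fun b hb he => hb.1 (by rw [he]; exact p.2))]
    have hpx : p.1 ≠ x.1 := fun he => x.2 (by rw [← he]; exact p.2)
    have h2 := Finset.card_filter_add_card_filter_not
      (s := (univ : Finset B).filter fun b => inc x.1 b) (fun b => inc p.1 b)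
    rw [Finset.filter_filter, Finset.filter_filter, D.pt] at h2
    have h3 : (univ.filter fun b => inc x.1 b ∧ inc p.1 b).card = lam := by
      rw [← D.pp p.1 x.1 hpx]
      congr 1
      ext b; simp [and_comm]
    have h4 : (univ.filter fun b => inc x.1 b ∧ ¬ inc p.1 b).card =
        (univ.filter fun b => ¬ inc p.1 b ∧ inc x.1 b).card := by
      congr 1
      ext b; simp [and_comm]
    rw [h3, h4] at h2
    omega

/-- The two arrays with index sets `Fin`. -/
theorem arrays_of_sym (D : SymD inc B0 k lam) (h : Arr inc B0 f) (c : ℕ)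
    (hc : Fintype.card P = k + c) :
    (∃ A : Fin k → Fin c → Fin (k + c - 1),
      IsTripleArray A (k - lam) (c + lam - k) lam (k - lam)) ∧
    (∃ A : Fin c → Fin k → Fin (c + k - 1),
      IsTripleArray A (k - lam) lam (c + lam - k) (k - lam)) := by
  classical
  have hT := isTripleArray_arr' D h
  have h1 : Fintype.card P + lam - 2 * k = c + lam - k := by omega
  rw [h1] at hT
  have hR := card_rows D
  have hC := card_cols D
  rw [hc, Nat.add_sub_cancel_left] at hC
  have hS : Fintype.card {b // b ≠ B0} = k + c - 1 := by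
    rw [Fintype.card_subtype_compl, Fintype.card_subtype_eq, ← D.card, hc]
  have hS' : Fintype.card {b // b ≠ B0} = c + k - 1 := by
    rw [hS, add_comm]
  let eR : Fin k ≃ {p // inc p B0} := (Fintype.equivFinOfCardEq hR).symm
  let eC : Fin c ≃ {x // ¬ inc x B0} := (Fintype.equivFinOfCardEq hC).symm
  have hT' := hT.transport eR eC (Fintype.equivFinOfCardEq hS)
  have hT'' := (hT.transpose).transport eC eR (Fintype.equivFinOfCardEq hS')
  exact ⟨⟨_, hT'⟩, ⟨_, hT''⟩⟩

end

end Pool.Agent.Lib.MP_6fba53_co
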