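import Pool.Agent.Lib.MP_6fba53_co.Sym
import Pool.Agent.Lib.MP_6fba53_co.Loop
import Pool.Agent.Lib.MP_6fba53_co.Koenig

set_option autoImplicit false

/-! # The symmetric designs of Wallis -/

namespace Pool.Agent.Lib.MP_6fba53_co

open Finset

section local_arrays

variable {E : Type} [Fintype E] [DecidableEq E]

omit [Fintype E] in
open Classical in
/-- A local array: rows `A`, columns `C`, entries in `S`, the entries of row `a` are the `s` with
`r a s`, every column contains every element of `S`. -/
theorem koenig_on (A C S : Finset E) (r : E → E → Prop)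
    (h1 : ∀ a ∈ A, (S.filter fun s => r a s).card = C.card)
    (h2 : ∀ s ∈ S, (A.filter fun a => r a s).card = C.card) :
    ∃ g : E → E → E, (∀ a ∈ A, ∀ c ∈ C, g a c ∈ S ∧ r a (g a c)) ∧
      (∀ a ∈ A, ∀ c ∈ C, ∀ c' ∈ C, g a c = g a c' → c = c') ∧
      (∀ a ∈ A, ∀ a' ∈ A, ∀ c ∈ C, g a c = g a' c → a = a') := by
  obtain ⟨col, hc1, hc2, hc3⟩ := koenig (Z := {a // a ∈ A} × {s // s ∈ S}) Prod.fst Prod.snd C.card
    (univ.filter fun z => r z.1.1 z.2.1) (by
      intro a
      rw [← h1 a.1 a.2, Finset.filter_filter]
      refine Finset.card_bij (fun z _ => z.2.1) ?_ ?_ ?_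
      · rintro ⟨a', s⟩ hz
        simp only [mem_filter, mem_univ, true_and] at hz ⊢
        exact ⟨s.2, by rw [← hz.2]; exact hz.1⟩
      · rintro ⟨a', s⟩ hz ⟨a'', s'⟩ hz' he
        simp only [mem_filter, mem_univ, true_and] at hz hz'
        exact Prod.ext (hz.2.trans hz'.2.symm) (Subtype.ext he)
      · intro s hs
        simp only [mem_filter] at hs
        exact ⟨(a, ⟨s, hs.1⟩), by simpa using hs.2, rfl⟩) (by
      intro s
      rw [← h2 s.1 s.2, Finset.filter_filter]
      refine Finset.card_bij (fun z _ => z.1.1) ?_ ?_ ?_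
      · rintro ⟨a, s'⟩ hz
        simp only [mem_filter, mem_univ, true_and] at hz ⊢
        exact ⟨a.2, by rw [← hz.2]; exact hz.1⟩
      · rintro ⟨a', s⟩ hz ⟨a'', s'⟩ hz' he
        simp only [mem_filter, mem_univ, true_and] at hz hz'
        exact Prod.ext (Subtype.ext he) (hz.2.trans hz'.2.symm)
      · intro a ha
        simp only [mem_filter] at ha
        exact ⟨(⟨a, ha.1⟩, s), by simpa using ha.2, rfl⟩)
  -- the index of a column
  let ix : {c // c ∈ C} ≃ Fin C.card := C.equivFin
  have hex : ∀ (a : {a // a ∈ A}) (c : {c // c ∈ C}), ∃ s : {s // s ∈ S}, r a.1 s.1 ∧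
      col (a, s) = (ix c : ℕ) := by
    intro a c
    have hcard : (univ.filter fun s : {s // s ∈ S} => r a.1 s.1).card = C.card := by
      rw [← h1 a.1 a.2]
      refine Finset.card_bij (fun s _ => s.1) ?_ ?_ ?_
      · intro s hs
        simp only [mem_filter, mem_univ, true_and] at hs ⊢
        exact ⟨s.2, hs⟩
      · intro s _ s' _ he
        exact Subtype.ext he
      · intro s hs
        simp only [mem_filter] at hs
        exact ⟨⟨s, hs.1⟩, by simpa using hs.2, rfl⟩
    have himg : ((univ.filter fun s : {s // s ∈ S} => r a.1 s.1).image fun s => col (a, s)) =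
        Finset.range C.card := by
      refine Finset.eq_of_subset_of_card_le ?_ ?_
      · intro t ht
        rw [mem_image] at ht
        obtain ⟨s, hs, rfl⟩ := ht
        simp only [mem_filter, mem_univ, true_and] at hs
        rw [Finset.mem_range]
        exact hc1 _ (by simpa using hs)
      · rw [Finset.card_range, Finset.card_image_of_injOn, hcard]
        intro s hs s' hs' he
        simp only [coe_filter, mem_univ, true_and, Set.mem_ofPred_eq] at hs hs'
        have := hc2 (a, s) (by simpa using hs) (a, s') (by simpa using hs') rfl he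
        exact congrArg Prod.snd this
    have hmem : (ix c : ℕ) ∈ Finset.range C.card := Finset.mem_range.2 (ix c).2
    rw [← himg, mem_image] at hmem
    obtain ⟨s, hs, he⟩ := hmem
    exact ⟨s, by simpa using hs, he⟩
  choose s hs1 hs2 using hex
  let g : E → E → E := fun a c =>
    if h : a ∈ A ∧ c ∈ C then (s ⟨a, h.1⟩ ⟨c, h.2⟩).1 else a
  have hg : ∀ a (ha : a ∈ A) c (hc : c ∈ C), g a c = (s ⟨a, ha⟩ ⟨c, hc⟩).1 :=
    fun a ha c hc => dif_pos ⟨ha, hc⟩
  refine ⟨g, ?_, ?_, ?_⟩
  · intro a ha c hc
    rw [hg a ha c hc]
    exact ⟨(s ⟨a, ha⟩ ⟨c, hc⟩).2, hs1 ⟨a, ha⟩ ⟨c, hc⟩⟩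
  · intro a ha c hc c' hc' he
    rw [hg a ha c hc, hg a ha c' hc'] at he
    have e1 := hs2 ⟨a, ha⟩ ⟨c, hc⟩
    have e2 := hs2 ⟨a, ha⟩ ⟨c', hc'⟩
    rw [Subtype.ext he, e2] at e1
    have e3 := ix.injective (Fin.ext e1)
    exact (congrArg Subtype.val e3).symm
  · intro a ha a' ha' c hc he
    rw [hg a ha c hc, hg a' ha' c hc] at he
    have e1 := hs2 ⟨a, ha⟩ ⟨c, hc⟩
    have e2 := hs2 ⟨a', ha'⟩ ⟨c, hc⟩
    rw [Subtype.ext he] at e1
    have h3 := hs1 ⟨a, ha⟩ ⟨c, hc⟩
    rw [Subtype.ext he] at h3
    have e3 := hc3 (⟨a, ha⟩, s ⟨a', ha'⟩ ⟨c, hc⟩) (by simpa using h3)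
      (⟨a', ha'⟩, s ⟨a', ha'⟩ ⟨c, hc⟩) (by simpa using hs1 ⟨a', ha'⟩ ⟨c, hc⟩) rfl
      (e1.trans e2.symm)
    exact congrArg Subtype.val (congrArg Prod.fst e3)

end local_arrays

open Classical in
/-- An affine resolvable design: points `E`, classes `I`, `m` blocks in each class, two blocks of
different classes meet in `mu` points, two points are together in `l` blocks. -/
structure Aff {E I : Type} [Fintype E] [Fintype I] (m mu l : ℕ) (cls : I → E → Fin m) : Prop where
  block : ∀ i c, (univ.filter fun e => cls i e = c).card = mu * m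
  meet : ∀ i j, i ≠ j → ∀ c d, (univ.filter fun e => cls i e = c ∧ cls j e = d).card = mu
  pair : ∀ e e', e ≠ e' → (univ.filter fun i => cls i e = cls i e').card = l
  bose : m * l + 1 = Fintype.card I

section wallis

variable {E I : Type} [Fintype E] [Fintype I] {m mu l : ℕ} {cls : I → E → Fin m}

/-- Incidence. -/
def winc (cls : I → E → Fin m) (u : Option I → Option I → Option I) (p b : E × Option I) : Prop :=
  ∃ i, u p.2 b.2 = some i ∧ cls i p.1 = cls i b.1

omit [Fintype I] in
theorem ULoop.flip {u : Option I → Option I → Option I} (h : ULoop u) :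
    ULoop fun x y => u y x where
  one_left := h.one_right
  one_right := h.one_left
  diag := h.diag
  left := h.right
  right := h.left

omit [Fintype E] [Fintype I] in
theorem winc_flip (cls : I → E → Fin m) (u : Option I → Option I → Option I) (p b : E × Option I) :
    winc cls u p b ↔ winc cls (fun x y => u y x) b p := by
  constructor
  · rintro ⟨i, h1, h2⟩; exact ⟨i, h1, h2.symm⟩
  · rintro ⟨i, h1, h2⟩; exact ⟨i, h1, h2.symm⟩

omit [Fintype I] in
theorem card_prod_filter {J : Type} [Fintype J] (Q : E × J → Prop) [DecidablePred Q]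
    [∀ y, DecidablePred fun b => Q (b, y)] :
    (univ.filter fun z => Q z).card = ∑ y, (univ.filter fun b => Q (b, y)).card := by
  simp only [Finset.card_filter]
  rw [Fintype.sum_prod_type_right]

theorem sum_loop {u : Option I → Option I → Option I} (hu : ULoop u) (x : Option I)
    (F : Option I → ℕ) : ∑ y, F (u x y) = F none + ∑ i, F (some i) := by
  have hb : Function.Bijective (u x) := Finite.injective_iff_bijective.1 (hu.left x)
  rw [← Fintype.sum_option]
  exact Fintype.sum_bijective (u x) hb _ _ fun _ => rfl

open Classical in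
theorem w_pt (H : Aff m mu l cls) {u : Option I → Option I → Option I} (hu : ULoop u)
    (p : E × Option I) :
    (univ.filter fun b => winc cls u p b).card = Fintype.card I * (mu * m) := by
  rw [card_prod_filter (fun b => winc cls u p b)]
  have h1 := sum_loop hu p.2
    (fun z => (univ.filter fun b => ∃ i, z = some i ∧ cls i p.1 = cls i b).card)
  have h2 : (∑ y, (univ.filter fun b => winc cls u p (b, y)).card) =
      ∑ y, (univ.filter fun b => ∃ i, u p.2 y = some i ∧ cls i p.1 = cls i b).card := by
    refine Finset.sum_congr rfl fun y _ => ?_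
    congr 1
    ext b
    simp only [mem_filter, mem_univ, true_and]
    rfl
  rw [h2, h1]
  have h3 : (univ.filter fun b : E => ∃ i, (none : Option I) = some i ∧ cls i p.1 = cls i b) = ∅ := by
    rw [Finset.filter_eq_empty_iff]
    rintro b _ ⟨i, hi, _⟩
    exact absurd hi (by simp)
  rw [h3, Finset.card_empty, zero_add]
  have h4 : ∀ i : I, (univ.filter fun b : E => ∃ i', some i = some i' ∧
      cls i' p.1 = cls i' b).card = mu * m := by
    intro i
    rw [← H.block i (cls i p.1)]
    congr 1
    ext b
    simp only [mem_filter, mem_univ, true_and, Option.some.injEq, exists_eq_left']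
    exact eq_comm
  rw [Finset.sum_congr rfl fun i _ => h4 i, Finset.sum_const, Finset.card_univ, smul_eq_mul]

open Classical in
theorem w_pp (H : Aff m mu l cls) {u : Option I → Option I → Option I} (hu : ULoop u)
    (p p' : E × Option I) (hp : p ≠ p') :
    (univ.filter fun b => winc cls u p b ∧ winc cls u p' b).card = mu * m * l := by
  rw [card_prod_filter (fun b => winc cls u p b ∧ winc cls u p' b)]
  by_cases hx : p.2 = p'.2
  · have he : p.1 ≠ p'.1 := fun h => hp (Prod.ext h hx)
    have h1 := sum_loop hu p.2
      (fun z => (univ.filter fun b => (∃ i, z = some i ∧ cls i p.1 = cls i b) ∧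
        (∃ i, z = some i ∧ cls i p'.1 = cls i b)).card)
    have h2 : (∑ y, (univ.filter fun b => winc cls u p (b, y) ∧ winc cls u p' (b, y)).card) =
        ∑ y, (univ.filter fun b => (∃ i, u p.2 y = some i ∧ cls i p.1 = cls i b) ∧
          (∃ i, u p.2 y = some i ∧ cls i p'.1 = cls i b)).card := by
      refine Finset.sum_congr rfl fun y _ => ?_
      congr 1
      ext b
      simp only [mem_filter, mem_univ, true_and]
      unfold winc
      rw [← hx]
    rw [h2, h1]
    have h3 : (univ.filter fun b : E => (∃ i, (none : Option I) = some i ∧ cls i p.1 = cls i b) ∧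
        (∃ i, (none : Option I) = some i ∧ cls i p'.1 = cls i b)) = ∅ := by
      rw [Finset.filter_eq_empty_iff]
      rintro b _ ⟨⟨i, hi, _⟩, _⟩
      exact absurd hi (by simp)
    rw [h3, Finset.card_empty, zero_add]
    have h4 : ∀ i : I, (univ.filter fun b : E => (∃ i', some i = some i' ∧
        cls i' p.1 = cls i' b) ∧ (∃ i', some i = some i' ∧ cls i' p'.1 = cls i' b)).card =
        if cls i p.1 = cls i p'.1 then mu * m else 0 := by
      intro i
      simp only [Option.some.injEq, exists_eq_left']
      by_cases h : cls i p.1 = cls i p'.1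
      · rw [if_pos h, ← H.block i (cls i p.1)]
        congr 1
        ext b
        simp only [mem_filter, mem_univ, true_and]
        rw [← h]
        constructor
        · rintro ⟨h5, _⟩; exact h5.symm
        · intro h5; exact ⟨h5.symm, h5.symm⟩
      · rw [if_neg h, Finset.card_eq_zero, Finset.filter_eq_empty_iff]
        rintro b _ ⟨h5, h6⟩
        exact h (h5.trans h6.symm)
    rw [Finset.sum_congr rfl fun i _ => h4 i, ← Finset.sum_filter, Finset.sum_const,
      H.pair _ _ he, smul_eq_mul, mul_comm]
  · have h4 : ∀ y, (univ.filter fun b => winc cls u p (b, y) ∧ winc cls u p' (b, y)).card =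
        if y = p.2 ∨ y = p'.2 then 0 else mu := by
      intro y
      by_cases h : y = p.2 ∨ y = p'.2
      · rw [if_pos h, Finset.card_eq_zero, Finset.filter_eq_empty_iff]
        rintro b _ ⟨⟨i, hi, _⟩, ⟨i', hi', _⟩⟩
        simp only at hi hi'
        rcases h with h | h
        · rw [h, hu.diag] at hi
          exact absurd hi (by simp)
        · rw [h, hu.diag] at hi'
          exact absurd hi' (by simp)
      · rw [if_neg h]
        push Not at h
        have h5 : ∀ z, y ≠ z → ∃ i, u z y = some i := by
          intro z hz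
          rw [← Option.ne_none_iff_exists']
          intro h6
          exact hz (hu.left z (h6.trans (hu.diag z).symm))
        obtain ⟨i, hi⟩ := h5 p.2 h.1
        obtain ⟨i', hi'⟩ := h5 p'.2 h.2
        have hii : i ≠ i' := by
          rintro rfl
          exact hx (hu.right y (hi.trans hi'.symm))
        rw [← H.meet i i' hii (cls i p.1) (cls i' p'.1)]
        congr 1
        ext b
        simp only [mem_filter, mem_univ, true_and]
        unfold winc
        simp only [hi, hi', Option.some.injEq, exists_eq_left']
        constructor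
        · rintro ⟨h6, h7⟩; exact ⟨h6.symm, h7.symm⟩
        · rintro ⟨h6, h7⟩; exact ⟨h6.symm, h7.symm⟩
    rw [Finset.sum_congr rfl fun y _ => h4 y]
    have h6 : (∑ y : Option I, if y = p.2 ∨ y = p'.2 then 0 else mu) =
        ∑ y ∈ univ.filter (fun y : Option I => ¬ (y = p.2 ∨ y = p'.2)), mu := by
      rw [Finset.sum_filter]
      refine Finset.sum_congr rfl fun y _ => ?_
      by_cases h : y = p.2 ∨ y = p'.2
      · rw [if_pos h, if_neg (not_not.2 h)]
      · rw [if_neg h, if_pos h]
    rw [h6, Finset.sum_const, smul_eq_mul]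
    have h7 : (univ.filter fun y : Option I => ¬ (y = p.2 ∨ y = p'.2)).card =
        m * l := by
      have h8 : (univ.filter fun y : Option I => ¬ (y = p.2 ∨ y = p'.2)) =
          (univ.erase p.2).erase p'.2 := by
        ext y
        simp only [mem_filter, mem_univ, true_and, mem_erase, and_true]
        tauto
      rw [h8, Finset.card_erase_of_mem (by simp [Ne.symm hx]),
        Finset.card_erase_of_mem (Finset.mem_univ _), Finset.card_univ, Fintype.card_option,
        ← H.bose]
      omega
    rw [h7]
    ring

open Classical in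
theorem w_sym (H : Aff m mu l cls) {u : Option I → Option I → Option I} (hu : ULoop u) (b0 : E) :
    SymD (winc cls u) (b0, (none : Option I)) (Fintype.card I * (mu * m)) (mu * m * l) where
  card := rfl
  pt := w_pt H hu
  pp := w_pp H hu
  k0 := by
    rw [← w_pt H hu.flip (b0, none)]
    congr 1
    ext p
    simp only [mem_filter, mem_univ, true_and]
    exact winc_flip cls u p _
  bb := by
    intro b hb
    rw [← w_pp H hu.flip b (b0, none) hb]
    congr 1
    ext p
    simp only [mem_filter, mem_univ, true_and]
    rw [winc_flip cls u p b, winc_flip cls u p (b0, none)]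

omit [Fintype I] in
theorem ULoop.facts {u : Option I → Option I → Option I} (hu : ULoop u) (i j : I) (hij : i ≠ j) :
    ∃ s t, u (some j) (u (some i) (some j)) = some s ∧ u (some i) (u (some i) (some j)) = some t ∧
      s ≠ t ∧ s ≠ j ∧ i ≠ t := by
  have hne : (some i : Option I) ≠ some j := fun h => hij (Option.some.inj h)
  have y0 : u (some i) (some j) ≠ none := fun h => hne (hu.left (some i) (h.trans
    (hu.diag (some i)).symm)).symm
  have y1 : u (some i) (some j) ≠ some i := fun h => by
    have := hu.left (some i) (h.trans (hu.one_right (some i)).symm)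
    exact absurd this (by simp)
  have y2 : u (some i) (some j) ≠ some j := fun h => by
    have := hu.right (some j) (h.trans (hu.one_left (some j)).symm)
    exact absurd this (by simp)
  set y := u (some i) (some j) with hy
  have s0 : u (some j) y ≠ none := fun h => y2 (hu.left (some j) (h.trans
    (hu.diag (some j)).symm))
  have t0 : u (some i) y ≠ none := fun h => y1 (hu.left (some i) (h.trans
    (hu.diag (some i)).symm))
  obtain ⟨s, hs⟩ := Option.ne_none_iff_exists'.1 s0
  obtain ⟨t, ht⟩ := Option.ne_none_iff_exists'.1 t0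
  refine ⟨s, t, hs, ht, ?_, ?_, ?_⟩
  · rintro rfl
    exact hne (hu.right y (ht.trans hs.symm))
  · rintro rfl
    exact y0 (hu.left (some s) (hs.trans (hu.one_right (some s)).symm))
  · rintro rfl
    exact y0 (hu.left (some i) (ht.trans (hu.one_right (some i)).symm))

open Classical in
theorem w_arr (H : Aff m mu l cls) {u : Option I → Option I → Option I} (hu : ULoop u) (b0 : E) :
    ∃ f : E × Option I → E × Option I → E × Option I,
      Arr (winc cls u) (b0, (none : Option I)) f := by
  -- local arrays inside a class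
  have hg1 : ∀ (i : I) (c : Fin m), ∃ g : E → E → E,
      (∀ a, cls i a = cls i b0 → ∀ e, cls i e = c → cls i (g a e) = c) ∧
      (∀ a, cls i a = cls i b0 → ∀ e, cls i e = c → ∀ e', cls i e' = c → g a e = g a e' → e = e') ∧
      (∀ a, cls i a = cls i b0 → ∀ a', cls i a' = cls i b0 → ∀ e, cls i e = c →
        g a e = g a' e → a = a') := by
    intro i c
    obtain ⟨g, h1, h2, h3⟩ := koenig_on (univ.filter fun a => cls i a = cls i b0)
      (univ.filter fun e => cls i e = c) (univ.filter fun e => cls i e = c) (fun _ _ => True)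
      (by intro a _; rw [Finset.filter_true])
      (by intro a _; rw [Finset.filter_true, H.block, H.block])
    simp only [mem_filter, mem_univ, true_and, and_true] at h1 h2 h3
    exact ⟨g, h1, h2, h3⟩
  have hsub : ∀ (s t : I), s ≠ t → ∀ c d, (univ.filter fun e => cls s e = c ∧ cls t e ≠ d).card =
      mu * m - mu := by
    intro s t hst c d
    have h1 := Finset.card_filter_add_card_filter_not
      (s := (univ : Finset E).filter fun e => cls s e = c) (fun e => cls t e = d)
    have h2 : (univ.filter fun e => cls s e = c ∧ cls t e ≠ d).card =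
        (((univ : Finset E).filter fun e => cls s e = c).filter fun e => ¬ cls t e = d).card := by
      rw [Finset.filter_filter]
    rw [← h2, Finset.filter_filter, H.block, H.meet s t hst] at h1
    omega
  have hg2 : ∀ (i j s t : I) (c : Fin m), s ≠ t → s ≠ j → i ≠ t → ∃ g : E → E → E,
      (∀ a, cls i a = cls i b0 → ∀ e, cls s e = c → cls j e ≠ cls j b0 →
        cls s (g a e) = c ∧ cls t a ≠ cls t (g a e)) ∧
      (∀ a, cls i a = cls i b0 → ∀ e, cls s e = c → cls j e ≠ cls j b0 → ∀ e', cls s e' = c →
        cls j e' ≠ cls j b0 → g a e = g a e' → e = e') ∧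
      (∀ a, cls i a = cls i b0 → ∀ a', cls i a' = cls i b0 → ∀ e, cls s e = c →
        cls j e ≠ cls j b0 → g a e = g a' e → a = a') := by
    intro i j s t c hst hsj hit
    obtain ⟨g, h1, h2, h3⟩ := koenig_on (univ.filter fun a => cls i a = cls i b0)
      (univ.filter fun e => cls s e = c ∧ cls j e ≠ cls j b0) (univ.filter fun e => cls s e = c)
      (fun a b => cls t a ≠ cls t b)
      (by
        intro a _
        rw [hsub s j hsj, Finset.filter_filter, ← hsub s t hst c (cls t a)]
        congr 1
        ext b
        simp only [mem_filter, mem_univ, true_and]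
        exact and_congr_right fun _ => ne_comm)
      (by
        intro b _
        rw [hsub s j hsj, Finset.filter_filter, ← hsub i t hit (cls i b0) (cls t b)]
        refine congrArg Finset.card ?_
        ext a
        simp only [mem_filter, mem_univ, true_and])
    simp only [mem_filter, mem_univ, true_and] at h1 h2 h3
    exact ⟨g, fun a ha e he1 he2 => h1 a ha e ⟨he1, he2⟩,
      fun a ha e he1 he2 e' he1' he2' => h2 a ha e ⟨he1, he2⟩ e' ⟨he1', he2'⟩,
      fun a ha a' ha' e he1 he2 => h3 a ha a' ha' e ⟨he1, he2⟩⟩
  choose g1 p1 q1 r1 using hg1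
  -- the entries in the generic cells
  have hG : ∀ i j : I, i ≠ j → ∃ (s t : I) (g : E → E → E),
      u (some j) (u (some i) (some j)) = some s ∧ u (some i) (u (some i) (some j)) = some t ∧
      (∀ a, cls i a = cls i b0 → ∀ e, cls j e ≠ cls j b0 →
        cls s e = cls s (g a e) ∧ cls t a ≠ cls t (g a e)) ∧
      (∀ a, cls i a = cls i b0 → ∀ e, cls j e ≠ cls j b0 → ∀ e', cls j e' ≠ cls j b0 →
        g a e = g a e' → e = e') ∧
      (∀ a, cls i a = cls i b0 → ∀ a', cls i a' = cls i b0 → ∀ e, cls j e ≠ cls j b0 →
        g a e = g a' e → a = a') := by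
    intro i j hij
    obtain ⟨s, t, hs, ht, hst, hsj, hit⟩ := hu.facts i j hij
    have hg := fun c => hg2 i j s t c hst hsj hit
    choose g p q r using hg
    refine ⟨s, t, fun a e => g (cls s e) a e, hs, ht, ?_, ?_, ?_⟩
    · intro a ha e he
      have h1 := p (cls s e) a ha e rfl he
      exact ⟨h1.1.symm, h1.2⟩
    · intro a ha e he e' he' hee
      have h1 := p (cls s e) a ha e rfl he
      have h2 := p (cls s e') a ha e' rfl he'
      have h3 : cls s e = cls s e' := by
        rw [← h1.1, ← h2.1]
        exact congrArg (cls s) hee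
      have h4 : g (cls s e) a e = g (cls s e) a e' := by
        have h5 : g (cls s e) a e = g (cls s e') a e' := hee
        rw [← h3] at h5
        exact h5
      exact q (cls s e) a ha e rfl he e' h3.symm he' h4
    · intro a ha a' ha' e he hee
      exact r (cls s e) a ha a' ha' e rfl he hee
  choose S T G hS hT hp hq hr using hG
  let f : E × Option I → E × Option I → E × Option I := fun p x =>
    match p.2, x.2 with
    | some i, none => (g1 i (cls i x.1) p.1 x.1, u p.2 x.2)
    | some i, some j => if hij : i = j then (g1 i (cls i x.1) p.1 x.1, u p.2 x.2)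
        else (G i j hij p.1 x.1, u p.2 x.2)
    | none, _ => (p.1, u p.2 x.2)
  have f1 : ∀ h e i, f (h, some i) (e, none) = (g1 i (cls i e) h e, u (some i) none) :=
    fun h e i => rfl
  have f2 : ∀ h e i, f (h, some i) (e, some i) = (g1 i (cls i e) h e, u (some i) (some i)) :=
    fun h e i => dif_pos rfl
  have f3 : ∀ h e i j (hij : i ≠ j), f (h, some i) (e, some j) =
      (G i j hij h e, u (some i) (some j)) := fun h e i j hij => dif_neg hij
  have f4 : ∀ h e i (x : Option I), (f (h, some i) (e, x)).2 = u (some i) x := by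
    intro h e i x
    cases x with
    | none => rw [f1]
    | some j =>
      by_cases hij : i = j
      · subst hij; rw [f2]
      · rw [f3 h e i j hij]
  clear_value f
  -- rows and columns
  have hrow : ∀ p : E × Option I, winc cls u p (b0, none) →
      ∃ i h, p = (h, some i) ∧ cls i h = cls i b0 := by
    rintro ⟨h, x⟩ ⟨i, h1, h2⟩
    simp only [hu.one_right] at h1
    exact ⟨i, h, by rw [h1], h2⟩
  have hcol : ∀ (e : E) (j : I), ¬ winc cls u (e, some j) (b0, none) → cls j e ≠ cls j b0 := by
    intro e j h h2
    exact h ⟨j, by rw [hu.one_right], h2⟩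
  refine ⟨f, ?_, ?_, ?_, ?_⟩
  · intro p x hpp hx
    obtain ⟨i, h, rfl, hh⟩ := hrow p hpp
    obtain ⟨e, x2⟩ := x
    cases x2 with
    | none =>
      rw [f1]
      exact ⟨i, by simp only [hu.one_right, hu.one_left], (p1 i _ h hh e rfl).symm⟩
    | some j =>
      by_cases hij : i = j
      · subst hij
        rw [f2]
        exact ⟨i, by simp only [hu.diag, hu.one_right], (p1 i _ h hh e rfl).symm⟩
      · rw [f3 h e i j hij]
        exact ⟨S i j hij, hS i j hij, (hp i j hij h hh e (hcol e j hx)).1⟩
  · intro p x hpp hx
    obtain ⟨i, h, rfl, hh⟩ := hrow p hpp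
    obtain ⟨e, x2⟩ := x
    cases x2 with
    | none =>
      rw [f1]
      rintro ⟨i', hi, _⟩
      simp only [hu.one_right, hu.diag] at hi
      exact absurd hi (by simp)
    | some j =>
      by_cases hij : i = j
      · subst hij
        rw [f2]
        rintro ⟨i', hi, h5⟩
        simp only [hu.diag, hu.one_right, Option.some.injEq] at hi
        subst hi
        simp only at h5
        rw [p1 i _ h hh e rfl, hh] at h5
        exact hcol e i hx h5.symm
      · rw [f3 h e i j hij]
        rintro ⟨i', hi, h5⟩
        simp only [hT i j hij, Option.some.injEq] at hi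
        subst hi
        exact (hp i j hij h hh e (hcol e j hx)).2 h5
  · intro p x x' hpp hx hx' hff
    obtain ⟨i, h, rfl, hh⟩ := hrow p hpp
    obtain ⟨e, x2⟩ := x
    obtain ⟨e', x2'⟩ := x'
    have h2 : x2 = x2' := by
      have h3 := congrArg Prod.snd hff
      rw [f4, f4] at h3
      exact hu.left _ h3
    subst h2
    congr 1
    cases x2 with
    | none =>
      rw [f1, f1] at hff
      have h3 := congrArg Prod.fst hff
      simp only at h3
      have h4 : cls i e = cls i e' := by
        rw [← p1 i _ h hh e rfl, ← p1 i _ h hh e' rfl, h3]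
      rw [← h4] at h3
      exact q1 i (cls i e) h hh e rfl e' h4.symm h3
    | some j =>
      by_cases hij : i = j
      · subst hij
        rw [f2, f2] at hff
        have h3 := congrArg Prod.fst hff
        simp only at h3
        have h4 : cls i e = cls i e' := by
          rw [← p1 i _ h hh e rfl, ← p1 i _ h hh e' rfl, h3]
        rw [← h4] at h3
        exact q1 i (cls i e) h hh e rfl e' h4.symm h3
      · rw [f3 h e i j hij, f3 h e' i j hij] at hff
        exact hq i j hij h hh e (hcol e j hx) e' (hcol e' j hx') (congrArg Prod.fst hff)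
  · intro p p' x hpp hpp' hx hff
    obtain ⟨i, h, rfl, hh⟩ := hrow p hpp
    obtain ⟨i', h', rfl, hh'⟩ := hrow p' hpp'
    obtain ⟨e, x2⟩ := x
    have h2 : i = i' := by
      have h3 := congrArg Prod.snd hff
      rw [f4, f4] at h3
      exact Option.some.inj (hu.right _ h3)
    subst h2
    congr 1
    cases x2 with
    | none =>
      rw [f1, f1] at hff
      exact r1 i (cls i e) h hh h' hh' e rfl (congrArg Prod.fst hff)
    | some j =>
      by_cases hij : i = j
      · subst hij
        rw [f2, f2] at hff
        exact r1 i (cls i e) h hh h' hh' e rfl (congrArg Prod.fst hff)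
      · rw [f3 h e i j hij, f3 h' e i j hij] at hff
        exact hr i j hij h hh h' hh' e (hcol e j hx) (congrArg Prod.fst hff)

theorem card_E (H : Aff m mu l cls) : Fintype.card E = mu * m * m := by
  classical
  have hI : 0 < Fintype.card I := by rw [← H.bose]; omega
  obtain ⟨i⟩ : Nonempty I := Fintype.card_pos_iff.1 hI
  rw [← Finset.card_univ, Finset.card_eq_sum_card_fiberwise (f := cls i) (t := univ)
    (fun _ _ => Finset.mem_coe.2 (Finset.mem_univ _))]
  have h1 : ∀ c : Fin m, ((univ : Finset E).filter fun e => cls i e = c).card = mu * m := by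
    intro c
    rw [← H.block i c]
  rw [Finset.sum_congr rfl fun c _ => h1 c, Finset.sum_const, Finset.card_univ, Fintype.card_fin,
    smul_eq_mul]
  ring

/-- Triple arrays with the parameters of Wallis' designs. -/
theorem wallis (H : Aff m mu l cls) (hm : 1 ≤ m) (hmu : 1 ≤ mu) (h2 : Fintype.card I ≠ 2) (r c : ℕ)
    (hr : r = Fintype.card I * (mu * m))
    (hc : c = mu * m * m + Fintype.card I * (mu * m * m - mu * m)) :
    (∃ A : Fin r → Fin c → Fin (r + c - 1),
      IsTripleArray A (r - mu * m * l) (c + mu * m * l - r) (mu * m * l) (r - mu * m * l)) ∧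
    (∃ A : Fin c → Fin r → Fin (c + r - 1),
      IsTripleArray A (r - mu * m * l) (mu * m * l) (c + mu * m * l - r) (r - mu * m * l)) := by
  obtain ⟨u, hu⟩ := exists_uloop I h2
  have hE := card_E H
  have hE0 : 0 < Fintype.card E := by
    rw [hE]
    positivity
  obtain ⟨b0⟩ : Nonempty E := Fintype.card_pos_iff.1 hE0
  obtain ⟨f, hf⟩ := w_arr H hu b0
  subst hr
  refine arrays_of_sym (w_sym H hu b0) hf c ?_
  rw [Fintype.card_prod, Fintype.card_option, hE, hc]
  obtain ⟨n, rfl⟩ : ∃ n, m = n + 1 := ⟨m - 1, by omega⟩
  have h3 : mu * (n + 1) * (n + 1) - mu * (n + 1) = mu * (n + 1) * n := by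
    rw [mul_add (mu * (n + 1)), mul_one, Nat.add_sub_cancel]
  rw [h3]
  ring

end wallis

end Pool.Agent.Lib.MP_6fba53_co
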